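import Mathlib
import Pool.Agent.Run7.h28.BV.URoot

/-!
# Project ST (helper28): functions approximated at a place by sums of units with constant coefficients
-/

set_option autoImplicit false
set_option linter.unusedSectionVars false

open Filter Topology

namespace Pool.Agent.Run7.h28.ST

open NumberField IsDedekindDomain Height Module
open Pool.Agent.W180.OP (Pl av wt nrm le_nrm nrm_pos wt_nonneg exists_nrm nrm_nonneg)
open Pool.Agent.N750
open Pool.Agent.Run7.h28.HK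
open Pool.Agent.Run7.h28.BV
open Pool.Agent.Run7.h28.EC (SubE fv it aA aB newton)

lemma Sp.cle {G : Type} [Field G] {F₀ F : Subfield G} (hF : F₀ ≤ F) {P : G → Prop} {x : G}
    (h : Sp F₀ P x) : Sp F P x := by
  obtain ⟨n, u, c, hu, hs⟩ := h
  exact ⟨n, u, fun i => ⟨c i, hF (c i).2⟩, hu, hs⟩

variable {L : Type} [Field L] [NumberField L] {α : Type} {𝓕 : Ultrafilter α} {H : α → ℝ}

/-- the constant germs -/
noncomputable def cF (𝓕 : Ultrafilter α) (L : Type) [Field L] : Subfield (Gm 𝓕 L) :=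
  (algebraMap L (Gm 𝓕 L)).fieldRange

lemma mem_cF (c : L) : mk 𝓕 (fun _ => c) ∈ cF 𝓕 L := ⟨c, rfl⟩

lemma cF_le (hH : Tendsto H 𝓕 atTop) : cF 𝓕 L ≤ slowF 𝓕 L H hH := by
  rintro _ ⟨c, rfl⟩
  exact mk_slow.2 (slow_const hH c)

/-- functions approximated by sums of units with constant coefficients at the place `v`, to any power
of `exp H` -/
def ApC (𝓕 : Ultrafilter α) (H : α → ℝ) (Γ : Subgroup Lˣ) (v : Pl L) (f : α → L) : Prop :=
  ∀ κ : ℝ, ∃ R : α → L, Sp (cF 𝓕 L) (PG 𝓕 H Γ) (mk 𝓕 R) ∧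
    ∀ᶠ t in (𝓕 : Filter α), av v (f t - R t) ≤ Real.exp (-(κ * H t))

variable (hH : Tendsto H 𝓕 atTop) {Γ : Subgroup Lˣ} {v : Pl L}

include hH in
lemma ApC.ap {f : α → L} (hf : ApC 𝓕 H Γ v f) : Ap hH Γ v f := by
  intro κ
  obtain ⟨R, hR, h⟩ := hf κ
  exact ⟨R, Sp.cle (cF_le hH) hR, h⟩

lemma ApC.sp {f : α → L} (hf : Sp (cF 𝓕 L) (PG 𝓕 H Γ) (mk 𝓕 f)) : ApC 𝓕 H Γ v f := by
  intro κ
  refine ⟨f, hf, Eventually.of_forall fun t => ?_⟩
  rw [sub_self, map_zero]
  exact (Real.exp_pos _).le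

lemma ApC.const (c : L) : ApC 𝓕 H Γ v (fun _ => c) := by
  refine ApC.sp ?_
  rw [← mul_one (mk 𝓕 (fun _ => c))]
  exact Sp.smul (mem_cF c) (Sp.of PG.one)

lemma ApC.unit {a : α → Lˣ} (ha : ∀ t, a t ∈ Γ) (hm : Mdr 𝓕 H (fun t => (a t : L))) :
    ApC 𝓕 H Γ v (fun t => (a t : L)) :=
  ApC.sp (Sp.of ⟨a, rfl, ha, hm⟩)

lemma ApC.congr {f g : α → L} (hf : ApC 𝓕 H Γ v f) (h : ∀ᶠ t in (𝓕 : Filter α), f t = g t) :
    ApC 𝓕 H Γ v g := by
  intro κ
  obtain ⟨R, hR, h1⟩ := hf κ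
  refine ⟨R, hR, ?_⟩
  filter_upwards [h1, h] with t h2 h3
  rwa [← h3]

include hH

/-- limits -/
lemma ApC.lim {f : α → L} (h : ∀ κ : ℝ, ∃ g : α → L, ApC 𝓕 H Γ v g ∧
    ∀ᶠ t in (𝓕 : Filter α), av v (f t - g t) ≤ Real.exp (-(κ * H t))) : ApC 𝓕 H Γ v f := by
  intro κ
  obtain ⟨g, hg, h1⟩ := h (κ + 1)
  obtain ⟨R, hR, h2⟩ := hg (κ + 1)
  refine ⟨R, hR, ?_⟩
  filter_upwards [h1, h2, two_le hH] with t h3 h4 h5
  have h6 : f t - R t = (f t - g t) + (g t - R t) := by ring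
  rw [h6]
  calc av v ((f t - g t) + (g t - R t)) ≤ av v (f t - g t) + av v (g t - R t) := (av v).add_le _ _
    _ ≤ 2 * Real.exp (-((κ + 1) * H t)) := by linarith
    _ ≤ Real.exp (H t) * Real.exp (-((κ + 1) * H t)) :=
        mul_le_mul_of_nonneg_right h5 (Real.exp_pos _).le
    _ = Real.exp (-(κ * H t)) := by
        rw [← Real.exp_add]
        congr 1
        ring

lemma ApC.add {f g : α → L} (hf : ApC 𝓕 H Γ v f) (hg : ApC 𝓕 H Γ v g) :
    ApC 𝓕 H Γ v (fun t => f t + g t) := by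
  intro κ
  obtain ⟨R, hR, h1⟩ := hf (κ + 1)
  obtain ⟨R', hR', h2⟩ := hg (κ + 1)
  refine ⟨fun t => R t + R' t, ?_, ?_⟩
  · have h3 : mk 𝓕 (fun t => R t + R' t) = mk 𝓕 R + mk 𝓕 R' := by rw [← map_add]; rfl
    rw [h3]
    exact hR.add hR'
  filter_upwards [h1, h2, two_le hH] with t h3 h4 h5
  have h6 : f t + g t - (R t + R' t) = (f t - R t) + (g t - R' t) := by ring
  rw [h6]
  calc av v ((f t - R t) + (g t - R' t)) ≤ av v (f t - R t) + av v (g t - R' t) :=
        (av v).add_le _ _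
    _ ≤ 2 * Real.exp (-((κ + 1) * H t)) := by linarith
    _ ≤ Real.exp (H t) * Real.exp (-((κ + 1) * H t)) :=
        mul_le_mul_of_nonneg_right h5 (Real.exp_pos _).le
    _ = Real.exp (-(κ * H t)) := by
        rw [← Real.exp_add]
        congr 1
        ring

lemma ApC.mul {f g : α → L} (hf : ApC 𝓕 H Γ v f) (hg : ApC 𝓕 H Γ v g) :
    ApC 𝓕 H Γ v (fun t => f t * g t) := by
  intro κ
  obtain ⟨C, hC, h⟩ := (ApC.ap hH hf).lb
  obtain ⟨R', hR', h2⟩ := hg (κ + C + 1)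
  obtain ⟨C', hC', h'⟩ := LB.sp (v := v) hH (Sp.cle (cF_le hH) hR')
  obtain ⟨R, hR, h1⟩ := hf (κ + C' + 1)
  refine ⟨fun t => R t * R' t, ?_, ?_⟩
  · have h3 : mk 𝓕 (fun t => R t * R' t) = mk 𝓕 R * mk 𝓕 R' := by rw [← map_mul]; rfl
    rw [h3]
    exact Sp.mul (fun _ _ => PG.mul) hR hR'
  filter_upwards [h, h2, h', h1, two_le hH] with t h3 h4 h5 h6 h7
  have h8 : f t * g t - R t * R' t = f t * (g t - R' t) + (f t - R t) * R' t := by ring
  rw [h8]
  calc av v (f t * (g t - R' t) + (f t - R t) * R' t) ≤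
        av v (f t) * av v (g t - R' t) + av v (f t - R t) * av v (R' t) := by
        rw [← map_mul, ← map_mul]
        exact (av v).add_le _ _
    _ ≤ Real.exp (C * H t) * Real.exp (-((κ + C + 1) * H t)) +
          Real.exp (-((κ + C' + 1) * H t)) * Real.exp (C' * H t) :=
        add_le_add (mul_le_mul h3 h4 ((av v).nonneg _) (Real.exp_pos _).le)
          (mul_le_mul h6 h5 ((av v).nonneg _) (Real.exp_pos _).le)
    _ = 2 * Real.exp (-((κ + 1) * H t)) := by
        rw [← Real.exp_add, ← Real.exp_add, two_mul]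
        congr 2 <;> ring
    _ ≤ Real.exp (H t) * Real.exp (-((κ + 1) * H t)) :=
        mul_le_mul_of_nonneg_right h7 (Real.exp_pos _).le
    _ = Real.exp (-(κ * H t)) := by
        rw [← Real.exp_add]
        congr 1
        ring

lemma ApC.neg {f : α → L} (hf : ApC 𝓕 H Γ v f) : ApC 𝓕 H Γ v (fun t => -f t) := by
  refine (ApC.mul hH (ApC.const (-1 : L)) hf).congr (Eventually.of_forall fun t => ?_)
  ring

lemma ApC.pow {f : α → L} (hf : ApC 𝓕 H Γ v f) (n : ℕ) : ApC 𝓕 H Γ v (fun t => f t ^ n) := by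
  induction n with
  | zero => simpa only [pow_zero] using ApC.const (1 : L)
  | succ n ih => simpa only [pow_succ] using ApC.mul hH ih hf

lemma ApC.sum {ι : Type} (A : Finset ι) (f : ι → α → L)
    (hf : ∀ i ∈ A, ApC 𝓕 H Γ v (f i)) : ApC 𝓕 H Γ v (fun t => ∑ i ∈ A, f i t) := by
  classical
  induction A using Finset.induction_on with
  | empty => simpa only [Finset.sum_empty] using ApC.const (0 : L)
  | insert a A ha ih =>
    simp only [Finset.sum_insert ha]
    exact ApC.add hH (hf a (Finset.mem_insert_self _ _))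
      (ih fun i hi => hf i (Finset.mem_insert_of_mem hi))

lemma ApC.prod {ι : Type} (A : Finset ι) (f : ι → α → L)
    (hf : ∀ i ∈ A, ApC 𝓕 H Γ v (f i)) : ApC 𝓕 H Γ v (fun t => ∏ i ∈ A, f i t) := by
  classical
  induction A using Finset.induction_on with
  | empty => simpa only [Finset.prod_empty] using ApC.const (1 : L)
  | insert a A ha ih =>
    simp only [Finset.prod_insert ha]
    exact ApC.mul hH (hf a (Finset.mem_insert_self _ _))
      (ih fun i hi => hf i (Finset.mem_insert_of_mem hi))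

/-- inverses -/
lemma ApC.inv {β : α → L} (hβ : ApC 𝓕 H Γ v β) (e : L) (he0 : e ≠ 0)
    (hs : Sm 𝓕 H v (fun t => β t - e)) :
    ApC 𝓕 H Γ v (fun t => (β t)⁻¹) := by
  have he : Slow 𝓕 H (fun _ : α => e) := slow_const hH e
  -- the small quantity
  obtain ⟨η, hη⟩ : ∃ η : α → L, η = fun t => (e - β t) * e⁻¹ := ⟨_, rfl⟩
  have hηs : Sm 𝓕 H v η := by
    have h1 := (hs.neg).mul (Bd.slow he.inv v)
    rw [hη]
    have h2 : (fun t => -(β t - e) * e⁻¹) = fun t => (e - β t) * e⁻¹ := by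
      funext t
      ring
    rwa [h2] at h1
  have hηa : ApC 𝓕 H Γ v η := by
    rw [hη]
    refine (ApC.mul hH (ApC.add hH (ApC.const e) (ApC.neg hH hβ)) (ApC.const e⁻¹)).congr
      (Eventually.of_forall fun t => ?_)
    ring
  obtain ⟨c, hc, hηc⟩ := hηs
  refine ApC.lim hH fun κ => ?_
  obtain ⟨N, hN⟩ := exists_nat_gt ((|κ| + 2) / c)
  refine ⟨fun t => e⁻¹ * ∑ k ∈ Finset.range N, η t ^ k,
    ApC.mul hH (ApC.const e⁻¹) (ApC.sum hH _ (fun k t => η t ^ k) fun k _ => ApC.pow hH hηa k), ?_⟩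
  filter_upwards [hηc, hH_le hH 0, inv_bd (v := v) he (ε := 1) one_pos, two_le hH,
    hH_le hH (Real.log 2 / c)] with t h2 h3 h4 h5 h6
  have hη1 : av v (η t) ≤ 1 / 2 := by
    refine h2.trans ?_
    rw [div_le_iff₀ hc] at h6
    rw [Real.exp_neg, one_div]
    refine inv_anti₀ (by norm_num) ?_
    calc (2 : ℝ) = Real.exp (Real.log 2) := (Real.exp_log (by norm_num)).symm
      _ ≤ _ := Real.exp_le_exp.2 (by linarith)
  have hβe : β t = e * (1 - η t) := by
    rw [hη]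
    field_simp
    ring
  have h1η : 1 / 2 ≤ av v (1 - η t) := by
    have h7 : av v ((1 - η t) + η t) ≤ av v (1 - η t) + av v (η t) := (av v).add_le _ _
    have h8 : (1 - η t) + η t = 1 := by ring
    rw [h8, map_one] at h7
    linarith
  have h1η0 : (1 - η t) ≠ 0 := by
    intro h
    rw [h, map_zero] at h1η
    linarith
  have hgeo : (∑ k ∈ Finset.range N, η t ^ k) * (1 - η t) = 1 - η t ^ N := by
    have := geom_sum_mul (η t) N
    linear_combination -this
  have hdiff : (β t)⁻¹ - e⁻¹ * ∑ k ∈ Finset.range N, η t ^ k =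
      e⁻¹ * (η t ^ N * (1 - η t)⁻¹) := by
    have h9 : (∑ k ∈ Finset.range N, η t ^ k) = (1 - η t ^ N) * (1 - η t)⁻¹ := by
      rw [← hgeo, mul_assoc, mul_inv_cancel₀ h1η0, mul_one]
    rw [hβe, h9, mul_inv]
    ring
  rw [hdiff, map_mul, map_mul, map_pow, map_inv₀ (av v) (1 - η t)]
  have h10 : (av v (1 - η t))⁻¹ ≤ 2 := by
    have := inv_anti₀ (by norm_num) h1η
    simpa using this
  have h11 : av v (η t) ^ N ≤ Real.exp (-((|κ| + 2) * H t)) := by
    refine (pow_le_pow_left₀ ((av v).nonneg _) h2 _).trans ?_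
    rw [← Real.exp_nat_mul]
    refine Real.exp_le_exp.2 ?_
    rw [div_lt_iff₀ hc] at hN
    have h12 := mul_le_mul_of_nonneg_right hN.le h3
    linarith
  calc av v e⁻¹ * (av v (η t) ^ N * (av v (1 - η t))⁻¹) ≤
        Real.exp (1 * H t) * (Real.exp (-((|κ| + 2) * H t)) * Real.exp (H t)) := by
        refine mul_le_mul h4 (mul_le_mul h11 (h10.trans h5) (inv_nonneg.2 ((av v).nonneg _))
          (Real.exp_pos _).le) ?_ (Real.exp_pos _).le
        exact mul_nonneg (pow_nonneg ((av v).nonneg _) _) (inv_nonneg.2 ((av v).nonneg _))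
    _ = Real.exp (-(|κ| * H t)) := by
        rw [← Real.exp_add, ← Real.exp_add]
        congr 1
        ring
    _ ≤ Real.exp (-(κ * H t)) := Real.exp_le_exp.2 (neg_le_neg
        (mul_le_mul_of_nonneg_right (le_abs_self κ) h3))

/-- roots of monic polynomials near a constant separable split polynomial -/
theorem apC_root {q : ℕ} (hq : 0 < q) (E : Polynomial L) (hE : E.Monic)
    (hdeg : E.natDegree = q) (ρ : Fin q → L) (hprod : ∀ Y, E.eval Y = ∏ i, (Y - ρ i))
    (hinj : ∀ i j, i ≠ j → ρ i ≠ ρ j) (hder : ∀ i, E.derivative.eval (ρ i) ≠ 0)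
    (β : ℕ → α → L) (hβ : ∀ j < q, ApC 𝓕 H Γ v (β j))
    (hβs : ∀ j < q, Sm 𝓕 H v (fun t => β j t - E.coeff j)) (Y : α → L)
    (heq : ∀ᶠ t in (𝓕 : Filter α), Y t ^ q + ∑ j ∈ Finset.range q, β j t * Y t ^ j = 0) :
    ApC 𝓕 H Γ v Y := by
  classical
  obtain ⟨b, hb⟩ : ∃ b : α → ℕ → L, b = fun t j => β j t - E.coeff j := ⟨_, rfl⟩
  -- the value of the perturbed polynomial
  have hfv : ∀ t Z, fv E (b t) Z = Z ^ q + ∑ j ∈ Finset.range q, β j t * Z ^ j := by
    intro t Z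
    unfold fv
    rw [Polynomial.eval_eq_sum_range, hdeg, Finset.sum_range_succ]
    have h3 : E.coeff q = 1 := by rw [← hdeg]; exact hE.coeff_natDegree
    rw [h3, one_mul, add_comm _ (Z ^ q), add_assoc, ← Finset.sum_add_distrib, hb]
    congr 1
    exact Finset.sum_congr rfl fun j _ => by ring
  -- a common exponent
  have hsm : ∀ j, ∃ e : ℝ, 0 < e ∧ (j < q → ∀ᶠ t in (𝓕 : Filter α),
      av v (b t j) ≤ Real.exp (-(e * H t))) := by
    intro j
    by_cases hj : j < q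
    · obtain ⟨e, he, h⟩ := hβs j hj
      refine ⟨e, he, fun _ => ?_⟩
      rw [hb]
      exact h
    · exact ⟨1, one_pos, fun h => absurd h hj⟩
  choose e he1 he2 using hsm
  obtain ⟨c, hc, hce⟩ := exists_pos_le (Finset.range q) e fun j _ => he1 j
  obtain ⟨i0, hi0⟩ := near_root hH v hq (fun _ => E) (fun _ => hE) (fun _ => hdeg)
    (fun j => slow_const hH _) (fun i _ => ρ i) (fun i => slow_const hH _) (fun _ => hprod)
    (fun _ => hinj) (fun _ => hder) b c hc (fun j hj => by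
      filter_upwards [he2 j hj, hH_le hH 0] with t h1 h2
      exact h1.trans (Real.exp_le_exp.2 (neg_le_neg (mul_le_mul_of_nonneg_right
        (hce j (Finset.mem_range.2 hj)) h2)))) Y (by
      filter_upwards [heq] with t ht
      rw [hfv]
      exact ht)
  -- the iterates
  have hit : ∀ n, ApC 𝓕 H Γ v (fun t => it E (b t) (ρ i0) n) := by
    intro n
    induction n with
    | zero => exact ApC.const (ρ i0)
    | succ n ih =>
      have h1 : ApC 𝓕 H Γ v (fun t => it E (b t) (ρ i0) n +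
          (-(E.derivative.eval (ρ i0))⁻¹) * (it E (b t) (ρ i0) n ^ q +
            ∑ j ∈ Finset.range q, β j t * it E (b t) (ρ i0) n ^ j)) :=
        ApC.add hH ih (ApC.mul hH (ApC.const _) (ApC.add hH (ApC.pow hH ih q) (ApC.sum hH _
          (fun j t => β j t * it E (b t) (ρ i0) n ^ j)
          fun j hj => ApC.mul hH (hβ j (Finset.mem_range.1 hj)) (ApC.pow hH ih j))))
      refine h1.congr (Eventually.of_forall fun t => ?_)
      rw [← hfv]
      show _ = it E (b t) (ρ i0) n - fv E (b t) (it E (b t) (ρ i0) n) /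
          E.derivative.eval (ρ i0)
      rw [div_eq_mul_inv]
      ring
  refine ApC.lim hH fun κ => ?_
  obtain ⟨n, hn⟩ := exists_nat_gt (κ / (c / 2))
  refine ⟨_, hit n, ?_⟩
  filter_upwards [hi0 n, hH_le hH 0] with t h1 h3
  rw [← map_neg_eq_map, neg_sub]
  refine h1.trans (Real.exp_le_exp.2 (neg_le_neg (mul_le_mul_of_nonneg_right ?_ h3)))
  rw [div_lt_iff₀ (by positivity)] at hn
  have h9 : 0 ≤ c / 2 := by positivity
  linarith

/-- roots of polynomials near a constant separable split polynomial -/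
theorem apC_poly {q : ℕ} (hq : 0 < q) (E : Polynomial L) (hEdeg : E.natDegree = q)
    (hsep : E.Separable) (hspl : E.Splits) (β : ℕ → α → L)
    (hβ : ∀ j ≤ q, ApC 𝓕 H Γ v (β j))
    (hβs : ∀ j ≤ q, Sm 𝓕 H v (fun t => β j t - E.coeff j)) (Y : α → L)
    (heq : ∀ᶠ t in (𝓕 : Filter α), ∑ j ∈ Finset.range (q + 1), β j t * Y t ^ j = 0) :
    (∀ᶠ t in (𝓕 : Filter α), β q t ≠ 0) ∧ ApC 𝓕 H Γ v Y := by
  classical
  have hl0 : E.coeff q ≠ 0 := by
    intro h
    have h1 : E.leadingCoeff = 0 := by rw [Polynomial.leadingCoeff, hEdeg, h]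
    rw [Polynomial.leadingCoeff_eq_zero] at h1
    rw [h1, Polynomial.natDegree_zero] at hEdeg
    omega
  obtain ⟨E', hE'⟩ : ∃ E' : Polynomial L, E' = Polynomial.C (E.coeff q)⁻¹ * E := ⟨_, rfl⟩
  have hE'c : ∀ j, E'.coeff j = (E.coeff q)⁻¹ * E.coeff j :=
    fun j => by rw [hE', Polynomial.coeff_C_mul]
  have hE'deg : E'.natDegree = q := by
    rw [hE', Polynomial.natDegree_C_mul (inv_ne_zero hl0), hEdeg]
  have hE'mon : E'.Monic := by
    rw [Polynomial.Monic, Polynomial.leadingCoeff, hE'deg, hE'c, inv_mul_cancel₀ hl0]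
  have hE'sep : E'.Separable := by
    rw [hE']
    refine Polynomial.Separable.unit_mul ?_ hsep
    exact Polynomial.isUnit_C.2 (isUnit_iff_ne_zero.2 (inv_ne_zero hl0))
  have hE'spl : E'.Splits := by
    rw [hE']
    exact (Polynomial.Splits.C _).mul hspl
  obtain ⟨r, hr1, hr2, hr3⟩ := EC.enum_roots E' hE'mon hE'deg hE'sep hE'spl
  have hβi : ApC 𝓕 H Γ v (fun t => (β q t)⁻¹) :=
    ApC.inv hH (hβ q le_rfl) (E.coeff q) hl0 (hβs q le_rfl)
  have hcg := Cg.inv hH (slow_const hH (E.coeff q)) (Eventually.of_forall fun _ => hl0)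
    (hβs q le_rfl)
  refine ⟨hcg.1, ?_⟩
  refine apC_root hH hq E' hE'mon hE'deg r hr2 (fun i j hij h => hij (hr1 h)) hr3
    (fun j t => (β q t)⁻¹ * β j t) (fun j hj => ApC.mul hH hβi (hβ j hj.le)) (fun j hj => ?_) Y ?_
  · have h1 : Cg 𝓕 H v (β j) (fun _ => E.coeff j) := ⟨hβs j hj.le, Bd.const hH v _⟩
    have h2 := (hcg.2.mul hH h1).1
    rw [hE'c]
    exact h2
  · filter_upwards [heq, hcg.1] with t h1 h2
    rw [Finset.sum_range_succ] at h1
    have h3 : Y t ^ q = (β q t)⁻¹ * (β q t * Y t ^ q) := by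
      rw [← mul_assoc, inv_mul_cancel₀ h2, one_mul]
    have h4 : ∑ j ∈ Finset.range q, (β q t)⁻¹ * β j t * Y t ^ j =
        (β q t)⁻¹ * ∑ j ∈ Finset.range q, β j t * Y t ^ j := by
      rw [Finset.mul_sum]
      exact Finset.sum_congr rfl fun j _ => by ring
    rw [h4, h3, ← mul_add, add_comm, h1, mul_zero]

end Pool.Agent.Run7.h28.ST
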