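import Mathlib
import Pool.Agent.Run7.h28.ST.Cst

/-!
# Project ST (helper28): sums of units with slow coefficients which are approximated by sums of units
with constant coefficients
-/

set_option autoImplicit false
set_option linter.unusedSectionVars false

open Filter Topology

namespace Pool.Agent.Run7.h28.ST

open NumberField IsDedekindDomain Height Module
open Pool.Agent.W180.OP (Pl av wt nrm le_nrm nrm_pos wt_nonneg exists_nrm nrm_nonneg)
open Pool.Agent.N750
open Pool.Agent.Run7.h28.HK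
open Pool.Agent.Run7.h28.BV

/-- the abstract form -/
theorem desc_abs {G : Type} [Field G] {F₀ F : Subfield G} (hF : F₀ ≤ F) {P P' : G → Prop}
    {D : G → G → Prop} (hP : PS F P) (hD : DR F P D) (hPP : ∀ g, P' g → P g) {f R : G} {n : ℕ}
    (w : Fin n → G) (s : Fin n → F) (hw : ∀ i, P (w i)) (hf : f = ∑ i, (s i : G) * w i)
    (hR : Sp F₀ P' R) (hnD : ∀ i, ¬ D (w i) (f - R)) : Sp F₀ P' f := by
  classical
  obtain ⟨m, g, c, hg, hRs⟩ := hR
  obtain ⟨a, ha⟩ : ∃ a : Fin n ⊕ Fin m → F, a = Sum.elim s (fun j => -⟨c j, hF (c j).2⟩) := ⟨_, rfl⟩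
  obtain ⟨U, hU⟩ : ∃ U : Fin n ⊕ Fin m → G, U = Sum.elim w g := ⟨_, rfl⟩
  have hUP : ∀ i, P (U i) := by
    intro i
    rw [hU]
    rcases i with i | i
    · exact hw i
    · exact hPP _ (hg i)
  obtain ⟨W, hW⟩ : ∃ W : Fin n ⊕ Fin m → ℕ,
      W = fun k => if ∃ i, U k / w i ∈ F then 1 else 0 := ⟨_, rfl⟩
  have hWeq : ∀ k l, U k / U l ∈ F → W k = W l := by
    intro k l hkl
    have h1 : (∃ i, U k / w i ∈ F) ↔ ∃ i, U l / w i ∈ F := by
      constructor
      · rintro ⟨i, hi⟩
        refine ⟨i, ?_⟩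
        have h2 : U l / w i = (U k / U l)⁻¹ * (U k / w i) := by
          have := hP.ne (hUP k)
          have := hP.ne (hUP l)
          field_simp
        rw [h2]
        exact F.mul_mem (F.inv_mem hkl) hi
      · rintro ⟨i, hi⟩
        refine ⟨i, ?_⟩
        have h2 : U k / w i = (U k / U l) * (U l / w i) := by
          have := hP.ne (hUP l)
          field_simp
        rw [h2]
        exact F.mul_mem hkl hi
    rw [hW]
    simp only [h1]
  -- the difference
  have hdiff : ∑ k, (a k : G) * U k = f - R := by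
    rw [Fintype.sum_sum_type, hf, hRs, ha, hU, sub_eq_add_neg, ← Finset.sum_neg_distrib]
    congr 1
    refine Finset.sum_congr rfl fun j _ => ?_
    simp only [Sum.elim_inr, NegMemClass.coe_neg, neg_mul]
  -- the part in the classes of the `w i` vanishes
  have hzero : ∑ k with W k = 1, (a k : G) * U k = 0 := by
    obtain ⟨N, e, b, he, hb1, hb2⟩ := nc_core F Finset.univ a U W (fun k _ => hP.ne (hUP k))
      (fun k _ l _ h => hWeq k l h)
    rw [← hb2 1]
    refine Finset.sum_eq_zero fun i hi => ?_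
    rw [Finset.mem_filter] at hi
    by_cases hbi : b i = 0
    · rw [hbi, ZeroMemClass.coe_zero, zero_mul]
    exfalso
    have h1 : ∃ i', U (e i) / w i' ∈ F := by
      by_contra h
      have h2 := hi.2
      rw [hW] at h2
      simp only [if_neg h] at h2
      exact zero_ne_one h2
    obtain ⟨i', hi'⟩ := h1
    have h2 := hD.term (fun j => U (e j)) (fun j => hUP _) he b i
    rw [hb1, hdiff] at h2
    refine hnD i' ?_
    have h3 : w i' = ((U (e i) / w i')⁻¹ * (b i : G)⁻¹) * ((b i : G) * U (e i)) := by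
      have h4 : (b i : G) ≠ 0 := fun h => hbi (Subtype.ext h)
      have := hP.ne (hUP (e i))
      have := hP.ne (hw i')
      field_simp
    rw [h3]
    exact hD.smul (F.mul_mem (F.inv_mem hi') (F.inv_mem (b i).2)) h2
  -- conclusion
  have hinl : ∀ i, W (Sum.inl i) = 1 := by
    intro i
    rw [hW]
    have h1 : ∃ i', U (Sum.inl i) / w i' ∈ F := by
      refine ⟨i, ?_⟩
      rw [hU]
      show w i / w i ∈ F
      rw [div_self (hP.ne (hw i))]
      exact F.one_mem
    simp only [if_pos h1]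
  have hfin : f = ∑ j : Fin m with W (Sum.inr j) = 1, (c j : G) * g j := by
    have h1 : ∑ k with W k = 1, (a k : G) * U k = f - ∑ j : Fin m with W (Sum.inr j) = 1,
        (c j : G) * g j := by
      rw [Finset.sum_filter, Fintype.sum_sum_type, hf, sub_eq_add_neg, Finset.sum_filter,
        ← Finset.sum_neg_distrib]
      congr 1
      · refine Finset.sum_congr rfl fun i _ => ?_
        rw [if_pos (hinl i), ha, hU]
        rfl
      · refine Finset.sum_congr rfl fun j _ => ?_
        split_ifs with h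
        · rw [ha, hU]
          simp only [Sum.elim_inr, NegMemClass.coe_neg, neg_mul]
        · rw [neg_zero]
    rw [hzero] at h1
    exact (sub_eq_zero.1 h1.symm)
  rw [hfin]
  exact Sp.sum _ _ fun j _ => Sp.smul (c j).2 (Sp.of (hg j))

variable {L : Type} [Field L] [NumberField L] {α : Type} {𝓕 : Ultrafilter α} {H : α → ℝ}

/-- **Descent to constant coefficients.** -/
theorem desc (hH : Tendsto H 𝓕 atTop) {Γ : Subgroup Lˣ} (S : Finset (Pl L))
    (hS : ∀ w : InfinitePlace L, (Sum.inl w : Pl L) ∈ S) (hΓS : ∀ g ∈ Γ, IsU S (g : L)) (v : Pl L)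
    (hv : v ∈ S) {f : α → L} (hf : Sp (slowF 𝓕 L H hH) (PU 𝓕 H S) (mk 𝓕 f))
    (hap : ApC 𝓕 H Γ v f) : Sp (cF 𝓕 L) (PG 𝓕 H Γ) (mk 𝓕 f) := by
  obtain ⟨n, w, s, hw, hs⟩ := hf
  choose a ha1 ha2 ha3 using hw
  choose C hC using ha3
  have hwt : 0 < wt v := HK.wt_pos' v
  obtain ⟨κ, hκ⟩ : ∃ κ : ℝ, κ = (∑ i, |C i|) / wt v + 1 := ⟨_, rfl⟩
  obtain ⟨R, hR, hfR⟩ := hap κ
  refine desc_abs (cF_le hH) (ps hH S hS) (dr hH S hS v hv) (fun g hg => PG.toPU hΓS g hg) w s
    (fun i => ⟨a i, ha1 i, ha2 i, C i, hC i⟩) hs hR fun i hD => ?_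
  have h1 : mk 𝓕 f - mk 𝓕 R = mk 𝓕 (fun t => f t - R t) := by
    rw [← map_sub]
    rfl
  rw [← ha1 i, h1, dm_mk] at hD
  obtain ⟨t, h2, h3, h4, h5⟩ := ((hD (1 / 2) (by norm_num)).and (hfR.and ((hC i).and
    (hH_le hH 1)))).exists
  have h6 : av v (a i t) ≤ Real.exp ((1 / 2 - κ) * H t) := by
    refine h2.trans ?_
    calc Real.exp (1 / 2 * H t) * av v (f t - R t) ≤
          Real.exp (1 / 2 * H t) * Real.exp (-(κ * H t)) :=
          mul_le_mul_of_nonneg_left h3 (Real.exp_pos _).le
      _ = Real.exp ((1 / 2 - κ) * H t) := by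
          rw [← Real.exp_add]
          congr 1
          ring
  have ha0 : 0 < av v (a i t) := (av v).pos_iff.2 (ha2 i t).1
  have h7 : Real.log (av v (a i t)) ≤ (1 / 2 - κ) * H t := by
    have := Real.log_le_log ha0 h6
    rwa [Real.log_exp] at this
  have h8 := local_abs (a i t) v
  rw [abs_le] at h8
  have h9 : C i ≤ ∑ i, |C i| := (le_abs_self _).trans
    (Finset.single_le_sum (f := fun i => |C i|) (fun _ _ => abs_nonneg _) (Finset.mem_univ i))
  have h10 : wt v * Real.log (av v (a i t)) ≤ wt v * ((1 / 2 - κ) * H t) :=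
    mul_le_mul_of_nonneg_left h7 hwt.le
  have h11 : wt v * ((1 / 2 - κ) * H t) = -(∑ i, |C i|) * H t - wt v / 2 * H t := by
    rw [hκ]
    field_simp
    ring
  have h12 : C i * H t ≤ (∑ i, |C i|) * H t := mul_le_mul_of_nonneg_right h9 (by linarith)
  have h13 : 0 < wt v / 2 * H t := by
    have : 0 < H t := by linarith
    positivity
  linarith [h8.1]

end Pool.Agent.Run7.h28.ST
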