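import Mathlib
import Pool.Agent.Run7.h28.ST.Cst

/-!
# Project ST (helper28): the theorem on unit equations, along an ultrafilter
-/

set_option autoImplicit false
set_option linter.unusedSectionVars false

open Filter Topology

namespace Pool.Agent.Run7.h28.ST

open NumberField IsDedekindDomain Height Module
open Pool.Agent.W180.OP (Pl av wt nrm le_nrm nrm_pos wt_nonneg exists_nrm nrm_nonneg)
open Pool.Agent.N750
open Pool.Agent.Run7.h28.HK
open Pool.Agent.Run7.h28.BV

variable {K : Type} [Field K] [NumberField K] {α : Type} {𝓕 : Ultrafilter α}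

/-- functions of bounded height are constant along the ultrafilter -/
lemma const_of_bdd {f : α → K} {B : ℝ} (h : ∀ᶠ t in (𝓕 : Filter α), logHeight₁ (f t) ≤ B) :
    ∃ c : K, ∀ᶠ t in (𝓕 : Filter α), f t = c := by
  have hfin : {x : K | logHeight₁ x ≤ B}.Finite := Northcott.finite_le B
  have h1 : ∀ᶠ t in (𝓕 : Filter α), ∃ c ∈ {x : K | logHeight₁ x ≤ B}, f t = c := by
    filter_upwards [h] with t ht
    exact ⟨f t, ht, rfl⟩
  obtain ⟨c, -, hc⟩ := (Ultrafilter.eventually_exists_mem_iff hfin).1 h1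
  exact ⟨c, hc⟩

lemma tendsto_of_nonconst {f : α → K} (h : ¬ ∃ c : K, ∀ᶠ t in (𝓕 : Filter α), f t = c) :
    Tendsto (fun t => logHeight₁ (f t)) 𝓕 atTop := by
  rw [tendsto_atTop]
  intro B
  by_contra hB
  rw [← Ultrafilter.eventually_not] at hB
  exact h (const_of_bdd (B := B) (hB.mono fun t ht => (not_le.1 ht).le))

/-- **The theorem on unit equations.** -/
theorem const_indep (S : Finset (Pl K)) (hS : ∀ w : InfinitePlace K, (Sum.inl w : Pl K) ∈ S)
    {ι : Type} (n : ℕ) : ∀ (A : Finset ι), A.card ≤ n → ∀ (u : ι → α → K),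
      (∀ i ∈ A, ∀ t, IsU S (u i t)) →
      (∀ i ∈ A, ∀ j ∈ A, i ≠ j → ¬ ∃ c : K, ∀ᶠ t in (𝓕 : Filter α), u i t / u j t = c) →
      ∀ c : ι → K, (∀ᶠ t in (𝓕 : Filter α), ∑ i ∈ A, c i * u i t = 0) → ∀ i ∈ A, c i = 0 := by
  classical
  induction n with
  | zero =>
    intro A hA u _ _ c _ i hi
    rw [Finset.card_eq_zero.1 (Nat.le_zero.1 hA)] at hi
    exact absurd hi (Finset.notMem_empty i)
  | succ n ih =>
    intro A hA u hu hne c h0 i0 hi0
    rcases Nat.lt_or_ge A.card 2 with hcard | hcard
    · have h1 : A = {i0} := by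
        refine Finset.eq_singleton_iff_unique_mem.2 ⟨hi0, fun j hj => ?_⟩
        exact Finset.card_le_one.1 (by omega) j hj i0 hi0
      obtain ⟨t, ht⟩ := h0.exists
      rw [h1, Finset.sum_singleton] at ht
      exact (mul_eq_zero.1 ht).resolve_right (hu i0 hi0 t).1
    -- the ratios
    obtain ⟨m, hm⟩ : ∃ m, m ∈ A := ⟨i0, hi0⟩
    obtain ⟨r, hr⟩ : ∃ r : ι → α → K, r = fun i t => u i t / u m t := ⟨_, rfl⟩
    have hrU : ∀ i ∈ A, ∀ t, IsU S (r i t) := by
      intro i hi t
      rw [hr]
      simp only [div_eq_mul_inv]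
      exact (hu i hi t).mul (hu m hm t).inv
    have hrr : ∀ i ∈ A, ∀ j ∈ A, ∀ t, r i t / r j t = u i t / u j t := by
      intro i _ j hj t
      rw [hr]
      have h1 := (hu m hm t).1
      have h2 := (hu j hj t).1
      simp only
      field_simp
    obtain ⟨H, hHdef⟩ : ∃ H : α → ℝ, H = fun t => ∑ i ∈ A, logHeight₁ (r i t) := ⟨_, rfl⟩
    have hHle : ∀ i ∈ A, ∀ t, logHeight₁ (r i t) ≤ H t := by
      intro i hi t
      rw [hHdef]
      exact Finset.single_le_sum (f := fun i => logHeight₁ (r i t))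
        (fun _ _ => zero_le_logHeight₁ _) hi
    obtain ⟨j0, hj0, hj0m⟩ : ∃ j ∈ A, j ≠ m := by
      by_contra hno
      push Not at hno
      have : A.card ≤ 1 := Finset.card_le_one.2 fun a ha b hb => (hno a ha).trans (hno b hb).symm
      omega
    have hH : Tendsto H 𝓕 atTop := by
      refine tendsto_atTop_mono (fun t => hHle j0 hj0 t) (tendsto_of_nonconst ?_)
      rintro ⟨c', hc'⟩
      refine hne j0 hj0 m hm hj0m ⟨c', ?_⟩
      rw [hr] at hc'
      exact hc'
    -- the classes
    have hex : ∃ i ∈ A, ¬ Slow 𝓕 H (r i) := by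
      by_contra hno
      push Not at hno
      have hpos : (0 : ℝ) < A.card := by exact_mod_cast (by omega : 0 < A.card)
      have hall : ∀ᶠ t in (𝓕 : Filter α), ∀ i ∈ A, logHeight₁ (r i t) ≤ 1 / (2 * A.card) * H t := by
        rw [Filter.eventually_all_finset]
        intro i hi
        exact hno i hi _ (by positivity)
      obtain ⟨t, h1, h2⟩ := (hall.and (hH_le hH 1)).exists
      have h3 : H t ≤ ∑ i ∈ A, 1 / (2 * (A.card : ℝ)) * H t := by
        conv_lhs => rw [hHdef]
        exact Finset.sum_le_sum h1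
      rw [Finset.sum_const, nsmul_eq_mul] at h3
      have h4 : (A.card : ℝ) * (1 / (2 * (A.card : ℝ)) * H t) = H t / 2 := by
        field_simp
      rw [h4] at h3
      linarith
    obtain ⟨W, hW⟩ : ∃ W : ι → ℕ, W = fun i => if Slow 𝓕 H (r i) then 1 else 0 := ⟨_, rfl⟩
    have hWm : W m = 1 := by
      rw [hW]
      have h1 : Slow 𝓕 H (r m) := by
        refine (slow_const hH (1 : K)).congr (Eventually.of_forall fun t => ?_)
        rw [hr]
        simp only
        rw [div_self (hu m hm t).1]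
      simp only [if_pos h1]
    have hWeq : ∀ i ∈ A, ∀ j ∈ A, mk 𝓕 (r i) / mk 𝓕 (r j) ∈ slowF 𝓕 K H hH → W i = W j := by
      intro i hi j hj h
      rw [mk_div, mk_slow] at h
      have h1 : Slow 𝓕 H (r i) ↔ Slow 𝓕 H (r j) := by
        constructor
        · intro h2
          refine (h2.mul h.inv).congr (Eventually.of_forall fun t => ?_)
          have h3 := (hrU i hi t).1
          have h4 := (hrU j hj t).1
          field_simp
        · intro h2
          refine (h.mul h2).congr (Eventually.of_forall fun t => ?_)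
          have h4 := (hrU j hj t).1
          field_simp
      rw [hW]
      simp only [h1]
    have hsum0 : ∑ i ∈ A, ((⟨mk 𝓕 (fun _ => c i), mk_slow.2 (slow_const hH _)⟩ :
        slowF 𝓕 K H hH) : Gm 𝓕 K) * mk 𝓕 (r i) = 0 := by
      show ∑ i ∈ A, mk 𝓕 (fun _ => c i) * mk 𝓕 (r i) = 0
      rw [← mk_finsum, mk_eq_zero]
      filter_upwards [h0] with t ht
      rw [hr]
      simp only
      have h1 : ∑ i ∈ A, c i * (u i t / u m t) = (∑ i ∈ A, c i * u i t) / u m t := by
        rw [Finset.sum_div]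
        exact Finset.sum_congr rfl fun i _ => by ring
      rw [h1, ht, zero_div]
    have hPU : ∀ i ∈ A, PU 𝓕 H S (mk 𝓕 (r i)) := fun i hi => by
      refine ⟨fun t => if i ∈ A then r i t else 1, ?_, fun t => ?_, 1, ?_⟩
      · simp only [if_pos hi]
      · simp only [if_pos hi]
        exact hrU i hi t
      · simp only [if_pos hi]
        exact Eventually.of_forall fun t => by rw [one_mul]; exact hHle i hi t
    have hpart : ∀ k, ∀ᶠ t in (𝓕 : Filter α), ∑ i ∈ A with W i = k, c i * r i t = 0 := by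
      intro k
      have h1 := (ps hH S hS).cs A (fun i => ⟨mk 𝓕 (fun _ => c i), mk_slow.2 (slow_const hH _)⟩)
        (fun i => mk 𝓕 (r i)) W hPU hWeq hsum0 k
      have h2 := mk_finsum (𝓕 := 𝓕) (A.filter (fun i => W i = k)) (fun i _ => c i) r
      rw [← mk_eq_zero]
      exact h2.trans h1
    have hfin : ∀ k, (A.filter (fun i => W i = k)).card ≤ n → ∀ i ∈ A.filter (fun i => W i = k),
        c i = 0 := by
      intro k hk
      refine ih _ hk r (fun i hi t => hrU i (Finset.mem_filter.1 hi).1 t) ?_ c (hpart k)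
      intro i hi j hj hij
      have hi' := (Finset.mem_filter.1 hi).1
      have hj' := (Finset.mem_filter.1 hj).1
      rintro ⟨c', hc'⟩
      refine hne i hi' j hj' hij ⟨c', ?_⟩
      filter_upwards [hc'] with t ht
      rw [← hrr i hi' j hj' t, ht]
    have hcard1 : (A.filter (fun i => W i = 1)).card ≤ n := by
      obtain ⟨i, hi, hni⟩ := hex
      have h1 : (A.filter (fun i => W i = 1)) ⊂ A := by
        refine Finset.filter_ssubset.2 ⟨i, hi, ?_⟩
        rw [hW]
        simp only [if_neg hni]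
        exact zero_ne_one
      have := Finset.card_lt_card h1
      omega
    have hcard0 : (A.filter (fun i => W i = 0)).card ≤ n := by
      have h1 : (A.filter (fun i => W i = 0)) ⊂ A := by
        refine Finset.filter_ssubset.2 ⟨m, hm, ?_⟩
        rw [hWm]
        exact one_ne_zero
      have := Finset.card_lt_card h1
      omega
    by_cases hs : Slow 𝓕 H (r i0)
    · refine hfin 1 hcard1 i0 (Finset.mem_filter.2 ⟨hi0, ?_⟩)
      rw [hW]
      simp only [if_pos hs]
    · refine hfin 0 hcard0 i0 (Finset.mem_filter.2 ⟨hi0, ?_⟩)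
      rw [hW]
      simp only [if_neg hs]

end Pool.Agent.Run7.h28.ST
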