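import Mathlib
import Pool.Agent.Run7.h28.ST.Ind

/-!
# Project ST (helper28): parametrisation by Laurent polynomials in several variables
-/

set_option autoImplicit false
set_option linter.unusedSectionVars false

open Filter Topology

namespace Pool.Agent.Run7.h28.ST

open NumberField IsDedekindDomain Height Module
open Pool.Agent.W180.OP (Pl av wt nrm le_nrm nrm_pos wt_nonneg exists_nrm nrm_nonneg)
open Pool.Agent.N750
open Pool.Agent.Run7.h28.HK
open Pool.Agent.Run7.h28.BV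

/-- Laurent polynomials in `r` variables -/
abbrev Lau (K : Type) [CommSemiring K] (r : ℕ) : Type := AddMonoidAlgebra K (Fin r → ℤ)

/-- the values of the monomials -/
def mon {K : Type} [Field K] {r : ℕ} (w : Fin r → Kˣ) : Multiplicative (Fin r → ℤ) →* K where
  toFun m := ((∏ l, w l ^ (Multiplicative.toAdd m l) : Kˣ) : K)
  map_one' := by simp
  map_mul' m m' := by
    rw [← Units.val_mul, ← Finset.prod_mul_distrib]
    congr 1
    refine Finset.prod_congr rfl fun l _ => ?_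
    rw [← zpow_add]
    rfl

/-- the value of a Laurent polynomial at a point of the torus -/
noncomputable def evU {K : Type} [Field K] {r : ℕ} (w : Fin r → Kˣ) : Lau K r →ₐ[K] K :=
  AddMonoidAlgebra.lift K K (Fin r → ℤ) (mon w)

lemma evU_single {K : Type} [Field K] {r : ℕ} (w : Fin r → Kˣ) (m : Fin r → ℤ) (c : K) :
    evU w (AddMonoidAlgebra.single m c) = c * ((∏ l, w l ^ m l : Kˣ) : K) := by
  rw [evU, AddMonoidAlgebra.lift_single, smul_eq_mul]
  rfl

lemma evU_eq {K : Type} [Field K] {r : ℕ} (w : Fin r → Kˣ) (P : Lau K r) :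
    evU w P = ∑ m ∈ P.coeff.support, P.coeff m * ((∏ l, w l ^ m l : Kˣ) : K) := by
  rw [evU, AddMonoidAlgebra.lift_apply']
  rfl

variable {K : Type} [Field K] [NumberField K] {α : Type} {𝓕 : Ultrafilter α}

/-- independence modulo constants -/
def Indep (𝓕 : Ultrafilter α) {r : ℕ} (w : Fin r → α → Kˣ) : Prop :=
  ∀ e : Fin r → ℤ, (∃ c : K, ∀ᶠ t in (𝓕 : Filter α), ((∏ l, w l t ^ e l : Kˣ) : K) = c) → e = 0

/-- units which are independent modulo constants are algebraically independent -/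
theorem alg_indep (S : Finset (Pl K)) (hS : ∀ w : InfinitePlace K, (Sum.inl w : Pl K) ∈ S)
    {Γ : Subgroup Kˣ} (hΓS : ∀ g ∈ Γ, IsU S (g : K)) {r : ℕ} (w : Fin r → α → Kˣ)
    (hw : ∀ l t, w l t ∈ Γ) (hind : Indep 𝓕 w) (P : Lau K r)
    (h0 : ∀ᶠ t in (𝓕 : Filter α), evU (fun l => w l t) P = 0) : P = 0 := by
  classical
  have h1 := const_indep (𝓕 := 𝓕) S hS P.coeff.support.card P.coeff.support le_rfl
    (fun m t => ((∏ l, w l t ^ m l : Kˣ) : K))
    (fun m _ t => hΓS _ (Γ.prod_mem fun l _ => Γ.zpow_mem (hw l t) _))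
    (fun m _ m' _ hmm => by
      rintro ⟨c, hc⟩
      apply hmm
      have h2 := hind (m - m') ⟨c, by
        filter_upwards [hc] with t ht
        rw [← ht, ← Units.val_div_eq_div_val, ← Finset.prod_div_distrib]
        congr 1
        refine Finset.prod_congr rfl fun l _ => ?_
        rw [Pi.sub_apply, zpow_sub, div_eq_mul_inv]⟩
      exact sub_eq_zero.1 h2) (fun m => P.coeff m) (by
      filter_upwards [h0] with t ht
      rw [evU_eq] at ht
      exact ht)
  by_contra hP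
  obtain ⟨m, hm⟩ : P.coeff.support.Nonempty := by
    rw [Finsupp.support_nonempty_iff]
    intro h
    apply hP
    rw [← AddMonoidAlgebra.coeff_inj, h]
    rfl
  exact (Finsupp.mem_support_iff.1 hm) (h1 m hm)

/-- the subgroup of exponents of constant monomials -/
def cstE (𝓕 : Ultrafilter α) {N : ℕ} (g : Fin N → α → Kˣ) : Submodule ℤ (Fin N → ℤ) where
  carrier := {e | ∃ c : K, ∀ᶠ t in (𝓕 : Filter α), ((∏ j, g j t ^ e j : Kˣ) : K) = c}
  zero_mem' := ⟨1, Eventually.of_forall fun t => by simp⟩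
  add_mem' := by
    rintro e e' ⟨c, hc⟩ ⟨c', hc'⟩
    refine ⟨c * c', ?_⟩
    filter_upwards [hc, hc'] with t h1 h2
    rw [← h1, ← h2, ← Units.val_mul, ← Finset.prod_mul_distrib]
    congr 1
    refine Finset.prod_congr rfl fun j _ => ?_
    rw [← zpow_add]
    rfl
  smul_mem' := by
    rintro k e ⟨c, hc⟩
    refine ⟨c ^ k, ?_⟩
    filter_upwards [hc] with t h1
    rw [← h1, ← Units.val_zpow_eq_zpow_val, ← Finset.prod_zpow]
    congr 1
    refine Finset.prod_congr rfl fun j _ => ?_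
    rw [← zpow_mul]
    congr 1
    rw [Pi.smul_apply, smul_eq_mul, mul_comm]

lemma mem_cstE {N : ℕ} (g : Fin N → α → Kˣ) {e : Fin N → ℤ} :
    e ∈ cstE 𝓕 g ↔ ∃ c : K, ∀ᶠ t in (𝓕 : Filter α), ((∏ j, g j t ^ e j : Kˣ) : K) = c := Iff.rfl

lemma tf_cstE {N : ℕ} (g : Fin N → α → Kˣ) {k : ℤ} (hk : k ≠ 0) {e : Fin N → ℤ}
    (h : k • e ∈ cstE 𝓕 g) : e ∈ cstE 𝓕 g := by
  rw [mem_cstE] at h ⊢
  obtain ⟨c, hc⟩ := h
  refine const_of_bdd (B := logHeight₁ c) ?_
  filter_upwards [hc] with t ht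
  have h1 : ((∏ j, g j t ^ (k • e) j : Kˣ) : K) = ((∏ j, g j t ^ e j : Kˣ) : K) ^ k := by
    rw [← Units.val_zpow_eq_zpow_val, ← Finset.prod_zpow]
    congr 1
    refine Finset.prod_congr rfl fun j _ => ?_
    rw [← zpow_mul]
    congr 1
    rw [Pi.smul_apply, smul_eq_mul, mul_comm]
  rw [h1] at ht
  rw [← ht, logHeight₁_zpow]
  have h2 : (1 : ℝ) ≤ (k.natAbs : ℝ) := by
    exact_mod_cast Nat.one_le_iff_ne_zero.2 (Int.natAbs_ne_zero.2 hk)
  have h3 := zero_le_logHeight₁ (((∏ j, g j t ^ e j : Kˣ) : K))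
  nlinarith

/-- **A finite set of functions with values in a group is contained, up to constants, in a group
generated by independent ones.** -/
theorem exists_basis {Γ : Subgroup Kˣ} {N : ℕ} (g : Fin N → α → Kˣ) (hg : ∀ j t, g j t ∈ Γ) :
    ∃ (r : ℕ) (w : Fin r → α → Kˣ) (m : Fin N → Fin r → ℤ) (κ : Fin N → K),
      (∀ l t, w l t ∈ Γ) ∧ Indep 𝓕 w ∧
      ∀ j, ∀ᶠ t in (𝓕 : Filter α), (g j t : K) = κ j * ((∏ l, w l t ^ m j l : Kˣ) : K) := by
  classical
  have htf : Module.IsTorsionFree ℤ ((Fin N → ℤ) ⧸ cstE 𝓕 g) := by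
    rw [Module.isTorsionFree_iff_smul_eq_zero]
    intro k x hx
    obtain ⟨e, rfl⟩ := Submodule.Quotient.mk_surjective _ x
    by_cases hk : k = 0
    · exact Or.inl hk
    · right
      rw [← Submodule.Quotient.mk_smul, Submodule.Quotient.mk_eq_zero] at hx
      rw [Submodule.Quotient.mk_eq_zero]
      exact tf_cstE g hk hx
  let b := Module.finBasis ℤ ((Fin N → ℤ) ⧸ cstE 𝓕 g)
  choose B hB using fun l => Submodule.Quotient.mk_surjective (cstE 𝓕 g) (b l)
  have hmulti : ∀ (e : Fin N → ℤ) (d : Fin (Module.finrank ℤ ((Fin N → ℤ) ⧸ cstE 𝓕 g)) → ℤ) (t : α),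
      ∏ j, g j t ^ (e - ∑ l, d l • B l) j =
        (∏ j, g j t ^ e j) * (∏ l, (∏ j, g j t ^ B l j) ^ d l)⁻¹ := by
    intro e d t
    have h1 : ∏ l, (∏ j, g j t ^ B l j) ^ d l = ∏ j, g j t ^ (∑ l, d l * B l j) := by
      simp_rw [← Finset.prod_zpow, ← zpow_mul]
      rw [Finset.prod_comm]
      refine Finset.prod_congr rfl fun j _ => ?_
      have h2 : ∀ (A : Finset (Fin (Module.finrank ℤ ((Fin N → ℤ) ⧸ cstE 𝓕 g)))),
          ∏ l ∈ A, g j t ^ (B l j * d l) = g j t ^ (∑ l ∈ A, d l * B l j) := by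
        intro A
        induction A using Finset.induction_on with
        | empty => simp
        | insert a A ha ih =>
          rw [Finset.prod_insert ha, Finset.sum_insert ha, zpow_add, ih, mul_comm (B a j)]
      exact h2 _
    rw [h1, ← Finset.prod_inv_distrib, ← Finset.prod_mul_distrib]
    refine Finset.prod_congr rfl fun j _ => ?_
    rw [← zpow_neg, ← zpow_add]
    congr 1
    rw [Pi.sub_apply, Finset.sum_apply, sub_eq_add_neg]
    congr 2
  obtain ⟨E, hE⟩ : ∃ E : Fin N → Fin N → ℤ, E = fun j => Pi.single j 1 := ⟨_, rfl⟩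
  have hEj : ∀ j t, ∏ i, g i t ^ E j i = g j t := by
    intro j t
    rw [hE, Finset.prod_eq_single j]
    · simp
    · intro i _ hij
      simp [Pi.single_eq_of_ne hij]
    · intro h
      exact absurd (Finset.mem_univ j) h
  have hmem : ∀ j, E j - ∑ l, b.repr (Submodule.Quotient.mk (E j)) l • B l ∈ cstE 𝓕 g := by
    intro j
    rw [← Submodule.Quotient.mk_eq_zero, Submodule.Quotient.mk_sub, sub_eq_zero]
    have h1 : (Submodule.Quotient.mk (∑ l, b.repr (Submodule.Quotient.mk (E j)) l • B l) :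
        (Fin N → ℤ) ⧸ cstE 𝓕 g) = ∑ l, b.repr (Submodule.Quotient.mk (E j)) l • b l := by
      rw [← Submodule.mkQ_apply, map_sum]
      refine Finset.sum_congr rfl fun l _ => ?_
      rw [map_smul, Submodule.mkQ_apply, hB]
    rw [h1, b.sum_repr]
  choose κ hκ using fun j => (mem_cstE g).1 (hmem j)
  refine ⟨_, fun l t => ∏ j, g j t ^ B l j, fun j l => b.repr (Submodule.Quotient.mk (E j)) l, κ,
    fun l t => Γ.prod_mem fun j _ => Γ.zpow_mem (hg j t) _, ?_, fun j => ?_⟩
  · rintro e ⟨c, hc⟩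
    have h1 : -(∑ l, e l • B l) ∈ cstE 𝓕 g := by
      refine (mem_cstE g).2 ⟨c⁻¹, ?_⟩
      filter_upwards [hc] with t ht
      have h2 := hmulti 0 e t
      rw [zero_sub] at h2
      rw [h2]
      simp only [Pi.zero_apply, zpow_zero, Finset.prod_const_one, one_mul]
      rw [Units.val_inv_eq_inv_val, ht]
    rw [Submodule.neg_mem_iff, ← Submodule.Quotient.mk_eq_zero] at h1
    have h3 : ∑ l, e l • b l = 0 := by
      rw [← h1, ← Submodule.mkQ_apply, map_sum]
      refine Finset.sum_congr rfl fun l _ => ?_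
      rw [map_smul, Submodule.mkQ_apply, hB]
    have h4 := Fintype.linearIndependent_iff.1 b.linearIndependent e h3
    funext l
    exact h4 l
  · filter_upwards [hκ j] with t ht
    rw [hmulti, hEj] at ht
    rw [← ht, ← Units.val_mul, inv_mul_cancel_right]

/-- sums of units with constant coefficients are the values of Laurent polynomials -/
theorem param_fam {H : α → ℝ} {Γ : Subgroup Kˣ} {σ : Type} [Fintype σ] (z : σ → α → K)
    (hz : ∀ i, Sp (cF 𝓕 K) (PG 𝓕 H Γ) (mk 𝓕 (z i))) :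
    ∃ (r : ℕ) (w : Fin r → α → Kˣ) (P : σ → Lau K r), (∀ l t, w l t ∈ Γ) ∧ Indep 𝓕 w ∧
      ∀ i, ∀ᶠ t in (𝓕 : Filter α), z i t = evU (fun l => w l t) (P i) := by
  classical
  choose n u c hu hs using hz
  choose a ha1 ha2 ha3 using hu
  choose d hd using fun i j => (c i j).2
  let J : Type := Σ i : σ, Fin (n i)
  let ε : J ≃ Fin (Fintype.card J) := Fintype.equivFin J
  obtain ⟨r, w, m, κ, hw, hind, hg⟩ := exists_basis (𝓕 := 𝓕) (Γ := Γ)
    (fun j : Fin (Fintype.card J) => a (ε.symm j).1 (ε.symm j).2) (fun j t => ha2 _ _ t)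
  refine ⟨r, w, fun i => ∑ j : Fin (n i), AddMonoidAlgebra.single (m (ε ⟨i, j⟩))
    (d i j * κ (ε ⟨i, j⟩)), hw, hind, fun i => ?_⟩
  have h1 : mk 𝓕 (z i) = mk 𝓕 (fun t => ∑ j, (fun j (_ : α) => d i j) j t * (a i j t : K)) := by
    rw [hs i, ← mk_sum (fun j (_ : α) => d i j) (fun j t => (a i j t : K))]
    refine Finset.sum_congr rfl fun j _ => ?_
    rw [ha1, ← hd i j]
    rfl
  have h2 : ∀ᶠ t in (𝓕 : Filter α), ∀ j : Fin (n i), (a i j t : K) =
      κ (ε ⟨i, j⟩) * ((∏ l, w l t ^ m (ε ⟨i, j⟩) l : Kˣ) : K) := by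
    rw [Filter.eventually_all]
    intro j
    have key : ∀ q : J, q = ⟨i, j⟩ → a q.1 q.2 = a i j := by
      rintro _ rfl
      rfl
    filter_upwards [hg (ε ⟨i, j⟩)] with t ht
    rw [← ht]
    exact congrArg (fun f : α → Kˣ => (f t : K)) (key _ (ε.symm_apply_apply _)).symm
  filter_upwards [mk_eq.1 h1, h2] with t h3 h4
  rw [h3, map_sum]
  refine Finset.sum_congr rfl fun j _ => ?_
  rw [evU_single, h4 j]
  ring

end Pool.Agent.Run7.h28.ST
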