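import Mathlib
import Pool.Agent.Run7.h28.ST.Desc
import Pool.Agent.Run7.h28.ST.Par
import Pool.Agent.Run7.h28.BV.USq

/-!
# Project ST (helper28): points above sparse points are sums of units with constant coefficients
-/

set_option autoImplicit false
set_option linter.unusedSectionVars false

open Filter Topology

namespace Pool.Agent.Run7.h28.ST

open NumberField IsDedekindDomain Height Module
open Pool.Agent.W180.OP (Pl av wt nrm le_nrm nrm_pos wt_nonneg exists_nrm nrm_nonneg)
open Pool.Agent.N750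
open Pool.Agent.Run7.h28.HK
open Pool.Agent.Run7.h28.BV

variable {K : Type} [Field K] [NumberField K] {α : Type} {𝓕 : Ultrafilter α} {H : α → ℝ}

/-- in a sum of units with constant coefficients whose value is moderate, the immoderate terms can be
omitted -/
theorem cst_mod (hH : Tendsto H 𝓕 atTop) (S : Finset (Pl K))
    (hS : ∀ w : InfinitePlace K, (Sum.inl w : Pl K) ∈ S) {ι : Type} (u : ι → α → K)
    (hu : ∀ i t, IsU S (u i t)) (c : ι → K) (x : α → K) (hx : Mdr 𝓕 H x) (n : ℕ) :
    ∀ A : Finset ι, A.card ≤ n → (∀ᶠ t in (𝓕 : Filter α), x t = ∑ i ∈ A, c i * u i t) →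
      ∃ A' ⊆ A, (∀ᶠ t in (𝓕 : Filter α), x t = ∑ i ∈ A', c i * u i t) ∧
        ∀ i ∈ A', Mdr 𝓕 H (u i) := by
  classical
  induction n with
  | zero =>
    intro A hA h
    refine ⟨A, subset_rfl, h, ?_⟩
    rw [Finset.card_eq_zero.1 (Nat.le_zero.1 hA)]
    intro i hi
    exact absurd hi (Finset.notMem_empty i)
  | succ n ih =>
    intro A hA h
    by_cases hall : ∀ i ∈ A, Mdr 𝓕 H (u i)
    · exact ⟨A, subset_rfl, h, hall⟩
    push Not at hall
    obtain ⟨i0, hi0, hnm⟩ := hall
    have hbig : ∀ C : ℝ, ∀ᶠ t in (𝓕 : Filter α), C * H t < logHeight₁ (u i0 t) := by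
      intro C
      by_contra hB
      rw [← Ultrafilter.eventually_not] at hB
      exact hnm ⟨C, hB.mono fun t ht => not_lt.1 ht⟩
    obtain ⟨H', hH'def⟩ : ∃ H' : α → ℝ, H' = fun t => ∑ i ∈ A, logHeight₁ (u i t) := ⟨_, rfl⟩
    have hHle : ∀ i ∈ A, ∀ t, logHeight₁ (u i t) ≤ H' t := by
      intro i hi t
      rw [hH'def]
      exact Finset.single_le_sum (f := fun i => logHeight₁ (u i t))
        (fun _ _ => zero_le_logHeight₁ _) hi
    have hH'big : ∀ C : ℝ, ∀ᶠ t in (𝓕 : Filter α), C * H t < H' t := fun C => by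
      filter_upwards [hbig C] with t ht
      exact ht.trans_le (hHle i0 hi0 t)
    have hH' : Tendsto H' 𝓕 atTop := by
      refine tendsto_atTop_mono' _ ?_ hH
      filter_upwards [hH'big 1] with t ht
      linarith
    have hxs : Slow 𝓕 H' x := by
      obtain ⟨C, hC⟩ := hx
      intro ε hε
      filter_upwards [hC, hH'big (C / ε)] with t h1 h2
      have h3 : C * H t = ε * (C / ε * H t) := by field_simp
      rw [h3] at h1
      exact h1.trans (mul_le_mul_of_nonneg_left h2.le hε.le)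
    -- the classes
    obtain ⟨W, hW⟩ : ∃ W : Option ι → ℕ, W = fun o => match o with
      | none => 1
      | some i => if Slow 𝓕 H' (u i) then 1 else 0 := ⟨_, rfl⟩
    obtain ⟨g, hg⟩ : ∃ g : Option ι → α → K, g = fun o => match o with
      | none => fun _ => 1
      | some i => u i := ⟨_, rfl⟩
    obtain ⟨a, ha⟩ : ∃ a : Option ι → α → K, a = fun o => match o with
      | none => fun t => -x t
      | some i => fun _ => c i := ⟨_, rfl⟩
    have has : ∀ o, Slow 𝓕 H' (a o) := by
      intro o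
      rw [ha]
      rcases o with - | i
      · exact hxs.neg
      · exact slow_const hH' _
    have hgs : ∀ o, W o = 1 ↔ Slow 𝓕 H' (g o) := by
      intro o
      rw [hW, hg]
      rcases o with - | i
      · exact ⟨fun _ => slow_const hH' _, fun _ => rfl⟩
      · simp only
        split_ifs with h1
        · exact ⟨fun _ => h1, fun _ => rfl⟩
        · exact ⟨fun h2 => (by simp at h2), fun h2 => absurd h2 h1⟩
    have hW01 : ∀ o, W o = 0 ∨ W o = 1 := by
      intro o
      rw [hW]
      rcases o with - | i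
      · exact Or.inr rfl
      · simp only
        split_ifs
        · exact Or.inr rfl
        · exact Or.inl rfl
    have hgU : ∀ o t, IsU S (g o t) := by
      intro o t
      rw [hg]
      rcases o with - | i
      · exact IsU.one S
      · exact hu i t
    have hPU : ∀ o ∈ Finset.insertNone A, PU 𝓕 H' S (mk 𝓕 (g o)) := by
      intro o ho
      refine ⟨g o, rfl, hgU o, 1, ?_⟩
      rcases o with - | i
      · filter_upwards [hH_le hH' 0] with t ht
        rw [hg, logHeight₁_one]
        linarith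
      · refine Eventually.of_forall fun t => ?_
        rw [hg, one_mul]
        exact hHle i (by simpa using ho) t
    have hWeq : ∀ o ∈ Finset.insertNone A, ∀ o' ∈ Finset.insertNone A,
        mk 𝓕 (g o) / mk 𝓕 (g o') ∈ slowF 𝓕 K H' hH' → W o = W o' := by
      intro o _ o' _ h1
      rw [mk_div, mk_slow] at h1
      have h2 : Slow 𝓕 H' (g o) ↔ Slow 𝓕 H' (g o') := by
        constructor
        · intro h2
          refine (h2.mul h1.inv).congr (Eventually.of_forall fun t => ?_)
          have h3 := (hgU o t).1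
          have h4 := (hgU o' t).1
          field_simp
        · intro h2
          refine (h1.mul h2).congr (Eventually.of_forall fun t => ?_)
          have h4 := (hgU o' t).1
          field_simp
      rw [← hgs, ← hgs] at h2
      rcases hW01 o with h3 | h3 <;> rcases hW01 o' with h4 | h4
      · rw [h3, h4]
      · rw [h3, h4] at h2
        exact absurd (h2.2 rfl) zero_ne_one
      · rw [h3, h4] at h2
        exact absurd (h2.1 rfl) zero_ne_one
      · rw [h3, h4]
    have hsum0 : ∑ o ∈ Finset.insertNone A, ((⟨mk 𝓕 (a o), mk_slow.2 (has o)⟩ :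
        slowF 𝓕 K H' hH') : Gm 𝓕 K) * mk 𝓕 (g o) = 0 := by
      show ∑ o ∈ Finset.insertNone A, mk 𝓕 (a o) * mk 𝓕 (g o) = 0
      rw [← mk_finsum, mk_eq_zero]
      filter_upwards [h] with t ht
      rw [Finset.sum_insertNone, ha, hg]
      simp only
      rw [mul_one, ht, neg_add_cancel]
    have h1 := (ps hH' S hS).cs (Finset.insertNone A)
      (fun o => ⟨mk 𝓕 (a o), mk_slow.2 (has o)⟩) (fun o => mk 𝓕 (g o)) W hPU hWeq hsum0 1
    have h2 : ∀ᶠ t in (𝓕 : Filter α), ∑ o ∈ Finset.insertNone A with W o = 1, a o t * g o t = 0 := by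
      rw [← mk_eq_zero]
      exact (mk_finsum (𝓕 := 𝓕) ((Finset.insertNone A).filter (fun o => W o = 1)) a g).trans h1
    have h3 : ∀ᶠ t in (𝓕 : Filter α),
        x t = ∑ i ∈ A.filter (fun i => W (some i) = 1), c i * u i t := by
      filter_upwards [h2] with t ht
      rw [Finset.sum_filter, Finset.sum_insertNone] at ht
      rw [Finset.sum_filter]
      have h4 : W none = 1 := by rw [hW]
      rw [if_pos h4, ha, hg] at ht
      simp only at ht
      linear_combination -ht
    have hss : A.filter (fun i => W (some i) = 1) ⊂ A := by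
      refine Finset.filter_ssubset.2 ?_
      by_contra hno
      push Not at hno
      have hpos : (0 : ℝ) < A.card := by
        exact_mod_cast Finset.card_pos.2 ⟨i0, hi0⟩
      have hall : ∀ᶠ t in (𝓕 : Filter α), ∀ i ∈ A, logHeight₁ (u i t) ≤
          1 / (2 * A.card) * H' t := by
        rw [Filter.eventually_all_finset]
        intro i hi
        have h5 := (hgs (some i)).1 (hno i hi)
        rw [hg] at h5
        exact h5 _ (by positivity)
      obtain ⟨t, h5, h6⟩ := (hall.and (hH_le hH' 1)).exists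
      have h7 : H' t ≤ ∑ i ∈ A, 1 / (2 * (A.card : ℝ)) * H' t := by
        conv_lhs => rw [hH'def]
        exact Finset.sum_le_sum h5
      rw [Finset.sum_const, nsmul_eq_mul] at h7
      have h8 : (A.card : ℝ) * (1 / (2 * (A.card : ℝ)) * H' t) = H' t / 2 := by
        field_simp
      rw [h8] at h7
      linarith
    have hc := Finset.card_lt_card hss
    obtain ⟨A', hA', h4, h5⟩ := ih _ (by omega) h3
    exact ⟨A', hA'.trans hss.1, h4, h5⟩

/-- sparse functions of moderate height -/
theorem sparse_spC (hH : Tendsto H 𝓕 atTop) (S : Finset (Pl K))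
    (hS : ∀ w : InfinitePlace K, (Sum.inl w : Pl K) ∈ S) {Γ : Subgroup Kˣ}
    (hΓS : ∀ g ∈ Γ, IsU S (g : K)) {k : ℕ} {M : ℝ} {x : α → K} (hxm : Mdr 𝓕 H x)
    (hx : ∀ t, Sparse Γ k M (x t)) : Sp (cF 𝓕 K) (PG 𝓕 H Γ) (mk 𝓕 x) := by
  classical
  choose a u ha hu hxe using hx
  have h1 : ∀ r, ∃ c : K, ∀ᶠ t in (𝓕 : Filter α), a t r = c := by
    intro r
    refine const_of_bdd (B := Real.log M) (Eventually.of_forall fun t => ?_)
    rw [logHeight₁_eq_log_mulHeight₁]
    exact Real.log_le_log (mulHeight₁_pos _) (ha t r)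
  choose c hc using h1
  have h2 : ∀ᶠ t in (𝓕 : Filter α), ∀ r, a t r = c r := by
    rw [Filter.eventually_all]
    exact hc
  obtain ⟨A', -, h3, h4⟩ := cst_mod hH S hS (fun r t => (u t r : K)) (fun r t => hΓS _ (hu t r)) c x
    hxm _ (Finset.univ : Finset (Fin k)) le_rfl (by
      filter_upwards [h2] with t ht
      rw [hxe t]
      exact Finset.sum_congr rfl fun r _ => by rw [ht r])
  have h5 : mk 𝓕 x = ∑ r ∈ A', mk 𝓕 (fun _ => c r) * mk 𝓕 (fun t => (u t r : K)) := by
    rw [← mk_finsum A' (fun r _ => c r) (fun r t => (u t r : K))]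
    exact mk_eq.2 h3
  rw [h5]
  exact Sp.sum _ _ fun r hr => Sp.smul (mem_cF _) (Sp.of ⟨fun t => u t r, rfl, fun t => hu t r, h4 r hr⟩)

/-- values of polynomials -/
lemma ApC.eval (hH : Tendsto H 𝓕 atTop) {Γ : Subgroup Kˣ} {v : Pl K} {n : ℕ} (x : Fin n → α → K)
    (hx : ∀ l, ApC 𝓕 H Γ v (x l)) (P : MvPolynomial (Fin n) K) :
    ApC 𝓕 H Γ v (fun t => MvPolynomial.eval (fun l => x l t) P) := by
  have h1 : (fun t => MvPolynomial.eval (fun l => x l t) P) =
      fun t => ∑ e ∈ P.support, P.coeff e * ∏ l, x l t ^ e l := by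
    funext t
    rw [MvPolynomial.eval_eq']
  rw [h1]
  exact ApC.sum hH _ (fun e t => P.coeff e * ∏ l, x l t ^ e l) fun e _ =>
    ApC.mul hH (ApC.const _) (ApC.prod hH _ (fun l t => x l t ^ e l) fun l _ =>
      ApC.pow hH (hx l) _)

/-- polynomials with coefficients of bounded height are constant along the ultrafilter -/
lemma poly_const {q : ℕ} {M : ℝ} (E : α → Polynomial K) (hdeg : ∀ t, (E t).natDegree = q)
    (hE : ∀ t j, mulHeight₁ ((E t).coeff j) ≤ M) :
    ∃ E0 : Polynomial K, ∀ᶠ t in (𝓕 : Filter α), E t = E0 := by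
  have h1 : ∀ j, ∃ c : K, ∀ᶠ t in (𝓕 : Filter α), (E t).coeff j = c := by
    intro j
    refine const_of_bdd (B := Real.log M) (Eventually.of_forall fun t => ?_)
    rw [logHeight₁_eq_log_mulHeight₁]
    exact Real.log_le_log (mulHeight₁_pos _) (hE t j)
  choose c hc using h1
  have h2 : ∀ᶠ t in (𝓕 : Filter α), ∀ j ∈ Finset.range (q + 1), (E t).coeff j = c j := by
    rw [Filter.eventually_all_finset]
    exact fun j _ => hc j
  obtain ⟨t0, ht0⟩ := h2.exists
  refine ⟨E t0, ?_⟩
  filter_upwards [h2] with t ht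
  ext j
  by_cases hj : j ∈ Finset.range (q + 1)
  · rw [ht j hj, ht0 j hj]
  · rw [Finset.mem_range] at hj
    rw [Polynomial.coeff_eq_zero_of_natDegree_lt (by rw [hdeg]; omega),
      Polynomial.coeff_eq_zero_of_natDegree_lt (by rw [hdeg]; omega)]

/-- **Points above sparse points near a split point are sums of units with constant coefficients.** -/
theorem germC {𝓕 : Ultrafilter ℕ} {H : ℕ → ℝ} (hH : Tendsto H 𝓕 atTop) (n m k : ℕ)
    (q : Fin m → ℕ) (hq : ∀ i, 0 < q i) (B δ M : ℝ) (hδ : 0 < δ) (hM : 1 ≤ M) (Γ : Subgroup Kˣ)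
    (S : Finset (Pl K)) (hS : ∀ w : InfinitePlace K, (Sum.inl w : Pl K) ∈ S)
    (hΓS : ∀ g ∈ Γ, IsU S (g : K)) (v : Pl K) (hv : v ∈ S)
    (P : Fin m → Polynomial (MvPolynomial (Fin n) K)) (hPq : ∀ i, (P i).natDegree ≤ q i)
    (x : ℕ → Fin n → K) (y : ℕ → Fin m → K) (hx : ∀ t l, Sparse Γ k M (x t l))
    (hxm : ∀ t l, mulHeight₁ (x t l) ≤ M * Real.exp (H t) ^ B)
    (hnear : ∀ t i, Near Γ v B δ M (Real.exp (H t)) (q i) ((P i).map (MvPolynomial.eval (x t))))
    (hy : ∀ t i, ((P i).map (MvPolynomial.eval (x t))).eval (y t i) = 0)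
    (hyI : ∀ i, AI 𝓕 H S (fun t => y t i)) :
    (∀ l, Sp (cF 𝓕 K) (PG 𝓕 H Γ) (mk 𝓕 (fun t => x t l))) ∧
      ∀ i, Sp (cF 𝓕 K) (PG 𝓕 H Γ) (mk 𝓕 (fun t => y t i)) := by
  classical
  -- a bound for the heights of the coefficients
  obtain ⟨M', hM', hMM', hcoef⟩ : ∃ M' : ℝ, 1 ≤ M' ∧ M ≤ M' ∧
      ∀ i j e, mulHeight₁ (((P i).coeff j).coeff e) ≤ M' := by
    obtain ⟨C, hC⟩ : ∃ C : ℝ, C = M + ∑ i, ∑ j ∈ (P i).support,
        ∑ e ∈ ((P i).coeff j).support, mulHeight₁ (((P i).coeff j).coeff e) := ⟨_, rfl⟩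
    have hnn : ∀ i, 0 ≤ ∑ j ∈ (P i).support,
        ∑ e ∈ ((P i).coeff j).support, mulHeight₁ (((P i).coeff j).coeff e) := fun i =>
      Finset.sum_nonneg fun j _ => Finset.sum_nonneg fun e _ => (mulHeight₁_pos _).le
    have h0 : M ≤ C := by
      rw [hC]
      have := Finset.sum_nonneg fun i (_ : i ∈ (Finset.univ : Finset (Fin m))) => hnn i
      linarith
    refine ⟨C, hM.trans h0, h0, fun i j e => ?_⟩
    by_cases he : ((P i).coeff j).coeff e = 0
    · rw [he]
      have : mulHeight₁ (0 : K) = 1 := mulHeight₁_zero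
      linarith
    have hj : (P i).coeff j ≠ 0 := fun h => he (by rw [h, MvPolynomial.coeff_zero])
    have h1 := Finset.single_le_sum (f := fun e => mulHeight₁ (((P i).coeff j).coeff e))
      (fun _ _ => (mulHeight₁_pos _).le) (MvPolynomial.mem_support_iff.2 he)
    have h2 := Finset.single_le_sum (f := fun j => ∑ e ∈ ((P i).coeff j).support,
      mulHeight₁ (((P i).coeff j).coeff e))
      (fun _ _ => Finset.sum_nonneg fun e _ => (mulHeight₁_pos _).le)
      (Polynomial.mem_support_iff.2 hj)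
    have h3 := Finset.single_le_sum (f := fun i => ∑ j ∈ (P i).support,
        ∑ e ∈ ((P i).coeff j).support, mulHeight₁ (((P i).coeff j).coeff e))
      (fun i _ => hnn i) (Finset.mem_univ i)
    rw [hC]
    linarith
  have hneg : ∀ ε' : ℝ, 0 < ε' → ∀ᶠ t in (𝓕 : Filter ℕ), 1 + Real.log M' ≤ ε' * H t := by
    intro ε' hε'
    filter_upwards [hH_le hH ((1 + Real.log M') / ε')] with t ht
    rw [div_le_iff₀ hε'] at ht
    linarith
  have hMe : ∀ t : ℕ, ∀ b : ℝ, M * Real.exp (H t) ^ b ≤ M' * Real.exp (H t) ^ b := fun t b =>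
    mul_le_mul_of_nonneg_right hMM' (Real.rpow_pos_of_pos (Real.exp_pos _) _).le
  -- slow coefficients
  obtain ⟨N, hN⟩ := unif_seq n m k q (fun i => ∑ j ∈ Finset.range (q i + 1),
    ((P i).coeff j).totalDegree) hq B δ hδ
  have hsl := (hN K 𝓕 H hH Γ S hS hΓS v hv (fun _ => M') (fun _ => hM') hneg (fun i _ => P i)
    (fun i _ => hPq i) (fun i t j hj => Finset.single_le_sum
      (f := fun j => ((P i).coeff j).totalDegree) (fun _ _ => Nat.zero_le _)
      (Finset.mem_range.2 (Nat.lt_succ_of_le hj))) (fun i _ j e => hcoef i j e) x y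
    (fun t l => by
      obtain ⟨a, u, h1, h2, h3⟩ := hx t l
      exact ⟨a, u, fun r => (h1 r).trans hMM', h2, h3⟩)
    (fun t l => (hxm t l).trans (hMe t B))
    (fun t i => by
      obtain ⟨a, z, E, h1, h2, h3, h4, h5, h6, h7, h8, h9⟩ := hnear t i
      exact ⟨a, z, E, h1, h2, h3, h4, h5, fun j => (h6 j).trans hMM', h7.trans (hMe t B),
        h8.trans (hMe t B), fun j hj => (h9 j hj).trans (hMe t (-δ))⟩) hy hyI).2
  have hxm' : ∀ l, Mdr 𝓕 H (fun t => x t l) := fun l => ⟨_, mdr_of_ht hH (fun _ => hM') hneg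
    fun t => (hxm t l).trans (hMe t B)⟩
  have hxC : ∀ l, Sp (cF 𝓕 K) (PG 𝓕 H Γ) (mk 𝓕 (fun t => x t l)) := fun l =>
    sparse_spC hH S hS hΓS (hxm' l) fun t => hx t l
  refine ⟨hxC, fun i => ?_⟩
  refine desc hH S hS hΓS v hv (hsl i).sp ?_
  -- approximation
  have hnear' := fun t => hnear t i
  choose a z E ha hz hEdeg hEsep hEspl hEc ham hzm hcl using hnear'
  obtain ⟨E0, hE0⟩ := poly_const (𝓕 := 𝓕) E hEdeg hEc
  obtain ⟨t0, ht0⟩ := hE0.exists
  have hmm : Mdr 𝓕 H (fun t => (a t : K)) := ⟨_, mdr_of_ht hH (fun _ => hM') hneg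
    fun t => (ham t).trans (hMe t B)⟩
  have hzz : Mdr 𝓕 H (fun t => (z t : K)) := ⟨_, mdr_of_ht hH (fun _ => hM') hneg
    fun t => (hzm t).trans (hMe t B)⟩
  have hza : ApC 𝓕 H Γ v (fun t => (z t : K)) := ApC.unit hz hzz
  have hY : ApC 𝓕 H Γ v (fun t => (z t : K)⁻¹ * y t i) := by
    refine (apC_poly hH (hq i) E0 (by rw [← ht0, hEdeg]) (by rw [← ht0]; exact hEsep t0)
      (by rw [← ht0]; exact hEspl t0) (fun j t => (a t : K) * (z t : K) ^ j *
        MvPolynomial.eval (x t) ((P i).coeff j)) (fun j _ => ApC.mul hH (ApC.mul hH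
        (ApC.unit ha hmm) (ApC.pow hH hza j)) (ApC.eval hH (fun l t => x t l)
        (fun l => ApC.sp (hxC l)) _)) (fun j hj => ⟨δ / 2, by positivity, ?_⟩) _ ?_).2
    · have h1 := sm_of_bd hH hδ (fun _ => hM') hneg (fun t => (hcl t j hj).trans (hMe t (-δ)))
      filter_upwards [h1, hE0] with t h2 h3
      rw [Polynomial.coeff_map, h3] at h2
      exact h2
    · refine Eventually.of_forall fun t => ?_
      have h1 := hy t i
      rw [Polynomial.eval_eq_sum_range' (n := q i + 1) (lt_of_le_of_lt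
        (Polynomial.natDegree_map_le.trans (hPq i)) (Nat.lt_succ_self _))] at h1
      simp only [Polynomial.coeff_map] at h1
      have h2 : ∑ j ∈ Finset.range (q i + 1), (a t : K) * (z t : K) ^ j *
          MvPolynomial.eval (x t) ((P i).coeff j) * ((z t : K)⁻¹ * y t i) ^ j =
          (a t : K) * ∑ j ∈ Finset.range (q i + 1),
            MvPolynomial.eval (x t) ((P i).coeff j) * y t i ^ j := by
        rw [Finset.mul_sum]
        refine Finset.sum_congr rfl fun j _ => ?_
        have h3 : (z t : K) ^ j * ((z t : K)⁻¹) ^ j = 1 := by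
          rw [← mul_pow, mul_inv_cancel₀ (z t).ne_zero, one_pow]
        rw [mul_pow]
        linear_combination ((a t : K) * MvPolynomial.eval (x t) ((P i).coeff j) * y t i ^ j) * h3
      rw [h2, h1, mul_zero]
  refine (ApC.mul hH hza hY).congr (Eventually.of_forall fun t => ?_)
  rw [← mul_assoc, mul_inv_cancel₀ (z t).ne_zero, one_mul]

end Pool.Agent.Run7.h28.ST
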