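import Mathlib
import Pool.Agent.Run7.h28.ST.Core
import Pool.Agent.Run7.h28.BV.UProj

/-!
# Project ST (helper28): finitely many families
-/

set_option autoImplicit false
set_option linter.unusedSectionVars false

open Filter Topology

namespace Pool.Agent.Run7.h28.ST

open NumberField IsDedekindDomain Height Module
open Pool.Agent.W180.OP (Pl av wt nrm le_nrm nrm_pos wt_nonneg exists_nrm nrm_nonneg)
open Pool.Agent.N750
open Pool.Agent.Run7.h28.HK
open Pool.Agent.Run7.h28.BV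

/-- a number of variables and, for every coordinate, a Laurent polynomial in these variables -/
abbrev Fam (K : Type) [CommSemiring K] (σ : Type) : Type := Σ r : ℕ, σ → Lau K r

lemma countable_nf (K : Type) [Field K] [NumberField K] : Countable K := by
  have e := (Module.finBasis ℚ K).equivFun
  exact e.toEquiv.countable_iff.2 inferInstance

lemma countable_fam (K : Type) [Field K] [NumberField K] (σ : Type) [Finite σ] :
    Countable (Fam K σ) := by
  have := countable_nf K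
  have h1 : ∀ r, Countable (Lau K r) := by
    intro r
    have h2 : Function.Injective (fun P : Lau K r => P.coeff) := fun P Q h =>
      AddMonoidAlgebra.coeff_inj.1 h
    exact h2.countable
  infer_instance

variable {K : Type} [Field K] [NumberField K]

lemma evU_aeval {r : ℕ} {σ : Type} (w : Fin r → Kˣ) (P : σ → Lau K r) (G : MvPolynomial σ K) :
    evU w (MvPolynomial.aeval P G) = MvPolynomial.eval (fun i => evU w (P i)) G := by
  have h1 : (evU w).comp (MvPolynomial.aeval P) = MvPolynomial.aeval (fun i => evU w (P i)) := by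
    refine MvPolynomial.algHom_ext fun i => ?_
    rw [AlgHom.comp_apply, MvPolynomial.aeval_X, MvPolynomial.aeval_X]
  have h2 := congrArg (fun f : MvPolynomial σ K →ₐ[K] K => f G) h1
  simp only [AlgHom.comp_apply] at h2
  rw [h2, MvPolynomial.aeval_eq_eval]

/-- **Finitely many families.** -/
theorem fin_fam {σ : Type} [Fintype σ] (Γ : Subgroup Kˣ) (S : Finset (Pl K))
    (hS : ∀ w : InfinitePlace K, (Sum.inl w : Pl K) ∈ S) (hΓS : ∀ g ∈ Γ, IsU S (g : K))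
    (I : Ideal (MvPolynomial σ K)) (Z : (σ → K) → ℝ → Prop)
    (hZI : ∀ z h, Z z h → ∀ G ∈ I, MvPolynomial.eval z G = 0)
    (hZ : ∀ (z : ℕ → σ → K) (h : ℕ → ℝ), (∀ t, Z (z t) (h t)) → (∀ t : ℕ, (t : ℝ) < h t) →
      ∀ i, Sp (cF (hyperfilter ℕ) K) (PG (hyperfilter ℕ) (fun t => Real.log (h t)) Γ)
        (mk (hyperfilter ℕ) (fun t => z t i))) :
    ∃ 𝓣 : Set (Fam K σ), 𝓣.Finite ∧ (∀ P ∈ 𝓣, ∀ G ∈ I, MvPolynomial.aeval P.2 G = 0) ∧
      ∃ C : ℝ, 0 < C ∧ ∀ z h, Z z h → C < h → ∃ P ∈ 𝓣, ∃ u : Fin P.1 → Kˣ, (∀ l, u l ∈ Γ) ∧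
        ∀ i, z i = evU u (P.2 i) := by
  classical
  have hc := countable_fam K σ
  have hne : Nonempty (Fam K σ) := ⟨⟨0, fun _ => 0⟩⟩
  obtain ⟨e, he⟩ := exists_surjective_nat (Fam K σ)
  by_contra hcon
  push Not at hcon
  have hfin : ∀ t : ℕ, ({P | ∃ j ≤ t, P = e j ∧ ∀ G ∈ I, MvPolynomial.aeval P.2 G = 0} :
      Set (Fam K σ)).Finite := by
    intro t
    refine ((Set.finite_Iic t).image e).subset ?_
    rintro P ⟨j, hj, hP, -⟩
    exact ⟨j, hj, hP.symm⟩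
  have h1 := fun t : ℕ => hcon {P | ∃ j ≤ t, P = e j ∧ ∀ G ∈ I, MvPolynomial.aeval P.2 G = 0}
    (hfin t) (fun P hP => hP.choose_spec.2.2) ((t : ℝ) + 1) (by positivity)
  choose z h hZz hbig hno using h1
  have h2 := hZ z h hZz (fun t => by linarith [hbig t])
  obtain ⟨r, w, P, hw, hind, hP⟩ := param_fam (𝓕 := hyperfilter ℕ) (fun i t => z t i) h2
  -- the family lies on the variety
  have hPI : ∀ G ∈ I, MvPolynomial.aeval P G = 0 := by
    intro G hG
    refine alg_indep S hS hΓS w hw hind _ ?_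
    have h3 : ∀ᶠ t in (hyperfilter ℕ : Filter ℕ), ∀ i, z t i = evU (fun l => w l t) (P i) :=
      eventually_all.2 hP
    filter_upwards [h3] with t ht
    have h6 : z t = fun i => evU (fun l => w l t) (P i) := funext ht
    rw [evU_aeval, ← h6, hZI _ _ (hZz t) G hG]
  obtain ⟨j, hj⟩ := he ⟨r, P⟩
  have h4 : ∀ᶠ t in (hyperfilter ℕ : Filter ℕ), ∀ i, z t i = evU (fun l => w l t) (P i) :=
    eventually_all.2 hP
  have h5 : ∀ᶠ t in (hyperfilter ℕ : Filter ℕ), j ≤ t :=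
    Filter.Eventually.filter_mono Nat.hyperfilter_le_atTop (eventually_ge_atTop j)
  obtain ⟨t, ht1, ht2⟩ := (h4.and h5).exists
  obtain ⟨i, hi⟩ := hno t ⟨r, P⟩ ⟨j, ht2, hj.symm, hPI⟩ (fun l => w l t) (fun l => hw l t)
  exact hi (ht1 i)

/-- adding finitely many constant families -/
theorem fin_fam' {σ : Type} [Fintype σ] {Γ : Subgroup Kˣ}
    {I : Ideal (MvPolynomial σ K)} {Z : (σ → K) → ℝ → Prop}
    (hZI : ∀ z h, Z z h → ∀ G ∈ I, MvPolynomial.eval z G = 0)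
    (h1 : ∃ 𝓣 : Set (Fam K σ), 𝓣.Finite ∧ (∀ P ∈ 𝓣, ∀ G ∈ I, MvPolynomial.aeval P.2 G = 0) ∧
      ∃ C : ℝ, 0 < C ∧ ∀ z h, Z z h → C < h → ∃ P ∈ 𝓣, ∃ u : Fin P.1 → Kˣ, (∀ l, u l ∈ Γ) ∧
        ∀ i, z i = evU u (P.2 i))
    (h2 : ∀ C : ℝ, {z | ∃ h ≤ C, Z z h}.Finite) :
    ∃ 𝓣 : Set (Fam K σ), 𝓣.Finite ∧ (∀ P ∈ 𝓣, ∀ G ∈ I, MvPolynomial.aeval P.2 G = 0) ∧
      ∀ z h, Z z h → ∃ P ∈ 𝓣, ∃ u : Fin P.1 → Kˣ, (∀ l, u l ∈ Γ) ∧ ∀ i, z i = evU u (P.2 i) := by
  classical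
  obtain ⟨𝓣, hfin, hI, C, -, hC⟩ := h1
  have hcst : ∀ (z : σ → K) (u : Fin 0 → Kˣ) (i : σ),
      evU u ((fun i => AddMonoidAlgebra.single 0 (z i) : σ → Lau K 0) i) = z i := by
    intro z u i
    rw [evU_single]
    simp
  refine ⟨𝓣 ∪ (fun z : σ → K => (⟨0, fun i => AddMonoidAlgebra.single 0 (z i)⟩ : Fam K σ)) ''
    {z | ∃ h ≤ C, Z z h}, hfin.union ((h2 C).image _), ?_, ?_⟩
  · rintro P (hP | ⟨z, ⟨h, -, hz⟩, rfl⟩) G hG
    · exact hI P hP G hG
    · have h3 : (MvPolynomial.aeval (fun i => (AddMonoidAlgebra.single 0 (z i) : Lau K 0)) G) =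
          AddMonoidAlgebra.single 0 (MvPolynomial.eval z G) := by
        have h4 : MvPolynomial.aeval (fun i => (AddMonoidAlgebra.single 0 (z i) : Lau K 0)) =
            (Algebra.ofId K (Lau K 0)).comp (MvPolynomial.aeval z) := by
          refine MvPolynomial.algHom_ext fun i => ?_
          rw [AlgHom.comp_apply, MvPolynomial.aeval_X, MvPolynomial.aeval_X]
          rfl
        rw [h4, AlgHom.comp_apply, MvPolynomial.aeval_eq_eval]
        rfl
      show MvPolynomial.aeval (fun i => (AddMonoidAlgebra.single 0 (z i) : Lau K 0)) G = 0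
      rw [h3, hZI z h hz G hG]
      exact AddMonoidAlgebra.single_zero 0
  · intro z h hz
    by_cases hh : C < h
    · obtain ⟨P, hP, u, hu, hi⟩ := hC z h hz hh
      exact ⟨P, Or.inl hP, u, hu, hi⟩
    · refine ⟨_, Or.inr ⟨z, ⟨h, not_lt.1 hh, hz⟩, rfl⟩, fun l => l.elim0, fun l => l.elim0,
        fun i => (hcst z _ i).symm⟩

/-- a dominant family -/
theorem dominant {σ : Type} {𝓣 : Set (Fam K σ)} (hfin : 𝓣.Finite)
    {I : Ideal (MvPolynomial σ K)} (hprime : I.IsPrime) {Γ : Subgroup Kˣ} {Z : (σ → K) → Prop}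
    (hZ : ∀ z, Z z → ∃ P ∈ 𝓣, ∃ u : Fin P.1 → Kˣ, (∀ l, u l ∈ Γ) ∧ ∀ i, z i = evU u (P.2 i))
    (hdense : ∀ G : MvPolynomial σ K, (∃ e, G.IsHomogeneous e) →
      (∀ z, Z z → MvPolynomial.eval z G = 0) → G ∈ I) :
    ∃ P ∈ 𝓣, ∀ G : MvPolynomial σ K, (∃ e, G.IsHomogeneous e) →
      MvPolynomial.aeval P.2 G = 0 → G ∈ I := by
  classical
  by_contra hcon
  push Not at hcon
  choose G hG1 hG2 hG3 using hcon
  have h1 : (∏ P ∈ hfin.toFinset.attach, G P.1 (hfin.mem_toFinset.1 P.2)) ∈ I := by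
    refine hdense _ ?_ fun z hz => ?_
    · choose e he using hG1
      exact ⟨_, MvPolynomial.IsHomogeneous.prod _ _ _ fun P _ => he P.1 (hfin.mem_toFinset.1 P.2)⟩
    · obtain ⟨P, hP, u, -, hu⟩ := hZ z hz
      rw [map_prod]
      refine Finset.prod_eq_zero (i := (⟨P, hfin.mem_toFinset.2 hP⟩ : {x // x ∈ hfin.toFinset}))
        (Finset.mem_attach _ _) ?_
      have h2 := evU_aeval u P.2 (G P hP)
      rw [hG2 P hP, map_zero] at h2
      have h3 : z = fun i => evU u (P.2 i) := funext hu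
      rw [h3, ← h2]
  rw [hprime.prod_mem_iff] at h1
  obtain ⟨P, -, hP⟩ := h1
  exact hG3 _ _ hP

end Pool.Agent.Run7.h28.ST
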