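import Mathlib
import Pool.Agent.Run7.h28.ST.Struct

/-!
# Project ST (helper28): points above sparse points near a split point lie in finitely many families
of values of Laurent polynomials
-/

set_option autoImplicit false
set_option linter.unusedSectionVars false

open Filter Topology

namespace Pool.Agent.Run7.h28.ST

open NumberField IsDedekindDomain Height Module
open Pool.Agent.W180.OP (Pl av wt nrm le_nrm nrm_pos wt_nonneg exists_nrm nrm_nonneg)
open Pool.Agent.N750
open Pool.Agent.Run7.h28.HK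
open Pool.Agent.Run7.h28.BV

variable {K : Type} [Field K] [NumberField K]

/-- finitely many roots -/
lemma finite_above {n m : ℕ} (F : Fin m → Polynomial (MvPolynomial (Fin n) K))
    (hFm : ∀ i, (F i).Monic) {A : Set (Fin n → K)} (hA : A.Finite) :
    {z : Fin n ⊕ Fin m → K | (fun l => z (Sum.inl l)) ∈ A ∧
      ∀ i, ((F i).map (MvPolynomial.eval (fun l => z (Sum.inl l)))).eval (z (Sum.inr i)) = 0}.Finite := by
  classical
  have h1 : (⋃ x ∈ A, {z : Fin n ⊕ Fin m → K | (∀ l, z (Sum.inl l) = x l) ∧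
      ∀ i, z (Sum.inr i) ∈ ((F i).map (MvPolynomial.eval x)).roots.toFinset}).Finite := by
    refine hA.biUnion fun x _ => ?_
    have h2 : (Set.pi Set.univ (Sum.elim (fun l => ({x l} : Set K)) (fun i =>
        (((F i).map (MvPolynomial.eval x)).roots.toFinset : Set K))) :
        Set (Fin n ⊕ Fin m → K)).Finite := by
      refine Set.Finite.pi fun i => ?_
      rcases i with l | i
      · exact Set.finite_singleton _
      · exact Finset.finite_toSet _
    refine h2.subset ?_
    rintro z ⟨hz1, hz2⟩ i -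
    rcases i with l | i
    · exact hz1 l
    · exact hz2 i
  refine h1.subset ?_
  rintro z ⟨hz1, hz2⟩
  simp only [Set.mem_iUnion]
  refine ⟨_, hz1, fun l => rfl, fun i => ?_⟩
  rw [Multiset.mem_toFinset, Polynomial.mem_roots ((hFm i).map _).ne_zero]
  exact hz2 i

/-- **Points above sparse points near a split point lie in finitely many families of values of Laurent
polynomials.** -/
theorem structureM (n m k : ℕ) (B δ M : ℝ) (hδ : 0 < δ) (Γ : Subgroup Kˣ) (hΓ : Γ.FG) (v : Pl K)
    (I : Ideal (MvPolynomial (Fin n ⊕ Fin m) K))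
    (F : Fin m → Polynomial (MvPolynomial (Fin n) K)) (hFm : ∀ i, (F i).Monic)
    (hFI : ∀ i, eqA (F i) i ∈ I) :
    ∃ 𝓣 : Set (Fam K (Fin n ⊕ Fin m)), 𝓣.Finite ∧
      (∀ P ∈ 𝓣, ∀ G ∈ I, MvPolynomial.aeval P.2 G = 0) ∧
      ∀ (x : Fin n → K) (y : Fin m → K) (h : ℝ), 1 ≤ h →
        (∀ G ∈ I, MvPolynomial.eval (Sum.elim x y) G = 0) →
        (∀ l, Sparse Γ k M (x l)) → (∀ l, mulHeight₁ (x l) ≤ M * h ^ B) →
        (∀ i, Near Γ v B δ M h (F i).natDegree ((F i).map (MvPolynomial.eval x))) →
        ∃ P ∈ 𝓣, ∃ u : Fin P.1 → Kˣ, (∀ l, u l ∈ Γ) ∧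
          ∀ i, Sum.elim x y i = evU u (P.2 i) := by
  classical
  -- the equations of the `y i`
  have hroot : ∀ (x : Fin n → K) (y : Fin m → K),
      (∀ G ∈ I, MvPolynomial.eval (Sum.elim x y) G = 0) →
      ∀ i, ((F i).map (MvPolynomial.eval x)).eval (y i) = 0 := by
    intro x y hz i
    have h1 := hz _ (hFI i)
    have h2 := eval_eqA (RingHom.id K) (F i) i x y
    have h3 : MvPolynomial.eval₂Hom (RingHom.id K) x = MvPolynomial.eval x := by
      refine RingHom.ext fun P => ?_
      rfl
    rw [h3] at h2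
    rw [← h2]
    exact h1
  -- enlarge the constant
  obtain ⟨M', hM', hMM'⟩ : ∃ M' : ℝ, 1 ≤ M' ∧ M ≤ M' := ⟨max 1 M, le_max_left _ _, le_max_right _ _⟩
  obtain ⟨Z, hZdef⟩ : ∃ Z : (Fin n ⊕ Fin m → K) → ℝ → Prop, Z = fun z h => 1 ≤ h ∧
      (∀ G ∈ I, MvPolynomial.eval z G = 0) ∧ (∀ l, Sparse Γ k M' (z (Sum.inl l))) ∧
      (∀ l, mulHeight₁ (z (Sum.inl l)) ≤ M' * h ^ B) ∧
      (∀ i, Near Γ v B δ M' h (F i).natDegree
        ((F i).map (MvPolynomial.eval fun l => z (Sum.inl l)))) := ⟨_, rfl⟩
  have hse : ∀ z : Fin n ⊕ Fin m → K,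
      Sum.elim (fun l => z (Sum.inl l)) (fun i => z (Sum.inr i)) = z := fun z => by
    funext i
    rcases i with l | i <;> rfl
  by_cases hq : ∃ i, (F i).natDegree = 0
  · -- no points
    obtain ⟨i0, hi0⟩ := hq
    refine ⟨∅, Set.finite_empty, fun P hP => absurd hP (Set.notMem_empty P), ?_⟩
    intro x y h _ hz _ _ _
    have h1 := hroot x y hz i0
    rw [(hFm i0).natDegree_eq_zero.1 hi0, Polynomial.map_one, Polynomial.eval_one] at h1
    exact absurd h1 one_ne_zero
  push Not at hq
  obtain ⟨S, hS, hΓS, hvS⟩ := exists_S' Γ hΓ {v}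
  have hv : v ∈ S := hvS (Finset.mem_singleton_self v)
  obtain ⟨𝓣, hfin, hI, hall⟩ := fin_fam' (Γ := Γ) (I := I) (Z := Z)
    (fun z h hz => by
      rw [hZdef] at hz
      exact hz.2.1)
    (fin_fam Γ S hS hΓS I Z (fun z h hz => by
      rw [hZdef] at hz
      exact hz.2.1) (by
      intro z h hz hbig
      rw [hZdef] at hz
      simp only at hz
      choose h1 hzI hxs hxm hnear using hz
      have hH : Tendsto (fun t => Real.log (h t)) (hyperfilter ℕ : Filter ℕ) atTop := by
        refine Tendsto.mono_left ?_ Nat.hyperfilter_le_atTop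
        refine Real.tendsto_log_atTop.comp ?_
        exact tendsto_atTop_mono (fun t => (hbig t).le) tendsto_natCast_atTop_atTop
      have hexp : ∀ t, Real.exp (Real.log (h t)) = h t := fun t =>
        Real.exp_log (by linarith [h1 t])
      have hneg : ∀ ε' : ℝ, 0 < ε' → ∀ᶠ t in (hyperfilter ℕ : Filter ℕ),
          1 + Real.log M' ≤ ε' * Real.log (h t) := by
        intro ε' hε'
        filter_upwards [hH_le hH ((1 + Real.log M') / ε')] with t ht
        rw [div_le_iff₀ hε'] at ht
        linarith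
      have hyz : ∀ t i, ((F i).map (MvPolynomial.eval fun l => z t (Sum.inl l))).eval
          (z t (Sum.inr i)) = 0 := fun t i =>
        hroot (fun l => z t (Sum.inl l)) (fun i => z t (Sum.inr i))
          (fun G hG => by rw [hse]; exact hzI t G hG) i
      have hxI : ∀ l, AI (hyperfilter ℕ) (fun t => Real.log (h t)) S
          (fun t => z t (Sum.inl l)) := fun l =>
        sparse_AI hH hneg S Γ hΓS fun t => hxs t l
      have hyI : ∀ i, AI (hyperfilter ℕ) (fun t => Real.log (h t)) S
          (fun t => z t (Sum.inr i)) := by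
        intro i
        refine AI.root hH (Nat.pos_of_ne_zero (hq i)) (fun j t =>
          MvPolynomial.eval (fun l => z t (Sum.inl l)) ((F i).coeff j)) (fun j hj => ?_)
          (Eventually.of_forall fun t => ?_)
        · exact AI.eval hH (D := ((F i).coeff j).totalDegree) (fun _ => (F i).coeff j)
            (fun t => le_rfl) (fun e => slow_const hH _) (fun t l => z t (Sum.inl l)) hxI
        · have h2 := hyz t i
          rw [Polynomial.eval_eq_sum_range, ((hFm i).natDegree_map _), Finset.sum_range_succ,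
            Polynomial.coeff_map, (hFm i).coeff_natDegree, map_one, one_mul, add_comm] at h2
          rw [← h2]
          congr 1
          refine Finset.sum_congr rfl fun j _ => ?_
          rw [Polynomial.coeff_map]
      obtain ⟨g1, g2⟩ := germC hH n m k (fun i => (F i).natDegree)
        (fun i => Nat.pos_of_ne_zero (hq i)) B δ M' hδ hM' Γ S hS hΓS v hv F (fun i => le_rfl)
        (fun t l => z t (Sum.inl l)) (fun t i => z t (Sum.inr i)) hxs
        (fun t l => by rw [hexp]; exact hxm t l) (fun t i => by rw [hexp]; exact hnear t i) hyz hyI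
      intro i
      rcases i with l | i
      · exact g1 l
      · exact g2 i)) (by
      intro C
      have hfx : ({x : Fin n → K | ∀ l, mulHeight₁ (x l) ≤ M' * (max C 1) ^ |B|}).Finite := by
        have h1 : (Set.pi Set.univ (fun _ : Fin n =>
            {x : K | mulHeight₁ x ≤ M' * (max C 1) ^ |B|})).Finite :=
          Set.Finite.pi fun _ => Northcott.finite_le _
        refine h1.subset ?_
        intro x hx l _
        exact hx l
      refine (finite_above F hFm hfx).subset ?_
      rintro z ⟨h, hh, hz⟩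
      rw [hZdef] at hz
      obtain ⟨h1, h2, h3, h4, h5⟩ := hz
      refine ⟨fun l => (h4 l).trans ?_, ?_⟩
      · refine mul_le_mul_of_nonneg_left ?_ (by linarith)
        calc h ^ B ≤ h ^ |B| := Real.rpow_le_rpow_of_exponent_le h1 (le_abs_self B)
          _ ≤ (max C 1) ^ |B| := Real.rpow_le_rpow (by linarith) (hh.trans (le_max_left _ _))
              (abs_nonneg _)
      · exact hroot (fun l => z (Sum.inl l)) (fun i => z (Sum.inr i))
          (fun G hG => by rw [hse]; exact h2 G hG))
  refine ⟨𝓣, hfin, hI, fun x y h h1 hz hxs hxm hnear => ?_⟩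
  refine hall (Sum.elim x y) h ?_
  rw [hZdef]
  have hM0 : 0 ≤ h ^ B := (Real.rpow_pos_of_pos (by linarith) _).le
  refine ⟨h1, hz, fun l => ?_, fun l => ?_, fun i => ?_⟩
  · obtain ⟨a, u, h2, h3, h4⟩ := hxs l
    exact ⟨a, u, fun r => (h2 r).trans hMM', h3, h4⟩
  · exact (hxm l).trans (mul_le_mul_of_nonneg_right hMM' hM0)
  · obtain ⟨a, z, E, h2, h3, h4, h5, h6, h7, h8, h9, h10⟩ := hnear i
    exact ⟨a, z, E, h2, h3, h4, h5, h6, fun j => (h7 j).trans hMM',
      h8.trans (mul_le_mul_of_nonneg_right hMM' hM0),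
      h9.trans (mul_le_mul_of_nonneg_right hMM' hM0), fun j hj => (h10 j hj).trans
      (mul_le_mul_of_nonneg_right hMM' (Real.rpow_pos_of_pos (by linarith) _).le)⟩

end Pool.Agent.Run7.h28.ST
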