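import Mathlib
import Pool.Agent.R405.PlaceExt
import Pool.Agent.Helper259.HtExt
import Pool.Agent.Run7.h28.ST.Main

/-!
# Project ST (helper28): extension of the number field; separable polynomials in place of split ones
-/

set_option autoImplicit false
set_option linter.unusedSectionVars false

open Filter Topology

namespace Pool.Agent.Run7.h28.ST

open NumberField IsDedekindDomain Height Module
open Pool.Agent.W180.OP (Pl av wt nrm le_nrm nrm_pos wt_nonneg exists_nrm nrm_nonneg)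
open Pool.Agent.N750
open Pool.Agent.Run7.h28.HK
open Pool.Agent.Run7.h28.BV

section ext

variable {K L : Type} [Field K] [NumberField K] [Field L] [NumberField L] [Algebra K L]

lemma exists_place (v : Pl K) : ∃ (w : Pl L) (c : ℝ), 0 < c ∧
    ∀ y : K, av w (algebraMap K L y) = av v y ^ c := by
  rcases v with v | v
  · obtain ⟨w, hw⟩ := InfinitePlace.comap_surjective (k := K) (K := L) v
    refine ⟨Sum.inl w, 1, one_pos, fun y => ?_⟩
    rw [Real.rpow_one, ← hw]
    rfl
  · obtain ⟨Q, hQ⟩ := Pool.Agent.R405.exists_over (K := L) v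
    obtain ⟨c, hc, h⟩ := Pool.Agent.R405.exists_exp hQ
    exact ⟨Sum.inr Q, c, hc, h⟩

lemma lh_ext (z : K) : logHeight₁ (algebraMap K L z) = finrank K L * logHeight₁ z := by
  have h := Pool.Agent.Helper259.HtExt.logHeight_ext (L := L) (![z, 1] : Fin 2 → K)
  rw [logHeight₁_eq_logHeight, logHeight₁_eq_logHeight z, ← h]
  congr 1
  funext i
  fin_cases i <;> simp

lemma mh_ext (z : K) : mulHeight₁ (algebraMap K L z) = mulHeight₁ z ^ (finrank K L : ℝ) := by
  have h1 := lh_ext (L := L) z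
  rw [logHeight₁_eq_log_mulHeight₁, logHeight₁_eq_log_mulHeight₁,
    ← Real.log_rpow (mulHeight₁_pos _)] at h1
  exact Real.log_injOn_pos (mulHeight₁_pos _) (Real.rpow_pos_of_pos (mulHeight₁_pos _) _) h1

lemma mh_ext_le {z : K} {X : ℝ} (h : mulHeight₁ z ≤ X) :
    mulHeight₁ (algebraMap K L z) ≤ X ^ (finrank K L : ℝ) := by
  rw [mh_ext]
  exact Real.rpow_le_rpow (mulHeight₁_pos _).le h (Nat.cast_nonneg _)

/-- the image of the group -/
def mapΓ (L : Type) [Field L] [Algebra K L] (Γ : Subgroup Kˣ) : Subgroup Lˣ :=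
  Γ.map (Units.map (algebraMap K L).toMonoidHom)

lemma mapΓ_fg {Γ : Subgroup Kˣ} (hΓ : Γ.FG) : (mapΓ L Γ).FG := by
  classical
  obtain ⟨T, hT⟩ := hΓ
  refine ⟨T.image (Units.map (algebraMap K L).toMonoidHom), ?_⟩
  rw [Finset.coe_image, ← MonoidHom.map_closure, hT]
  rfl

lemma mem_mapΓ {Γ : Subgroup Kˣ} {u : Kˣ} (hu : u ∈ Γ) :
    Units.map (algebraMap K L).toMonoidHom u ∈ mapΓ L Γ := ⟨u, hu, rfl⟩

variable {α : Type} {𝓕 : Ultrafilter α} {H : α → ℝ}

/-- descent of the field of constants -/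
theorem desc_ext {Γ : Subgroup Kˣ} {f : α → K}
    (h : Sp (cF 𝓕 L) (PG 𝓕 H (mapΓ L Γ)) (mk 𝓕 (fun t => algebraMap K L (f t)))) :
    Sp (cF 𝓕 K) (PG 𝓕 H Γ) (mk 𝓕 f) := by
  obtain ⟨n, u, c, hu, hs⟩ := h
  choose a ha1 ha2 ha3 using hu
  choose d hd using fun i => (c i).2
  choose b hb1 hb2 using ha2
  obtain ⟨π, hπ⟩ : ∃ π : L →ₗ[K] K, ∀ z : K, π (algebraMap K L z) = z := by
    obtain ⟨g, hg⟩ := (Algebra.linearMap K L).exists_leftInverse_of_injective
      (LinearMap.ker_eq_bot.2 (algebraMap K L).injective)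
    exact ⟨g, fun z => LinearMap.congr_fun hg z⟩
  have h1 : mk 𝓕 (fun t => algebraMap K L (f t)) =
      mk 𝓕 (fun t => ∑ i, (fun i (_ : α) => d i) i t * (a i t : L)) := by
    rw [hs, ← mk_sum (fun i (_ : α) => d i) (fun i t => (a i t : L))]
    refine Finset.sum_congr rfl fun i _ => ?_
    rw [ha1, ← hd i]
    rfl
  have h2 : ∀ᶠ t in (𝓕 : Filter α), f t = ∑ i, π (d i) * (b i t : K) := by
    filter_upwards [mk_eq.1 h1] with t ht
    have h3 := congrArg π ht
    rw [hπ, map_sum] at h3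
    rw [h3]
    refine Finset.sum_congr rfl fun i _ => ?_
    have h4 : (a i t : L) = algebraMap K L (b i t) := by
      rw [← hb2 i t]
      rfl
    rw [h4, mul_comm, ← Algebra.smul_def, map_smul, smul_eq_mul, mul_comm]
  have h5 : mk 𝓕 f = ∑ i, mk 𝓕 (fun _ => π (d i)) * mk 𝓕 (fun t => (b i t : K)) := by
    rw [mk_sum (fun i _ => π (d i)) (fun i t => (b i t : K))]
    exact mk_eq.2 h2
  rw [h5]
  refine Sp.sum _ _ fun i _ => Sp.smul (mem_cF _) (Sp.of ⟨b i, rfl, hb1 i, ?_⟩)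
  obtain ⟨C, hC⟩ := ha3 i
  refine ⟨C / finrank K L, ?_⟩
  filter_upwards [hC] with t ht
  have h4 : (a i t : L) = algebraMap K L (b i t) := by
    rw [← hb2 i t]
    rfl
  rw [h4, lh_ext] at ht
  have h6 : (0 : ℝ) < finrank K L := by exact_mod_cast finrank_pos
  rw [div_mul_eq_mul_div, le_div_iff₀ h6]
  linarith

end ext

variable {K : Type} [Field K] [NumberField K]

/-- the germs of the coordinates -/
theorem germM (n m k : ℕ) (B δ M : ℝ) (hδ : 0 < δ) (hM : 1 ≤ M) (Γ : Subgroup Kˣ) (hΓ : Γ.FG)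
    (v : Pl K) (F : Fin m → Polynomial (MvPolynomial (Fin n) K)) (hFm : ∀ i, (F i).Monic)
    (hq : ∀ i, (F i).natDegree ≠ 0) {𝓕 : Ultrafilter ℕ} (h : ℕ → ℝ) (h1 : ∀ t, 1 ≤ h t)
    (hH : Tendsto (fun t => Real.log (h t)) 𝓕 atTop) (x : ℕ → Fin n → K) (y : ℕ → Fin m → K)
    (hxs : ∀ t l, Sparse Γ k M (x t l)) (hxm : ∀ t l, mulHeight₁ (x t l) ≤ M * h t ^ B)
    (hnear : ∀ t i, Near Γ v B δ M (h t) (F i).natDegree ((F i).map (MvPolynomial.eval (x t))))
    (hyz : ∀ t i, ((F i).map (MvPolynomial.eval (x t))).eval (y t i) = 0) :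
    (∀ l, Sp (cF 𝓕 K) (PG 𝓕 (fun t => Real.log (h t)) Γ) (mk 𝓕 (fun t => x t l))) ∧
      ∀ i, Sp (cF 𝓕 K) (PG 𝓕 (fun t => Real.log (h t)) Γ) (mk 𝓕 (fun t => y t i)) := by
  obtain ⟨S, hS, hΓS, hvS⟩ := exists_S' Γ hΓ {v}
  have hv : v ∈ S := hvS (Finset.mem_singleton_self v)
  have hexp : ∀ t, Real.exp (Real.log (h t)) = h t := fun t =>
    Real.exp_log (by linarith [h1 t])
  have hneg : ∀ ε' : ℝ, 0 < ε' → ∀ᶠ t in (𝓕 : Filter ℕ),
      1 + Real.log M ≤ ε' * Real.log (h t) := by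
    intro ε' hε'
    filter_upwards [hH_le hH ((1 + Real.log M) / ε')] with t ht
    rw [div_le_iff₀ hε'] at ht
    linarith
  have hxI : ∀ l, AI 𝓕 (fun t => Real.log (h t)) S (fun t => x t l) := fun l =>
    sparse_AI hH hneg S Γ hΓS fun t => hxs t l
  have hyI : ∀ i, AI 𝓕 (fun t => Real.log (h t)) S (fun t => y t i) := by
    intro i
    refine AI.root hH (Nat.pos_of_ne_zero (hq i)) (fun j t =>
      MvPolynomial.eval (x t) ((F i).coeff j)) (fun j hj => ?_) (Eventually.of_forall fun t => ?_)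
    · exact AI.eval hH (D := ((F i).coeff j).totalDegree) (fun _ => (F i).coeff j)
        (fun t => le_rfl) (fun e => slow_const hH _) x hxI
    · have h2 := hyz t i
      rw [Polynomial.eval_eq_sum_range, ((hFm i).natDegree_map _), Finset.sum_range_succ,
        Polynomial.coeff_map, (hFm i).coeff_natDegree, map_one, one_mul, add_comm] at h2
      rw [← h2]
      congr 1
      refine Finset.sum_congr rfl fun j _ => ?_
      rw [Polynomial.coeff_map]
  exact germC hH n m k (fun i => (F i).natDegree)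
    (fun i => Nat.pos_of_ne_zero (hq i)) B δ M hδ hM Γ S hS hΓS v hv F (fun i => le_rfl)
    x y hxs (fun t l => by rw [hexp]; exact hxm t l)
    (fun t i => by rw [hexp]; exact hnear t i) hyz hyI

/-- After scaling the polynomial and the variable by elements of `Γ` of height at most `M h ^ B`,
the polynomial `F` is close at the place `v` to a separable polynomial of degree `q` which
has coefficients of height at most `M`. -/
def NearSep (Γ : Subgroup Kˣ) (v : Pl K) (B δ M h : ℝ) (q : ℕ) (F : Polynomial K) : Prop :=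
  ∃ (a z : Kˣ) (E : Polynomial K), a ∈ Γ ∧ z ∈ Γ ∧ E.natDegree = q ∧ E.Separable ∧
    (∀ j, mulHeight₁ (E.coeff j) ≤ M) ∧ mulHeight₁ (a : K) ≤ M * h ^ B ∧
    mulHeight₁ (z : K) ≤ M * h ^ B ∧
    ∀ j ≤ q, av v ((a : K) * (z : K) ^ j * F.coeff j - E.coeff j) ≤ M * h ^ (-δ)

/-- the germs of the coordinates; separable polynomials -/
theorem germS (n m k : ℕ) (B δ M : ℝ) (hδ : 0 < δ) (hM : 1 ≤ M) (Γ : Subgroup Kˣ) (hΓ : Γ.FG)
    (v : Pl K) (F : Fin m → Polynomial (MvPolynomial (Fin n) K)) (hFm : ∀ i, (F i).Monic)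
    (hq : ∀ i, (F i).natDegree ≠ 0) {𝓕 : Ultrafilter ℕ} (h : ℕ → ℝ) (h1 : ∀ t, 1 ≤ h t)
    (hH : Tendsto (fun t => Real.log (h t)) 𝓕 atTop) (x : ℕ → Fin n → K) (y : ℕ → Fin m → K)
    (hxs : ∀ t l, Sparse Γ k M (x t l)) (hxm : ∀ t l, mulHeight₁ (x t l) ≤ M * h t ^ B)
    (hnear : ∀ t i, NearSep Γ v B δ M (h t) (F i).natDegree
      ((F i).map (MvPolynomial.eval (x t))))
    (hyz : ∀ t i, ((F i).map (MvPolynomial.eval (x t))).eval (y t i) = 0) :
    (∀ l, Sp (cF 𝓕 K) (PG 𝓕 (fun t => Real.log (h t)) Γ) (mk 𝓕 (fun t => x t l))) ∧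
      ∀ i, Sp (cF 𝓕 K) (PG 𝓕 (fun t => Real.log (h t)) Γ) (mk 𝓕 (fun t => y t i)) := by
  classical
  choose a z E ha hz hEd hEs hEc ham hzm hcl using hnear
  have hpc : ∀ i, ∃ E0 : Polynomial K, ∀ᶠ t in (𝓕 : Filter ℕ), E t i = E0 := fun i =>
    poly_const (𝓕 := 𝓕) (fun t => E t i) (fun t => hEd t i) (fun t j => hEc t i j)
  choose E0 hE0 using hpc
  have hG : ∀ᶠ t in (𝓕 : Filter ℕ), ∀ i, E t i = E0 i := eventually_all.2 hE0
  obtain ⟨t0, ht0⟩ := hG.exists
  obtain ⟨φ, hφ1, hφ2⟩ : ∃ φ : ℕ → ℕ, (∀ t, ∀ i, E (φ t) i = E0 i) ∧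
      ∀ᶠ t in (𝓕 : Filter ℕ), φ t = t := by
    refine ⟨fun t => if ∀ i, E t i = E0 i then t else t0, fun t => ?_, ?_⟩
    · by_cases hc : ∀ i, E t i = E0 i
      · simp only [if_pos hc]
        exact hc
      · simp only [if_neg hc]
        exact ht0
    · filter_upwards [hG] with t ht
      rw [if_pos ht]
  -- the splitting field
  let L : Type := (∏ i, E0 i).SplittingField
  let _ : NumberField L := NumberField.of_module_finite K L
  have hE0n : ∀ i, E0 i ≠ 0 := fun i h0 => by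
    have h2 := hEs t0 i
    rw [ht0 i, h0] at h2
    exact Polynomial.not_separable_zero h2
  have hspl : ∀ i, ((E0 i).map (algebraMap K L)).Splits := by
    intro i
    have h2 : ((∏ i, E0 i).map (algebraMap K L)).Splits :=
      Polynomial.SplittingField.splits (∏ i, E0 i)
    have h3 : (∏ i, E0 i).map (algebraMap K L) ≠ 0 :=
      (Polynomial.map_ne_zero_iff (algebraMap K L).injective).2
        (Finset.prod_ne_zero_iff.2 fun i _ => hE0n i)
    exact h2.of_dvd h3 (Polynomial.map_dvd _ (Finset.dvd_prod_of_mem _ (Finset.mem_univ i)))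
  obtain ⟨w, c, hc, hw⟩ := exists_place (L := L) v
  obtain ⟨d, hd⟩ : ∃ d : ℝ, d = (finrank K L : ℝ) := ⟨_, rfl⟩
  have hd0 : 0 ≤ d := by rw [hd]; exact Nat.cast_nonneg _
  have hM0 : (0 : ℝ) ≤ M := by linarith
  have hMd : M ^ d ≤ M ^ (d + c) := Real.rpow_le_rpow_of_exponent_le hM (by linarith)
  have hMc : M ^ c ≤ M ^ (d + c) := Real.rpow_le_rpow_of_exponent_le hM (by linarith)
  have hM1 : 1 ≤ M ^ (d + c) := Real.one_le_rpow hM (by linarith)
  have hext : ∀ {Z : K} {X : ℝ}, mulHeight₁ Z ≤ X → mulHeight₁ (algebraMap K L Z) ≤ X ^ d := by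
    intro Z X hZ
    rw [hd]
    exact mh_ext_le hZ
  have hhp : ∀ t, 0 < h t := fun t => by linarith [h1 t]
  have hextB : ∀ {Z : K} (t : ℕ), mulHeight₁ Z ≤ M * h t ^ B →
      mulHeight₁ (algebraMap K L Z) ≤ M ^ (d + c) * h t ^ (B * d) := by
    intro Z t hZ
    refine (hext hZ).trans ?_
    rw [Real.mul_rpow hM0 (Real.rpow_pos_of_pos (hhp t) _).le, ← Real.rpow_mul (hhp t).le]
    exact mul_le_mul_of_nonneg_right hMd (Real.rpow_pos_of_pos (hhp t) _).le
  have hFq : ∀ i, ((F i).map (MvPolynomial.map (algebraMap K L))).natDegree = (F i).natDegree :=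
    fun i => (hFm i).natDegree_map _
  have hmm : ∀ (i : Fin m) (X : Fin n → K), ((F i).map (MvPolynomial.map (algebraMap K L))).map
      (MvPolynomial.eval (fun l => algebraMap K L (X l))) =
      ((F i).map (MvPolynomial.eval X)).map (algebraMap K L) := by
    intro i X
    rw [Polynomial.map_map, Polynomial.map_map]
    congr 1
    refine RingHom.ext fun Q => ?_
    rw [RingHom.comp_apply, RingHom.comp_apply, MvPolynomial.eval_map]
    have h2 := MvPolynomial.eval₂_comp_left (algebraMap K L) (RingHom.id K) X Q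
    rw [MvPolynomial.eval₂_id, RingHom.comp_id] at h2
    exact h2.symm
  have hres := germM n m k (B * d) (δ * c) (M ^ (d + c)) (mul_pos hδ hc) hM1 (mapΓ L Γ)
    (mapΓ_fg hΓ) w (fun i => (F i).map (MvPolynomial.map (algebraMap K L)))
    (fun i => (hFm i).map _) (fun i => by rw [hFq]; exact hq i) (𝓕 := 𝓕) (fun t => h (φ t))
    (fun t => h1 _) (hH.congr' (by
      filter_upwards [hφ2] with t ht
      rw [ht])) (fun t l => algebraMap K L (x (φ t) l)) (fun t i => algebraMap K L (y (φ t) i))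
    (fun t l => by
      obtain ⟨a', u', g1, g2, g3⟩ := hxs (φ t) l
      refine ⟨fun r => algebraMap K L (a' r), fun r => Units.map (algebraMap K L).toMonoidHom (u' r),
        fun r => (hext (g1 r)).trans hMd, fun r => mem_mapΓ (g2 r), ?_⟩
      rw [g3, map_sum]
      exact Finset.sum_congr rfl fun r _ => map_mul _ _ _)
    (fun t l => hextB _ (hxm (φ t) l))
    (fun t i => by
      refine ⟨Units.map (algebraMap K L).toMonoidHom (a (φ t) i),
        Units.map (algebraMap K L).toMonoidHom (z (φ t) i), (E0 i).map (algebraMap K L),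
        mem_mapΓ (ha _ _), mem_mapΓ (hz _ _), ?_, ?_, hspl i, fun j => ?_, hextB _ (ham _ _),
        hextB _ (hzm _ _), fun j hj => ?_⟩
      · rw [Polynomial.natDegree_map, hFq, ← hφ1 t i, hEd]
      · have h2 := hEs (φ t) i
        rw [hφ1 t i] at h2
        exact h2.map
      · rw [Polynomial.coeff_map]
        have h2 := hEc (φ t) i j
        rw [hφ1 t i] at h2
        exact (hext h2).trans hMd
      · rw [hmm, Polynomial.coeff_map (algebraMap K L), Polynomial.coeff_map (algebraMap K L)]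
        rw [hFq] at hj
        have h2 := hcl (φ t) i j hj
        rw [hφ1 t i] at h2
        have h3 : ((Units.map (algebraMap K L).toMonoidHom (a (φ t) i) : Lˣ) : L) *
            ((Units.map (algebraMap K L).toMonoidHom (z (φ t) i) : Lˣ) : L) ^ j *
            algebraMap K L (((F i).map (MvPolynomial.eval (x (φ t)))).coeff j) -
            algebraMap K L ((E0 i).coeff j) = algebraMap K L ((a (φ t) i : K) *
            (z (φ t) i : K) ^ j * ((F i).map (MvPolynomial.eval (x (φ t)))).coeff j -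
            (E0 i).coeff j) := by
          rw [map_sub, map_mul, map_mul, map_pow]
          rfl
        rw [h3, hw]
        refine (Real.rpow_le_rpow ((av v).nonneg _) h2 hc.le).trans ?_
        rw [Real.mul_rpow hM0 (Real.rpow_pos_of_pos (hhp _) _).le, ← Real.rpow_mul (hhp _).le,
          neg_mul]
        exact mul_le_mul_of_nonneg_right hMc (Real.rpow_pos_of_pos (hhp _) _).le)
    (fun t i => by
      rw [hmm, Polynomial.eval_map, Polynomial.eval₂_at_apply, hyz, map_zero])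
  -- change of the sequence
  have hPG : ∀ g : Gm 𝓕 K, PG 𝓕 (fun t => Real.log (h (φ t))) Γ g →
      PG 𝓕 (fun t => Real.log (h t)) Γ g := by
    rintro g ⟨b, hb1, hb2, C, hb3⟩
    refine ⟨b, hb1, hb2, C, ?_⟩
    filter_upwards [hb3, hφ2] with t e1 e2
    rwa [e2] at e1
  refine ⟨fun l => ?_, fun i => ?_⟩
  · have e1 := (desc_ext (f := fun t => x (φ t) l) (hres.1 l)).mono hPG
    have e2 : mk 𝓕 (fun t => x (φ t) l) = mk 𝓕 (fun t => x t l) := by
      rw [mk_eq]
      filter_upwards [hφ2] with t ht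
      rw [ht]
    rwa [e2] at e1
  · have e1 := (desc_ext (f := fun t => y (φ t) i) (hres.2 i)).mono hPG
    have e2 : mk 𝓕 (fun t => y (φ t) i) = mk 𝓕 (fun t => y t i) := by
      rw [mk_eq]
      filter_upwards [hφ2] with t ht
      rw [ht]
    rwa [e2] at e1

/-- **Points above sparse points near a separable point lie in finitely many families of values of
Laurent polynomials.** -/
theorem structureS (n m k : ℕ) (B δ M : ℝ) (hδ : 0 < δ) (Γ : Subgroup Kˣ) (hΓ : Γ.FG) (v : Pl K)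
    (I : Ideal (MvPolynomial (Fin n ⊕ Fin m) K))
    (F : Fin m → Polynomial (MvPolynomial (Fin n) K)) (hFm : ∀ i, (F i).Monic)
    (hFI : ∀ i, eqA (F i) i ∈ I) :
    ∃ 𝓣 : Set (Fam K (Fin n ⊕ Fin m)), 𝓣.Finite ∧
      (∀ P ∈ 𝓣, ∀ G ∈ I, MvPolynomial.aeval P.2 G = 0) ∧
      ∀ (x : Fin n → K) (y : Fin m → K) (h : ℝ), 1 ≤ h →
        (∀ G ∈ I, MvPolynomial.eval (Sum.elim x y) G = 0) →
        (∀ l, Sparse Γ k M (x l)) → (∀ l, mulHeight₁ (x l) ≤ M * h ^ B) →
        (∀ i, NearSep Γ v B δ M h (F i).natDegree ((F i).map (MvPolynomial.eval x))) →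
        ∃ P ∈ 𝓣, ∃ u : Fin P.1 → Kˣ, (∀ l, u l ∈ Γ) ∧
          ∀ i, Sum.elim x y i = evU u (P.2 i) := by
  classical
  have hroot : ∀ (x : Fin n → K) (y : Fin m → K),
      (∀ G ∈ I, MvPolynomial.eval (Sum.elim x y) G = 0) →
      ∀ i, ((F i).map (MvPolynomial.eval x)).eval (y i) = 0 := by
    intro x y hz i
    have h1 := hz _ (hFI i)
    have h2 := eval_eqA (RingHom.id K) (F i) i x y
    have h3 : MvPolynomial.eval₂Hom (RingHom.id K) x = MvPolynomial.eval x := by
      refine RingHom.ext fun P => ?_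
      rfl
    rw [h3] at h2
    rw [← h2]
    exact h1
  obtain ⟨M', hM', hMM'⟩ : ∃ M' : ℝ, 1 ≤ M' ∧ M ≤ M' := ⟨max 1 M, le_max_left _ _, le_max_right _ _⟩
  obtain ⟨Z, hZdef⟩ : ∃ Z : (Fin n ⊕ Fin m → K) → ℝ → Prop, Z = fun z h => 1 ≤ h ∧
      (∀ G ∈ I, MvPolynomial.eval z G = 0) ∧ (∀ l, Sparse Γ k M' (z (Sum.inl l))) ∧
      (∀ l, mulHeight₁ (z (Sum.inl l)) ≤ M' * h ^ B) ∧
      (∀ i, NearSep Γ v B δ M' h (F i).natDegree
        ((F i).map (MvPolynomial.eval fun l => z (Sum.inl l)))) := ⟨_, rfl⟩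
  have hse : ∀ z : Fin n ⊕ Fin m → K,
      Sum.elim (fun l => z (Sum.inl l)) (fun i => z (Sum.inr i)) = z := fun z => by
    funext i
    rcases i with l | i <;> rfl
  by_cases hq : ∃ i, (F i).natDegree = 0
  · obtain ⟨i0, hi0⟩ := hq
    refine ⟨∅, Set.finite_empty, fun P hP => absurd hP (Set.notMem_empty P), ?_⟩
    intro x y h _ hz _ _ _
    have h1 := hroot x y hz i0
    rw [(hFm i0).natDegree_eq_zero.1 hi0, Polynomial.map_one, Polynomial.eval_one] at h1
    exact absurd h1 one_ne_zero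
  push Not at hq
  obtain ⟨S, hS, hΓS, hvS⟩ := exists_S' Γ hΓ {v}
  obtain ⟨𝓣, hfin, hI, hall⟩ := fin_fam' (Γ := Γ) (I := I) (Z := Z)
    (fun z h hz => by
      rw [hZdef] at hz
      exact hz.2.1)
    (fin_fam Γ S hS hΓS I Z (fun z h hz => by
      rw [hZdef] at hz
      exact hz.2.1) (by
      intro z h hz hbig
      rw [hZdef] at hz
      simp only at hz
      choose h1 hzI hxs hxm hnear using hz
      have hH : Tendsto (fun t => Real.log (h t)) (hyperfilter ℕ : Filter ℕ) atTop := by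
        refine Tendsto.mono_left ?_ Nat.hyperfilter_le_atTop
        refine Real.tendsto_log_atTop.comp ?_
        exact tendsto_atTop_mono (fun t => (hbig t).le) tendsto_natCast_atTop_atTop
      obtain ⟨g1, g2⟩ := germS n m k B δ M' hδ hM' Γ hΓ v F hFm hq h h1 hH
        (fun t l => z t (Sum.inl l)) (fun t i => z t (Sum.inr i)) hxs hxm hnear
        (fun t i => hroot (fun l => z t (Sum.inl l)) (fun i => z t (Sum.inr i))
          (fun G hG => by rw [hse]; exact hzI t G hG) i)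
      intro i
      rcases i with l | i
      · exact g1 l
      · exact g2 i)) (by
      intro C
      have hfx : ({x : Fin n → K | ∀ l, mulHeight₁ (x l) ≤ M' * (max C 1) ^ |B|}).Finite := by
        have h1 : (Set.pi Set.univ (fun _ : Fin n =>
            {x : K | mulHeight₁ x ≤ M' * (max C 1) ^ |B|})).Finite :=
          Set.Finite.pi fun _ => Northcott.finite_le _
        refine h1.subset ?_
        intro x hx l _
        exact hx l
      refine (finite_above F hFm hfx).subset ?_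
      rintro z ⟨h, hh, hz⟩
      rw [hZdef] at hz
      obtain ⟨h1, h2, h3, h4, h5⟩ := hz
      refine ⟨fun l => (h4 l).trans ?_, ?_⟩
      · refine mul_le_mul_of_nonneg_left ?_ (by linarith)
        calc h ^ B ≤ h ^ |B| := Real.rpow_le_rpow_of_exponent_le h1 (le_abs_self B)
          _ ≤ (max C 1) ^ |B| := Real.rpow_le_rpow (by linarith) (hh.trans (le_max_left _ _))
              (abs_nonneg _)
      · exact hroot (fun l => z (Sum.inl l)) (fun i => z (Sum.inr i))
          (fun G hG => by rw [hse]; exact h2 G hG))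
  refine ⟨𝓣, hfin, hI, fun x y h h1 hz hxs hxm hnear => ?_⟩
  refine hall (Sum.elim x y) h ?_
  rw [hZdef]
  have hM0 : 0 ≤ h ^ B := (Real.rpow_pos_of_pos (by linarith) _).le
  refine ⟨h1, hz, fun l => ?_, fun l => ?_, fun i => ?_⟩
  · obtain ⟨a, u, h2, h3, h4⟩ := hxs l
    exact ⟨a, u, fun r => (h2 r).trans hMM', h3, h4⟩
  · exact (hxm l).trans (mul_le_mul_of_nonneg_right hMM' hM0)
  · obtain ⟨a, z, E, h2, h3, h4, h5, h7, h8, h9, h10⟩ := hnear i
    exact ⟨a, z, E, h2, h3, h4, h5, fun j => (h7 j).trans hMM',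
      h8.trans (mul_le_mul_of_nonneg_right hMM' hM0),
      h9.trans (mul_le_mul_of_nonneg_right hMM' hM0), fun j hj => (h10 j hj).trans
      (mul_le_mul_of_nonneg_right hMM' (Real.rpow_pos_of_pos (by linarith) _).le)⟩

end Pool.Agent.Run7.h28.ST
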