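import Mathlib
import Pool.Agent.Run7.h28.ST.Ext
import Pool.Agent.Run7.h28.BV.UNear

/-!
# Project ST (helper28): unirational varieties have many sparse points near every general point
-/

set_option autoImplicit false
set_option linter.unusedSectionVars false

open Filter Topology

namespace Pool.Agent.Run7.h28.ST

open NumberField IsDedekindDomain Height Module
open Pool.Agent.W180.OP (Pl av wt nrm le_nrm nrm_pos wt_nonneg exists_nrm nrm_nonneg)
open Pool.Agent.N750
open Pool.Agent.Run7.h28.HK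
open Pool.Agent.Run7.h28.BV

section laurent

variable {K : Type} [Field K] [CharZero K]

lemma two_zpow_inj {a b : ℤ} (h : (2 : K) ^ a = 2 ^ b) : a = b := by
  have h1 : (((2 : ℚ) ^ a : ℚ) : K) = (((2 : ℚ) ^ b : ℚ) : K) := by
    push_cast
    exact h
  have h2 : (2 : ℚ) ^ a = 2 ^ b := by exact_mod_cast h1
  exact zpow_right_injective₀ (by norm_num) (by norm_num) h2

/-- the character of a monomial -/
def chr {r : ℕ} (m : Fin r → ℤ) : (Fin r → Kˣ) →* K where
  toFun u := ((∏ l, u l ^ m l : Kˣ) : K)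
  map_one' := by simp
  map_mul' u w := by
    rw [← Units.val_mul, ← Finset.prod_mul_distrib]
    congr 1
    exact Finset.prod_congr rfl fun l _ => mul_zpow _ _ _

lemma chr_inj {r : ℕ} : Function.Injective (chr (K := K) (r := r)) := by
  classical
  intro m m' h
  funext l
  obtain ⟨b, hb⟩ : ∃ b : Kˣ, (b : K) = 2 := ⟨Units.mk0 2 two_ne_zero, rfl⟩
  have h1 := DFunLike.congr_fun h (Pi.mulSingle l b)
  have h2 : ∀ m : Fin r → ℤ, chr (K := K) m (Pi.mulSingle l b) = 2 ^ m l := by
    intro m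
    show ((∏ i, (Pi.mulSingle l b : Fin r → Kˣ) i ^ m i : Kˣ) : K) = _
    rw [Finset.prod_eq_single l]
    · rw [Pi.mulSingle_eq_same, Units.val_zpow_eq_zpow_val, hb]
    · intro i _ hi
      rw [Pi.mulSingle_eq_of_ne hi, one_zpow]
    · intro hl
      exact absurd (Finset.mem_univ l) hl
  rw [h2, h2] at h1
  exact two_zpow_inj h1

/-- a Laurent polynomial which vanishes everywhere is zero -/
lemma laurent_zero {r : ℕ} (P : Lau K r) (h : ∀ u : Fin r → Kˣ, evU u P = 0) : P = 0 := by
  classical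
  have h1 : LinearIndependent K (fun m : Fin r → ℤ => ((chr (K := K) m : (Fin r → Kˣ) →* K) :
      (Fin r → Kˣ) → K)) :=
    (linearIndependent_monoidHom (Fin r → Kˣ) K).comp (chr (K := K)) chr_inj
  rw [linearIndependent_iff'] at h1
  have h2 := h1 P.coeff.support (fun m => P.coeff m) (by
    funext u
    rw [Finset.sum_apply]
    have h3 := h u
    rw [evU_eq] at h3
    exact h3)
  by_contra hP
  obtain ⟨m, hm⟩ : P.coeff.support.Nonempty := by
    rw [Finsupp.support_nonempty_iff]
    intro h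
    apply hP
    rw [← AddMonoidAlgebra.coeff_inj, h]
    rfl
  exact (Finsupp.mem_support_iff.1 hm) (h2 m hm)

/-- clearing denominators -/
lemma clear_den {r : ℕ} {σ : Type} [Fintype σ] (P : σ → Lau K r) :
    ∃ (N : Fin r → ℕ) (Q : σ → MvPolynomial (Fin r) K), ∀ (u : Fin r → Kˣ) (i : σ),
      MvPolynomial.eval (fun l => (u l : K)) (Q i) = ((∏ l, u l ^ N l : Kˣ) : K) * evU u (P i) := by
  classical
  obtain ⟨N, hN⟩ : ∃ N : Fin r → ℕ, ∀ i, ∀ m ∈ (P i).coeff.support, ∀ l, 0 ≤ m l + N l := by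
    refine ⟨fun l => ∑ i, ∑ m ∈ (P i).coeff.support, (m l).natAbs, fun i m hm l => ?_⟩
    have h1 : (m l).natAbs ≤ ∑ m ∈ (P i).coeff.support, (m l).natAbs :=
      Finset.single_le_sum (f := fun m : Fin r → ℤ => (m l).natAbs)
        (fun _ _ => Nat.zero_le _) hm
    have h2 : ∑ m ∈ (P i).coeff.support, (m l).natAbs ≤
        ∑ i, ∑ m ∈ (P i).coeff.support, (m l).natAbs :=
      Finset.single_le_sum (f := fun i => ∑ m ∈ (P i).coeff.support, (m l).natAbs)
        (fun _ _ => Nat.zero_le _) (Finset.mem_univ i)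
    beta_reduce
    omega
  refine ⟨N, fun i => ∑ m ∈ (P i).coeff.support,
    MvPolynomial.monomial (Finsupp.equivFunOnFinite.symm fun l => (m l + N l).toNat)
      ((P i).coeff m), fun u i => ?_⟩
  rw [map_sum, evU_eq, Finset.mul_sum]
  refine Finset.sum_congr rfl fun m hm => ?_
  rw [MvPolynomial.eval_monomial, Finsupp.prod_fintype _ _ (fun l => pow_zero _)]
  have h1 : ∀ l, (u l : K) ^ (m l + N l).toNat = ((u l ^ N l * u l ^ m l : Kˣ) : K) := by
    intro l
    have h2 : u l ^ N l * u l ^ m l = u l ^ (m l + N l).toNat := by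
      rw [← zpow_natCast, ← zpow_add, ← zpow_natCast]
      congr 1
      have := hN i m hm l
      omega
    rw [h2, Units.val_pow_eq_pow_val]
  have h3 : ∏ l, (u l : K) ^ (Finsupp.equivFunOnFinite.symm fun l => (m l + N l).toNat) l =
      ((∏ l, u l ^ N l : Kˣ) : K) * ((∏ l, u l ^ m l : Kˣ) : K) := by
    rw [← Units.val_mul, ← Finset.prod_mul_distrib, Units.coe_prod]
    exact Finset.prod_congr rfl fun l _ => h1 l
  rw [h3]
  ring

/-- a polynomial which vanishes on the torus is zero -/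
lemma poly_zero {r : ℕ} (q : MvPolynomial (Fin r) K)
    (h : ∀ u : Fin r → Kˣ, MvPolynomial.eval (fun l => (u l : K)) q = 0) : q = 0 := by
  classical
  have h1 : q * ∏ l, MvPolynomial.X l = 0 := by
    refine MvPolynomial.funext fun x => ?_
    rw [map_mul, map_zero, map_prod]
    by_cases hx : ∃ l, x l = 0
    · obtain ⟨l, hl⟩ := hx
      rw [Finset.prod_eq_zero (Finset.mem_univ l) (by rw [MvPolynomial.eval_X, hl]), mul_zero]
    · push Not at hx
      have h2 := h fun l => Units.mk0 (x l) (hx l)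
      simp only [Units.val_mk0] at h2
      rw [h2, zero_mul]
  rcases mul_eq_zero.1 h1 with h2 | h2
  · exact h2
  · exact absurd h2 (Finset.prod_ne_zero_iff.2 fun l _ => MvPolynomial.X_ne_zero l)

end laurent

section uni

variable {K : Type} [Field K]

/-- a form at a multiple of a point -/
lemma eval_smul {σ : Type} {G : MvPolynomial σ K} {e : ℕ} (hG : G.IsHomogeneous e) (c : K)
    (z : σ → K) : MvPolynomial.eval (fun i => c * z i) G = c ^ e * MvPolynomial.eval z G := by
  rw [MvPolynomial.eval_eq, MvPolynomial.eval_eq, Finset.mul_sum]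
  refine Finset.sum_congr rfl fun m hm => ?_
  have h1 : ∑ i ∈ m.support, m i = e := by
    have h2 := hG (MvPolynomial.mem_support_iff.1 hm)
    rw [Finsupp.weight_apply, Finsupp.sum] at h2
    simpa using h2
  simp only [mul_pow]
  rw [Finset.prod_mul_distrib, Finset.prod_pow_eq_pow_sum, h1]
  ring

/-- the image of a polynomial map lies on the cone over the variety and is dense in the variety -/
def Unir {σ : Type} (I : Ideal (MvPolynomial σ K)) : Prop :=
  ∃ (r : ℕ) (Q : σ → MvPolynomial (Fin r) K), (∀ G ∈ I, MvPolynomial.aeval Q G = 0) ∧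
    ∀ G : MvPolynomial σ K, (∃ e, G.IsHomogeneous e) → MvPolynomial.aeval Q G = 0 → G ∈ I

/-- from tori to affine spaces -/
theorem unir_of_torus [CharZero K] {σ : Type} [Fintype σ] {I : Ideal (MvPolynomial σ K)}
    (hI : ∀ G ∈ I, ∀ e, MvPolynomial.homogeneousComponent e G ∈ I) {r : ℕ} (P : σ → Lau K r)
    (h1 : ∀ G ∈ I, MvPolynomial.aeval P G = 0)
    (h2 : ∀ G : MvPolynomial σ K, (∃ e, G.IsHomogeneous e) → MvPolynomial.aeval P G = 0 → G ∈ I)
    (hev : ∀ (u : Fin r → Kˣ) (G : MvPolynomial σ K),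
      evU u (MvPolynomial.aeval P G) = MvPolynomial.eval (fun i => evU u (P i)) G) :
    Unir I := by
  classical
  obtain ⟨N, Q, hQ⟩ := clear_den P
  have hQe : ∀ (u : Fin r → Kˣ) (G : MvPolynomial σ K),
      MvPolynomial.eval (fun l => (u l : K)) (MvPolynomial.aeval Q G) =
      MvPolynomial.eval (fun i => ((∏ l, u l ^ N l : Kˣ) : K) * evU u (P i)) G := by
    intro u G
    have e1 : (MvPolynomial.aeval (fun l => (u l : K)) : MvPolynomial (Fin r) K →ₐ[K] K).comp
        (MvPolynomial.aeval Q) = MvPolynomial.aeval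
        (fun i => ((∏ l, u l ^ N l : Kˣ) : K) * evU u (P i)) := by
      refine MvPolynomial.algHom_ext fun i => ?_
      rw [AlgHom.comp_apply, MvPolynomial.aeval_X, MvPolynomial.aeval_X,
        MvPolynomial.aeval_eq_eval]
      exact hQ u i
    have e2 := congrArg (fun f : MvPolynomial σ K →ₐ[K] K => f G) e1
    simp only [AlgHom.comp_apply] at e2
    rw [MvPolynomial.aeval_eq_eval, MvPolynomial.aeval_eq_eval] at e2
    exact e2
  refine ⟨r, Q, fun G hG => ?_, fun G hG h0 => ?_⟩
  · refine poly_zero _ fun u => ?_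
    rw [hQe, ← MvPolynomial.sum_homogeneousComponent G, map_sum]
    refine Finset.sum_eq_zero fun e _ => ?_
    rw [eval_smul (MvPolynomial.homogeneousComponent_isHomogeneous e G), ← hev,
      h1 _ (hI G hG e), map_zero, mul_zero]
  · refine h2 G hG (laurent_zero _ fun u => ?_)
    obtain ⟨e, he⟩ := hG
    have e1 := hQe u G
    rw [h0, map_zero, eval_smul he, ← hev] at e1
    rcases mul_eq_zero.1 e1.symm with e2 | e2
    · exact absurd e2 (pow_ne_zero _ (Units.ne_zero _))
    · exact e2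

end uni

variable {K : Type} [Field K] [NumberField K]

/-- a small element -/
lemma exists_small (v : Pl K) : ∃ π : K, π ≠ 0 ∧ av v π < 1 := by
  rcases v with w | v
  · refine ⟨2⁻¹, inv_ne_zero two_ne_zero, ?_⟩
    rw [map_inv₀]
    have h3 : av (Sum.inl w : Pl K) 2 = 2 := by
      show w 2 = 2
      rw [← InfinitePlace.norm_embedding_eq w, map_ofNat]
      exact Complex.norm_ofNat 2
    rw [h3]
    norm_num
  · obtain ⟨a, ha1, ha2⟩ := Submodule.exists_mem_ne_zero_of_ne_bot v.ne_bot
    refine ⟨(a : K), RingOfIntegers.coe_ne_zero_iff.2 ha2, ?_⟩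
    exact (FinitePlace.norm_lt_one_iff_mem K v a).2 ha1

/-- Lipschitz property -/
lemma close_poly {n : ℕ} (P : MvPolynomial (Fin n) K) (c : Fin n → K) (M : ℝ) :
    ∃ C : ℝ, 1 ≤ C ∧ ∀ (v : Pl K) (θ : ℝ) (x : Fin n → K), 0 ≤ θ → θ ≤ 1 →
      (∀ l, av v (x l - c l) ≤ M * θ) →
      av v (MvPolynomial.eval x P - MvPolynomial.eval c P) ≤ C * θ := by
  classical
  obtain ⟨R, hR⟩ : ∃ R : ℝ, R = 1 + |M| + ∑ l, mulHeight₁ (c l) +
      ∑ e ∈ P.support, mulHeight₁ (P.coeff e) := ⟨_, rfl⟩
  have e1 : 0 ≤ ∑ l, mulHeight₁ (c l) := Finset.sum_nonneg fun l _ => (mulHeight₁_pos _).le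
  have e2 : 0 ≤ ∑ e ∈ P.support, mulHeight₁ (P.coeff e) :=
    Finset.sum_nonneg fun l _ => (mulHeight₁_pos _).le
  have e3 := abs_nonneg M
  have e4 := le_abs_self M
  have hR1 : 1 ≤ R := by linarith
  obtain ⟨W, hWdef⟩ : ∃ W : ℝ, W = 2 ^ (totalWeight K) * (2 * R) := ⟨_, rfl⟩
  have h2 : (1 : ℝ) ≤ 2 ^ (totalWeight K) := one_le_pow₀ (by norm_num)
  have hW : 2 ^ (totalWeight K) ≤ W := by
    rw [hWdef]
    exact le_mul_of_one_le_right (by linarith) (by linarith)
  have hRW : 2 * R ≤ W := by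
    rw [hWdef]
    exact le_mul_of_one_le_left (by linarith) h2
  have hW1 : 1 ≤ W := by linarith
  obtain ⟨N, hN⟩ : ∃ N : ℕ, N = ∑ e ∈ P.support,
      ((1 + (∑ l, (e l * (1 + 1) + 1)) + 1) + 1) := ⟨_, rfl⟩
  refine ⟨W ^ N, one_le_pow₀ hW1, fun v θ x hθ hθ1 hx => ?_⟩
  have hc : ∀ l, mulHeight₁ (c l) ≤ R := fun l => by
    have : mulHeight₁ (c l) ≤ ∑ l, mulHeight₁ (c l) :=
      Finset.single_le_sum (f := fun l => mulHeight₁ (c l))
        (fun _ _ => (mulHeight₁_pos _).le) (Finset.mem_univ l)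
    linarith
  have hq : ∀ l, QQ v W θ 1 (x l) (c l) := by
    intro l
    refine ⟨?_, ?_, ?_⟩
    · rw [pow_one]
      linarith [hc l]
    · rw [pow_one]
      have h3 : av v (x l) ≤ av v (x l - c l) + av v (c l) := by
        have := (av v).add_le (x l - c l) (c l)
        rwa [sub_add_cancel] at this
      have h4 := (av_le_ht v (c l)).trans (hc l)
      have h5 : M * θ ≤ R := by
        have : M * θ ≤ |M| * 1 := by
          refine (mul_le_mul_of_nonneg_right e4 hθ).trans ?_
          exact mul_le_mul_of_nonneg_left hθ1 e3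
        linarith
      linarith [hx l]
    · rw [pow_one]
      refine (hx l).trans (mul_le_mul_of_nonneg_right ?_ hθ)
      linarith
  have hP : QQ v W θ N (∑ e ∈ P.support, P.coeff e * ∏ l, x l ^ e l)
      (∑ e ∈ P.support, P.coeff e * ∏ l, c l ^ e l) := by
    rw [hN]
    refine QQ.sum hW hθ _ (fun e : Fin n →₀ ℕ => 1 + (∑ l, (e l * (1 + 1) + 1)) + 1) _ _
      fun e he => ?_
    refine QQ.mul hW hθ ?_ (QQ.prod hW hθ _ (fun l => e l * (1 + 1)) _ _ fun l _ =>
      (hq l).pow hW hθ (e l))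
    refine QQ.same hW hθ ?_
    rw [pow_one]
    have : mulHeight₁ (P.coeff e) ≤ ∑ e ∈ P.support, mulHeight₁ (P.coeff e) :=
      Finset.single_le_sum (f := fun e => mulHeight₁ (P.coeff e))
        (fun _ _ => (mulHeight₁_pos _).le) he
    linarith
  rw [MvPolynomial.eval_eq', MvPolynomial.eval_eq']
  exact hP.cl

/-- points close to a fixed point are near -/
theorem near_fixed {n : ℕ} (F : Polynomial (MvPolynomial (Fin n) K)) (c : Fin n → K) (M : ℝ)
    (hd : (F.map (MvPolynomial.eval c)).natDegree = F.natDegree)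
    (hs : (F.map (MvPolynomial.eval c)).Separable) : ∃ M' : ℝ, 1 ≤ M' ∧
      ∀ (Γ : Subgroup Kˣ) (v : Pl K) (B δ h : ℝ) (x : Fin n → K), 0 ≤ B → 0 ≤ δ → 1 ≤ h →
        (∀ l, av v (x l - c l) ≤ M * h ^ (-δ)) →
        NearSep Γ v B δ M' h F.natDegree (F.map (MvPolynomial.eval x)) := by
  classical
  choose C hC1 hC using fun j => close_poly (F.coeff j) c M
  obtain ⟨R, hR⟩ : ∃ R : ℝ, R = 1 + ∑ j ∈ Finset.range (F.natDegree + 1), C j +
    ∑ j ∈ Finset.range (F.natDegree + 1), mulHeight₁ ((F.map (MvPolynomial.eval c)).coeff j) :=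
    ⟨_, rfl⟩
  have e1 : 0 ≤ ∑ j ∈ Finset.range (F.natDegree + 1), C j :=
    Finset.sum_nonneg fun j _ => by linarith [hC1 j]
  have e2 : 0 ≤ ∑ j ∈ Finset.range (F.natDegree + 1),
      mulHeight₁ ((F.map (MvPolynomial.eval c)).coeff j) :=
    Finset.sum_nonneg fun l _ => (mulHeight₁_pos _).le
  have hR1 : 1 ≤ R := by linarith
  refine ⟨R, hR1, fun Γ v B δ h x hB hδ hh hx => ?_⟩
  have hhB : 1 ≤ h ^ B := Real.one_le_rpow hh hB
  have h1R : mulHeight₁ ((1 : Kˣ) : K) ≤ R * h ^ B := by
    rw [Units.val_one, mulHeight₁_one]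
    nlinarith
  refine ⟨1, 1, F.map (MvPolynomial.eval c), Γ.one_mem, Γ.one_mem, hd, hs, fun j => ?_, h1R, h1R,
    fun j hj => ?_⟩
  · by_cases hj : j ∈ Finset.range (F.natDegree + 1)
    · have : mulHeight₁ ((F.map (MvPolynomial.eval c)).coeff j) ≤
          ∑ j ∈ Finset.range (F.natDegree + 1),
            mulHeight₁ ((F.map (MvPolynomial.eval c)).coeff j) := Finset.single_le_sum
        (f := fun j => mulHeight₁ ((F.map (MvPolynomial.eval c)).coeff j))
        (fun _ _ => (mulHeight₁_pos _).le) hj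
      linarith
    · rw [Polynomial.coeff_eq_zero_of_natDegree_lt (by
        rw [hd]
        rw [Finset.mem_range] at hj
        omega)]
      have : mulHeight₁ (0 : K) = 1 := mulHeight₁_zero
      linarith
  · rw [Units.val_one, one_pow, one_mul, one_mul, Polynomial.coeff_map, Polynomial.coeff_map]
    refine (hC j v (h ^ (-δ)) x (Real.rpow_pos_of_pos (by linarith) _).le
      (Real.rpow_le_one_of_one_le_of_nonpos hh (by linarith)) hx).trans ?_
    refine mul_le_mul_of_nonneg_right ?_ (Real.rpow_pos_of_pos (by linarith) _).le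
    have : C j ≤ ∑ j ∈ Finset.range (F.natDegree + 1), C j :=
      Finset.single_le_sum (f := fun j => C j) (fun j _ => by linarith [hC1 j])
        (Finset.mem_range.2 (Nat.lt_succ_of_le hj))
    linarith

/-- padding -/
lemma sparse_pad {Γ : Subgroup Kˣ} {k : ℕ} {M : ℝ} (hM : 1 ≤ M) {ι : Type} (A : Finset ι)
    (hA : A.card ≤ k) (c : ι → K) (u : ι → Kˣ) (hc : ∀ i, mulHeight₁ (c i) ≤ M)
    (hu : ∀ i, u i ∈ Γ) : Sparse Γ k M (∑ i ∈ A, c i * (u i : K)) := by
  classical
  let ε := A.equivFin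
  refine ⟨fun r => if h : (r : ℕ) < A.card then c (ε.symm ⟨r, h⟩) else 0,
    fun r => if h : (r : ℕ) < A.card then u (ε.symm ⟨r, h⟩) else 1, fun r => ?_, fun r => ?_, ?_⟩
  · by_cases h : (r : ℕ) < A.card
    · simp only [dif_pos h]
      exact hc _
    · simp only [dif_neg h]
      rw [mulHeight₁_zero]
      exact hM
  · by_cases h : (r : ℕ) < A.card
    · simp only [dif_pos h]
      exact hu _
    · simp only [dif_neg h]
      exact Γ.one_mem
  · obtain ⟨d, hd⟩ := Nat.exists_eq_add_of_le hA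
    subst hd
    rw [Fin.sum_univ_add]
    have h2 : ∑ i : Fin d, (if h : ((Fin.natAdd A.card i : Fin (A.card + d)) : ℕ) < A.card then
        c (ε.symm ⟨_, h⟩) else 0) * (((if h : ((Fin.natAdd A.card i : Fin (A.card + d)) : ℕ) <
        A.card then u (ε.symm ⟨_, h⟩) else 1) : Kˣ) : K) = 0 := by
      refine Finset.sum_eq_zero fun i _ => ?_
      have h3 : ¬ ((Fin.natAdd A.card i : Fin (A.card + d)) : ℕ) < A.card := by
        simp
      rw [dif_neg h3, zero_mul]
    rw [h2, add_zero, ← Finset.sum_coe_sort A, ← Equiv.sum_comp ε.symm]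
    refine Finset.sum_congr rfl fun i _ => ?_
    have h3 : ((Fin.castAdd d i : Fin (A.card + d)) : ℕ) < A.card := i.2
    beta_reduce
    rw [dif_pos h3, dif_pos h3]
    rfl

/-- the height of a value -/
lemma ht_value {r : ℕ} (P : MvPolynomial (Fin r) K) (π : K) : ∃ A B : ℝ, 0 ≤ B ∧
    ∀ (N : ℕ) (a : Fin r → ℕ), (∀ j, a j ≤ 2 * N) →
      logHeight₁ (MvPolynomial.eval (fun j => π ^ a j) P) ≤ A + B * N := by
  classical
  refine ⟨totalWeight K * Real.log P.support.card + ∑ e ∈ P.support, logHeight₁ (P.coeff e),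
    ∑ e ∈ P.support, 2 * (∑ j, e j : ℕ) * logHeight₁ π, ?_, fun N a ha => ?_⟩
  · exact Finset.sum_nonneg fun e _ => mul_nonneg (by positivity) (zero_le_logHeight₁ _)
  · rw [MvPolynomial.eval_eq']
    refine (logHeight₁_sum_le _ _).trans ?_
    rw [add_assoc, Finset.sum_mul, ← Finset.sum_add_distrib]
    refine add_le_add le_rfl (Finset.sum_le_sum fun e _ => ?_)
    refine (logHeight₁_mul_le _ _).trans (add_le_add le_rfl ?_)
    have h1 : ∏ j, (π ^ a j) ^ e j = π ^ (∑ j, a j * e j) := by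
      rw [← Finset.prod_pow_eq_pow_sum]
      exact Finset.prod_congr rfl fun j _ => (pow_mul _ _ _).symm
    rw [h1, logHeight₁_pow]
    have h2 : ∑ j, a j * e j ≤ (2 * N) * ∑ j, e j := by
      rw [Finset.mul_sum]
      exact Finset.sum_le_sum fun j _ => Nat.mul_le_mul_right _ (ha j)
    have h3 : ((∑ j, a j * e j : ℕ) : ℝ) ≤ 2 * N * (∑ j, e j : ℕ) := by exact_mod_cast h2
    calc ((∑ j, a j * e j : ℕ) : ℝ) * logHeight₁ π ≤ 2 * N * (∑ j, e j : ℕ) * logHeight₁ π :=
          mul_le_mul_of_nonneg_right h3 (zero_le_logHeight₁ _)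
      _ = _ := by ring

/-- **Unirational varieties have many sparse points near a general point.** -/
theorem conv_dense {n m : ℕ} (v : Pl K) (I : Ideal (MvPolynomial (Fin n ⊕ Fin m) K))
    (hI : Unir I) (D : MvPolynomial (Fin n ⊕ Fin m) K) (hD : ∃ e, D.IsHomogeneous e)
    (hDI : D ∉ I) :
    ∃ (c : Fin n → K) (y0 : Fin m → K), (∀ G ∈ I, MvPolynomial.eval (Sum.elim c y0) G = 0) ∧
      MvPolynomial.eval (Sum.elim c y0) D ≠ 0 ∧ ∃ Γ : Subgroup Kˣ, Γ.FG ∧ ∃ (k : ℕ) (M δ : ℝ),
        1 ≤ M ∧ 0 < δ ∧ ∀ G : MvPolynomial (Fin n ⊕ Fin m) K, (∃ e, G.IsHomogeneous e) →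
          (∀ x y, (∀ G' ∈ I, MvPolynomial.eval (Sum.elim x y) G' = 0) →
            (∀ l, Sparse Γ k M (x l)) →
            (∀ l, av v (x l - c l) ≤ M * (∏ l, mulHeight₁ (x l)) ^ (-δ)) →
            MvPolynomial.eval (Sum.elim x y) G = 0) → G ∈ I := by
  classical
  obtain ⟨r, Q, hQ1, hQ2⟩ := hI
  obtain ⟨π, hπ0, hπ1⟩ := exists_small v
  have hπp : 0 < av v π := (av v).pos hπ0
  -- the general point
  obtain ⟨t0, ht0⟩ : ∃ t0 : Fin r → K, MvPolynomial.eval t0 (MvPolynomial.aeval Q D) ≠ 0 := by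
    by_contra hcon
    push Not at hcon
    refine hDI (hQ2 D hD (MvPolynomial.funext fun x => ?_))
    rw [hcon x, map_zero]
  obtain ⟨P, hP⟩ : ∃ P : Fin n ⊕ Fin m → MvPolynomial (Fin r) K,
      P = fun i => MvPolynomial.aeval (fun j => MvPolynomial.X j + MvPolynomial.C (t0 j)) (Q i) :=
    ⟨_, rfl⟩
  have hPe : ∀ (u : Fin r → K) i, MvPolynomial.eval u (P i) =
      MvPolynomial.eval (fun j => u j + t0 j) (Q i) := by
    intro u i
    have e1 : (MvPolynomial.aeval u : MvPolynomial (Fin r) K →ₐ[K] K).comp (MvPolynomial.aeval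
        (fun j => (MvPolynomial.X j + MvPolynomial.C (t0 j) : MvPolynomial (Fin r) K))) =
        MvPolynomial.aeval (fun j => u j + t0 j) := by
      refine MvPolynomial.algHom_ext fun j => ?_
      rw [AlgHom.comp_apply, MvPolynomial.aeval_X, MvPolynomial.aeval_X, map_add,
        MvPolynomial.aeval_X, MvPolynomial.aeval_C]
      rfl
    have e2 := congrArg (fun f : MvPolynomial (Fin r) K →ₐ[K] K => f (Q i)) e1
    simp only [AlgHom.comp_apply] at e2
    rw [MvPolynomial.aeval_eq_eval, MvPolynomial.aeval_eq_eval] at e2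
    rw [hP]
    exact e2
  have hae : ∀ (q : Fin n ⊕ Fin m → MvPolynomial (Fin r) K) (u : Fin r → K)
      (G : MvPolynomial (Fin n ⊕ Fin m) K), MvPolynomial.eval u (MvPolynomial.aeval q G) =
      MvPolynomial.eval (fun i => MvPolynomial.eval u (q i)) G := by
    intro q u G
    have e1 : (MvPolynomial.aeval u : MvPolynomial (Fin r) K →ₐ[K] K).comp
        (MvPolynomial.aeval q) = MvPolynomial.aeval (fun i => MvPolynomial.eval u (q i)) := by
      refine MvPolynomial.algHom_ext fun i => ?_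
      rw [AlgHom.comp_apply, MvPolynomial.aeval_X, MvPolynomial.aeval_X,
        MvPolynomial.aeval_eq_eval]
    have e2 := congrArg (fun f : MvPolynomial (Fin n ⊕ Fin m) K →ₐ[K] K => f G) e1
    simp only [AlgHom.comp_apply] at e2
    rw [MvPolynomial.aeval_eq_eval, MvPolynomial.aeval_eq_eval] at e2
    exact e2
  have hse : ∀ z : Fin n ⊕ Fin m → K,
      Sum.elim (fun l => z (Sum.inl l)) (fun i => z (Sum.inr i)) = z := fun z => by
    funext i
    rcases i with l | i <;> rfl
  have hmem : ∀ (t : Fin r → K) (G : MvPolynomial (Fin n ⊕ Fin m) K), G ∈ I →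
      MvPolynomial.eval (fun i => MvPolynomial.eval t (Q i)) G = 0 := by
    intro t G hG
    rw [← hae, hQ1 G hG, map_zero]
  refine ⟨fun l => MvPolynomial.eval t0 (Q (Sum.inl l)),
    fun i => MvPolynomial.eval t0 (Q (Sum.inr i)), fun G hG => ?_, ?_, ?_⟩
  · rw [hse fun i => MvPolynomial.eval t0 (Q i)]
    exact hmem t0 G hG
  · rw [hse fun i => MvPolynomial.eval t0 (Q i), ← hae]
    exact ht0
  -- the group
  obtain ⟨b, hb⟩ : ∃ b : Kˣ, (b : K) = π := ⟨Units.mk0 π hπ0, rfl⟩
  choose A B hB hAB using fun l => ht_value (P (Sum.inl l)) π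
  choose C hC1 hC using fun l => close_poly (P (Sum.inl l)) (fun _ => 0) 1
  obtain ⟨A', hA'⟩ : ∃ A' : ℝ, A' = ∑ l, A l := ⟨_, rfl⟩
  obtain ⟨B', hB'⟩ : ∃ B' : ℝ, B' = ∑ l, B l := ⟨_, rfl⟩
  have hB'0 : 0 ≤ B' := by
    rw [hB']
    exact Finset.sum_nonneg fun l _ => hB l
  obtain ⟨κ, hκ⟩ : ∃ κ : ℝ, κ = -Real.log (av v π) := ⟨_, rfl⟩
  have hκ0 : 0 < κ := by
    rw [hκ]
    have := Real.log_neg hπp hπ1
    linarith
  obtain ⟨δ, hδ⟩ : ∃ δ : ℝ, δ = κ / (B' + 1) := ⟨_, rfl⟩
  have hδ0 : 0 < δ := by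
    rw [hδ]
    positivity
  have hδB : δ * B' ≤ κ := by
    rw [hδ, div_mul_eq_mul_div, div_le_iff₀ (by linarith)]
    nlinarith
  obtain ⟨M, hM⟩ : ∃ M : ℝ, M = 1 + ∑ l, C l * Real.exp (δ * A') +
      ∑ l, ∑ e ∈ (P (Sum.inl l)).support, mulHeight₁ ((P (Sum.inl l)).coeff e) := ⟨_, rfl⟩
  have n1 : 0 ≤ ∑ l, C l * Real.exp (δ * A') :=
    Finset.sum_nonneg fun l _ => mul_nonneg (by linarith [hC1 l]) (Real.exp_pos _).le
  have n2 : 0 ≤ ∑ l, ∑ e ∈ (P (Sum.inl l)).support, mulHeight₁ ((P (Sum.inl l)).coeff e) :=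
    Finset.sum_nonneg fun l _ => Finset.sum_nonneg fun e _ => (mulHeight₁_pos _).le
  have hM1 : 1 ≤ M := by linarith
  refine ⟨Subgroup.zpowers b, ⟨{b}, by rw [Finset.coe_singleton, Subgroup.zpowers_eq_closure]⟩,
    ∑ l, (P (Sum.inl l)).support.card, M, δ, hM1, hδ0, fun G hG hv => ?_⟩
  -- a grid
  obtain ⟨g, hg⟩ : ∃ g : MvPolynomial (Fin r) K, g = MvPolynomial.aeval P G := ⟨_, rfl⟩
  have hinj : Function.Injective fun s : ℕ => π ^ s := by
    intro s s' hs
    have h1 := congrArg (av v) hs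
    simp only [map_pow] at h1
    exact pow_right_injective₀ hπp hπ1.ne h1
  have hg0 : g = 0 := by
    refine MvPolynomial.eq_zero_of_eval_zero_at_prod_finset g (fun _ =>
      (Finset.range (g.totalDegree + 2)).image fun s => π ^ (g.totalDegree + 1 + s)) (fun j => ?_)
      (fun x hx => ?_)
    · rw [Finset.card_image_of_injective _ (fun s s' h => by
        have := hinj h
        omega), Finset.card_range]
      have := MvPolynomial.degreeOf_le_totalDegree g j
      omega
    · have h1 : ∀ j, ∃ s, s < g.totalDegree + 2 ∧ π ^ (g.totalDegree + 1 + s) = x j := by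
        intro j
        have := hx j
        rw [Finset.mem_image] at this
        obtain ⟨s, hs1, hs2⟩ := this
        exact ⟨s, Finset.mem_range.1 hs1, hs2⟩
      choose s hs1 hs2 using h1
      obtain ⟨N, hN⟩ : ∃ N : ℕ, N = g.totalDegree + 1 := ⟨_, rfl⟩
      obtain ⟨a, ha⟩ : ∃ a : Fin r → ℕ, a = fun j => g.totalDegree + 1 + s j := ⟨_, rfl⟩
      have ha1 : ∀ j, N ≤ a j := fun j => by
        rw [ha, hN]
        exact Nat.le_add_right _ _
      have ha2 : ∀ j, a j ≤ 2 * N := fun j => by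
        rw [ha, hN]
        have := hs1 j
        beta_reduce
        omega
      have hxa : x = fun j => π ^ a j := by
        funext j
        rw [ha]
        exact (hs2 j).symm
      rw [hg, hae, hxa, ← hse fun i => MvPolynomial.eval (fun j => π ^ a j) (P i)]
      refine hv _ _ ?_ (fun l => ?_) fun l => ?_
      · intro G' hG'
        rw [hse fun i => MvPolynomial.eval (fun j => π ^ a j) (P i)]
        have h2 : (fun i => MvPolynomial.eval (fun j => π ^ a j) (P i)) =
            fun i => MvPolynomial.eval (fun j => π ^ a j + t0 j) (Q i) := funext fun i => hPe _ i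
        rw [h2]
        exact hmem _ G' hG'
      · rw [MvPolynomial.eval_eq']
        have h2 : ∀ e : Fin r →₀ ℕ, ∏ j, (π ^ a j) ^ e j = ((∏ j, (b ^ a j) ^ e j : Kˣ) : K) := by
          intro e
          rw [Units.coe_prod]
          refine Finset.prod_congr rfl fun j _ => ?_
          rw [Units.val_pow_eq_pow_val, Units.val_pow_eq_pow_val, hb]
        simp only [h2]
        refine sparse_pad hM1 _ ?_ (fun e => (P (Sum.inl l)).coeff e)
          (fun e => ∏ j, (b ^ a j) ^ e j) (fun e => ?_) fun e => ?_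
        · exact Finset.single_le_sum (f := fun l => (P (Sum.inl l)).support.card)
            (fun _ _ => Nat.zero_le _) (Finset.mem_univ l)
        · by_cases he : (P (Sum.inl l)).coeff e = 0
          · rw [he, mulHeight₁_zero]
            exact hM1
          · have h3 : mulHeight₁ ((P (Sum.inl l)).coeff e) ≤
                ∑ e ∈ (P (Sum.inl l)).support, mulHeight₁ ((P (Sum.inl l)).coeff e) :=
              Finset.single_le_sum (f := fun e => mulHeight₁ ((P (Sum.inl l)).coeff e))
                (fun _ _ => (mulHeight₁_pos _).le) (MvPolynomial.mem_support_iff.2 he)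
            have h4 : ∑ e ∈ (P (Sum.inl l)).support, mulHeight₁ ((P (Sum.inl l)).coeff e) ≤
                ∑ l, ∑ e ∈ (P (Sum.inl l)).support, mulHeight₁ ((P (Sum.inl l)).coeff e) :=
              Finset.single_le_sum (f := fun l => ∑ e ∈ (P (Sum.inl l)).support,
                mulHeight₁ ((P (Sum.inl l)).coeff e)) (fun l _ => Finset.sum_nonneg fun e _ =>
                (mulHeight₁_pos _).le) (Finset.mem_univ l)
            linarith
        · exact Subgroup.prod_mem _ fun j _ => Subgroup.pow_mem _ (Subgroup.pow_mem _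
            (Subgroup.mem_zpowers b) _) _
      · -- closeness
        have h2 := hC l v (av v π ^ N) (fun j => π ^ a j) (pow_nonneg hπp.le _)
          (pow_le_one₀ hπp.le hπ1.le) (fun j => by
            rw [sub_zero, map_pow, one_mul]
            exact pow_le_pow_of_le_one hπp.le hπ1.le (ha1 j))
        have h3 : MvPolynomial.eval (fun _ => (0 : K)) (P (Sum.inl l)) =
            MvPolynomial.eval t0 (Q (Sum.inl l)) := by
          rw [hPe]
          congr 2
          funext j
          rw [zero_add]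
        rw [h3] at h2
        refine h2.trans ?_
        have hprod : 0 < ∏ l, mulHeight₁ (MvPolynomial.eval (fun j => π ^ a j)
            (P (Sum.inl l))) := Finset.prod_pos fun l _ => mulHeight₁_pos _
        have h4 : Real.log (∏ l, mulHeight₁ (MvPolynomial.eval (fun j => π ^ a j)
            (P (Sum.inl l)))) ≤ A' + B' * N := by
          rw [Real.log_prod (fun l _ => (mulHeight₁_pos _).ne'), hA', hB', Finset.sum_mul,
            ← Finset.sum_add_distrib]
          refine Finset.sum_le_sum fun l _ => ?_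
          rw [← logHeight₁_eq_log_mulHeight₁]
          exact hAB l N a ha2
        have h5 : av v π ^ N ≤ Real.exp (δ * A') * (∏ l, mulHeight₁ (MvPolynomial.eval
            (fun j => π ^ a j) (P (Sum.inl l)))) ^ (-δ) := by
          rw [Real.rpow_def_of_pos hprod, ← Real.exp_add]
          have h6 : av v π ^ N = Real.exp (-(κ * N)) := by
            rw [hκ, neg_mul, neg_neg, mul_comm, Real.exp_nat_mul, Real.exp_log hπp]
          rw [h6]
          refine Real.exp_le_exp.2 ?_
          have h7 := mul_le_mul_of_nonneg_left h4 hδ0.le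
          have h8 : δ * B' * N ≤ κ * N := mul_le_mul_of_nonneg_right hδB (Nat.cast_nonneg _)
          linarith
        have h9 : C l * Real.exp (δ * A') ≤ M := by
          have : C l * Real.exp (δ * A') ≤ ∑ l, C l * Real.exp (δ * A') :=
            Finset.single_le_sum (f := fun l => C l * Real.exp (δ * A'))
              (fun l _ => mul_nonneg (by linarith [hC1 l]) (Real.exp_pos _).le)
              (Finset.mem_univ l)
          linarith
        calc C l * av v π ^ N ≤ C l * (Real.exp (δ * A') * (∏ l, mulHeight₁ (MvPolynomial.eval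
              (fun j => π ^ a j) (P (Sum.inl l)))) ^ (-δ)) :=
              mul_le_mul_of_nonneg_left h5 (by linarith [hC1 l])
          _ = C l * Real.exp (δ * A') * (∏ l, mulHeight₁ (MvPolynomial.eval
              (fun j => π ^ a j) (P (Sum.inl l)))) ^ (-δ) := by ring
          _ ≤ _ := mul_le_mul_of_nonneg_right h9 (Real.rpow_pos_of_pos hprod _).le
  -- back
  refine hQ2 G hG (MvPolynomial.funext fun t => ?_)
  rw [map_zero, hae]
  have h1 : (fun i => MvPolynomial.eval t (Q i)) =
      fun i => MvPolynomial.eval (fun j => t j - t0 j) (P i) := by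
    funext i
    rw [hPe]
    congr 2
    funext j
    rw [sub_add_cancel]
  rw [h1, ← hae, ← hg, hg0, map_zero]

end Pool.Agent.Run7.h28.ST
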