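import Mathlib
import Pool.Agent.Run7.h28.ST.Ext

/-!
# Project ST (helper28): families with unit coordinates
-/

set_option autoImplicit false
set_option linter.unusedSectionVars false

open Filter Topology

namespace Pool.Agent.Run7.h28.ST

open NumberField IsDedekindDomain Height Module
open Pool.Agent.W180.OP (Pl av wt nrm le_nrm nrm_pos wt_nonneg exists_nrm nrm_nonneg)
open Pool.Agent.N750
open Pool.Agent.Run7.h28.HK
open Pool.Agent.Run7.h28.BV

section mono

variable {K : Type} [Field K] [NumberField K] {α : Type} {𝓕 : Ultrafilter α}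

/-- a Laurent polynomial whose values at independent units are units is a monomial -/
theorem mono_of_unit (S : Finset (Pl K)) (hS : ∀ w : InfinitePlace K, (Sum.inl w : Pl K) ∈ S)
    {Γ : Subgroup Kˣ} (hΓS : ∀ g ∈ Γ, IsU S (g : K)) {r : ℕ} (w : Fin r → α → Kˣ)
    (hw : ∀ l t, w l t ∈ Γ) (hind : Indep 𝓕 w) (P : Lau K r) (g : α → Kˣ) (hg : ∀ t, g t ∈ Γ)
    (h0 : ∀ᶠ t in (𝓕 : Filter α), evU (fun l => w l t) P = (g t : K)) :
    ∃ (m : Fin r → ℤ) (c : K), P = AddMonoidAlgebra.single m c := by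
  classical
  obtain ⟨m, c, hc⟩ : ∃ (m : Fin r → ℤ) (c : K), ∀ᶠ t in (𝓕 : Filter α),
      (g t : K) / ((∏ l, w l t ^ m l : Kˣ) : K) = c := by
    by_contra hcon
    have hcon' : ∀ (m : Fin r → ℤ) (c : K), ¬ ∀ᶠ t in (𝓕 : Filter α),
        (g t : K) / ((∏ l, w l t ^ m l : Kˣ) : K) = c := fun m c h1 => hcon ⟨m, c, h1⟩
    have h1 := const_indep (𝓕 := 𝓕) S hS (Finset.insertNone P.coeff.support).card
      (Finset.insertNone P.coeff.support) le_rfl
      (fun o t => match o with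
        | none => (g t : K)
        | some m => ((∏ l, w l t ^ m l : Kˣ) : K))
      (fun o _ t => by
        rcases o with - | m
        · exact hΓS _ (hg t)
        · exact hΓS _ (Γ.prod_mem fun l _ => Γ.zpow_mem (hw l t) _))
      (fun o _ o' _ hoo => by
        rintro ⟨c, hc⟩
        rcases o with - | m <;> rcases o' with - | m'
        · exact hoo rfl
        · exact hcon' m' c hc
        · refine hcon' m c⁻¹ ?_
          filter_upwards [hc] with t ht
          rw [← ht, inv_div]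
        · apply hoo
          have h2 := hind (m - m') ⟨c, by
            filter_upwards [hc] with t ht
            rw [← ht, ← Units.val_div_eq_div_val, ← Finset.prod_div_distrib]
            congr 1
            refine Finset.prod_congr rfl fun l _ => ?_
            rw [Pi.sub_apply, zpow_sub, div_eq_mul_inv]⟩
          rw [sub_eq_zero.1 h2])
      (fun o => match o with
        | none => -1
        | some m => P.coeff m) (by
        filter_upwards [h0] with t ht
        rw [Finset.sum_insertNone]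
        rw [evU_eq] at ht
        simp only
        rw [ht]
        ring) none (Finset.mem_insertNone.2 (by simp))
    simp at h1
  refine ⟨m, c, ?_⟩
  have h1 := alg_indep S hS hΓS w hw hind (P - AddMonoidAlgebra.single m c) (by
    filter_upwards [h0, hc] with t h1 h2
    rw [map_sub, h1, evU_single, ← h2, div_mul_cancel₀ _ (Units.ne_zero _), sub_self])
  exact sub_eq_zero.1 h1

end mono

variable {K : Type} [Field K] [NumberField K]

/-- the coordinates in `J` of the families are monomials -/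
def MonoOn {σ : Type} (J : σ → Prop) (P : Fam K σ) : Prop :=
  ∀ j, J j → ∃ (m : Fin P.1 → ℤ) (c : K), P.2 j = AddMonoidAlgebra.single m c

/-- **Finitely many families.** -/
theorem fin_famJ {σ : Type} [Fintype σ] (J : σ → Prop) (Γ : Subgroup Kˣ) (S : Finset (Pl K))
    (hS : ∀ w : InfinitePlace K, (Sum.inl w : Pl K) ∈ S) (hΓS : ∀ g ∈ Γ, IsU S (g : K))
    (I : Ideal (MvPolynomial σ K)) (Z : (σ → K) → ℝ → Prop)
    (hZI : ∀ z h, Z z h → ∀ G ∈ I, MvPolynomial.eval z G = 0)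
    (hZJ : ∀ z h, Z z h → ∀ j, J j → ∃ u : Kˣ, u ∈ Γ ∧ z j = (u : K))
    (hZ : ∀ (z : ℕ → σ → K) (h : ℕ → ℝ), (∀ t, Z (z t) (h t)) → (∀ t : ℕ, (t : ℝ) < h t) →
      ∀ i, Sp (cF (hyperfilter ℕ) K) (PG (hyperfilter ℕ) (fun t => Real.log (h t)) Γ)
        (mk (hyperfilter ℕ) (fun t => z t i))) :
    ∃ 𝓣 : Set (Fam K σ), 𝓣.Finite ∧ (∀ P ∈ 𝓣, (∀ G ∈ I, MvPolynomial.aeval P.2 G = 0) ∧
        MonoOn J P) ∧
      ∃ C : ℝ, 0 < C ∧ ∀ z h, Z z h → C < h → ∃ P ∈ 𝓣, ∃ u : Fin P.1 → Kˣ, (∀ l, u l ∈ Γ) ∧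
        ∀ i, z i = evU u (P.2 i) := by
  classical
  have hc := countable_fam K σ
  have hne : Nonempty (Fam K σ) := ⟨⟨0, fun _ => 0⟩⟩
  obtain ⟨e, he⟩ := exists_surjective_nat (Fam K σ)
  by_contra hcon
  push Not at hcon
  have hfin : ∀ t : ℕ, ({P | ∃ j ≤ t, P = e j ∧ (∀ G ∈ I, MvPolynomial.aeval P.2 G = 0) ∧
      MonoOn J P} : Set (Fam K σ)).Finite := by
    intro t
    refine ((Set.finite_Iic t).image e).subset ?_
    rintro P ⟨j, hj, hP, -⟩
    exact ⟨j, hj, hP.symm⟩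
  have h1 := fun t : ℕ => hcon {P | ∃ j ≤ t, P = e j ∧
    (∀ G ∈ I, MvPolynomial.aeval P.2 G = 0) ∧ MonoOn J P}
    (hfin t) (fun P hP => hP.choose_spec.2.2) ((t : ℝ) + 1) (by positivity)
  choose z h hZz hbig hno using h1
  have h2 := hZ z h hZz (fun t => by linarith [hbig t])
  obtain ⟨r, w, P, hw, hind, hP⟩ := param_fam (𝓕 := hyperfilter ℕ) (fun i t => z t i) h2
  -- the family lies on the variety
  have hPI : ∀ G ∈ I, MvPolynomial.aeval P G = 0 := by
    intro G hG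
    refine alg_indep S hS hΓS w hw hind _ ?_
    have h3 : ∀ᶠ t in (hyperfilter ℕ : Filter ℕ), ∀ i, z t i = evU (fun l => w l t) (P i) :=
      eventually_all.2 hP
    filter_upwards [h3] with t ht
    have h6 : z t = fun i => evU (fun l => w l t) (P i) := funext ht
    rw [evU_aeval, ← h6, hZI _ _ (hZz t) G hG]
  have hPJ : ∀ j, J j → ∃ (m : Fin r → ℤ) (c : K), P j = AddMonoidAlgebra.single m c := by
    intro j hj
    choose g hg1 hg2 using fun t => hZJ _ _ (hZz t) j hj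
    refine mono_of_unit S hS hΓS w hw hind (P j) g hg1 ?_
    filter_upwards [hP j] with t ht
    rw [← ht, hg2]
  obtain ⟨j, hj⟩ := he ⟨r, P⟩
  have h4 : ∀ᶠ t in (hyperfilter ℕ : Filter ℕ), ∀ i, z t i = evU (fun l => w l t) (P i) :=
    eventually_all.2 hP
  have h5 : ∀ᶠ t in (hyperfilter ℕ : Filter ℕ), j ≤ t :=
    Filter.Eventually.filter_mono Nat.hyperfilter_le_atTop (eventually_ge_atTop j)
  obtain ⟨t, ht1, ht2⟩ := (h4.and h5).exists
  obtain ⟨i, hi⟩ := hno t ⟨r, P⟩ ⟨j, ht2, hj.symm, hPI, hPJ⟩ (fun l => w l t) (fun l => hw l t)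
  exact hi (ht1 i)

/-- adding finitely many constant families -/
theorem fin_famJ' {σ : Type} [Fintype σ] {J : σ → Prop} {Γ : Subgroup Kˣ}
    {I : Ideal (MvPolynomial σ K)} {Z : (σ → K) → ℝ → Prop}
    (hZI : ∀ z h, Z z h → ∀ G ∈ I, MvPolynomial.eval z G = 0)
    (h1 : ∃ 𝓣 : Set (Fam K σ), 𝓣.Finite ∧ (∀ P ∈ 𝓣, (∀ G ∈ I, MvPolynomial.aeval P.2 G = 0) ∧
        MonoOn J P) ∧
      ∃ C : ℝ, 0 < C ∧ ∀ z h, Z z h → C < h → ∃ P ∈ 𝓣, ∃ u : Fin P.1 → Kˣ, (∀ l, u l ∈ Γ) ∧
        ∀ i, z i = evU u (P.2 i))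
    (h2 : ∀ C : ℝ, {z | ∃ h ≤ C, Z z h}.Finite) :
    ∃ 𝓣 : Set (Fam K σ), 𝓣.Finite ∧ (∀ P ∈ 𝓣, (∀ G ∈ I, MvPolynomial.aeval P.2 G = 0) ∧
        MonoOn J P) ∧
      ∀ z h, Z z h → ∃ P ∈ 𝓣, ∃ u : Fin P.1 → Kˣ, (∀ l, u l ∈ Γ) ∧ ∀ i, z i = evU u (P.2 i) := by
  classical
  obtain ⟨𝓣, hfin, hI, C, -, hC⟩ := h1
  have hcst : ∀ (z : σ → K) (u : Fin 0 → Kˣ) (i : σ),
      evU u ((fun i => AddMonoidAlgebra.single 0 (z i) : σ → Lau K 0) i) = z i := by
    intro z u i
    rw [evU_single]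
    simp
  refine ⟨𝓣 ∪ (fun z : σ → K => (⟨0, fun i => AddMonoidAlgebra.single 0 (z i)⟩ : Fam K σ)) ''
    {z | ∃ h ≤ C, Z z h}, hfin.union ((h2 C).image _), ?_, ?_⟩
  · rintro P (hP | ⟨z, ⟨h, -, hz⟩, rfl⟩)
    · exact hI P hP
    · refine ⟨fun G hG => ?_, fun j _ => ⟨0, z j, rfl⟩⟩
      have h3 : (MvPolynomial.aeval (fun i => (AddMonoidAlgebra.single 0 (z i) : Lau K 0)) G) =
          AddMonoidAlgebra.single 0 (MvPolynomial.eval z G) := by
        have h4 : MvPolynomial.aeval (fun i => (AddMonoidAlgebra.single 0 (z i) : Lau K 0)) =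
            (Algebra.ofId K (Lau K 0)).comp (MvPolynomial.aeval z) := by
          refine MvPolynomial.algHom_ext fun i => ?_
          rw [AlgHom.comp_apply, MvPolynomial.aeval_X, MvPolynomial.aeval_X]
          rfl
        rw [h4, AlgHom.comp_apply, MvPolynomial.aeval_eq_eval]
        rfl
      show MvPolynomial.aeval (fun i => (AddMonoidAlgebra.single 0 (z i) : Lau K 0)) G = 0
      rw [h3, hZI z h hz G hG]
      exact AddMonoidAlgebra.single_zero 0
  · intro z h hz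
    by_cases hh : C < h
    · obtain ⟨P, hP, u, hu, hi⟩ := hC z h hz hh
      exact ⟨P, Or.inl hP, u, hu, hi⟩
    · refine ⟨_, Or.inr ⟨z, ⟨h, not_lt.1 hh, hz⟩, rfl⟩, fun l => l.elim0, fun l => l.elim0,
        fun i => (hcst z _ i).symm⟩

/-- **Points above sparse points near a separable point lie in finitely many families of values of
Laurent polynomials**; unit coordinates are monomials. -/
theorem structureJ (n m k : ℕ) (B δ M : ℝ) (hδ : 0 < δ) (Γ : Subgroup Kˣ) (hΓ : Γ.FG) (v : Pl K)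
    (I : Ideal (MvPolynomial (Fin n ⊕ Fin m) K))
    (F : Fin m → Polynomial (MvPolynomial (Fin n) K)) (hFm : ∀ i, (F i).Monic)
    (hFI : ∀ i, eqA (F i) i ∈ I) (J : Fin n → Prop) :
    ∃ 𝓣 : Set (Fam K (Fin n ⊕ Fin m)), 𝓣.Finite ∧
      (∀ P ∈ 𝓣, (∀ G ∈ I, MvPolynomial.aeval P.2 G = 0) ∧
        MonoOn (fun i => ∃ l, J l ∧ i = Sum.inl l) P) ∧
      ∀ (x : Fin n → K) (y : Fin m → K) (h : ℝ), 1 ≤ h →
        (∀ G ∈ I, MvPolynomial.eval (Sum.elim x y) G = 0) →
        (∀ l, Sparse Γ k M (x l)) → (∀ l, J l → ∃ u : Kˣ, u ∈ Γ ∧ x l = (u : K)) →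
        (∀ l, mulHeight₁ (x l) ≤ M * h ^ B) →
        (∀ i, NearSep Γ v B δ M h (F i).natDegree ((F i).map (MvPolynomial.eval x))) →
        ∃ P ∈ 𝓣, ∃ u : Fin P.1 → Kˣ, (∀ l, u l ∈ Γ) ∧
          ∀ i, Sum.elim x y i = evU u (P.2 i) := by
  classical
  have hroot : ∀ (x : Fin n → K) (y : Fin m → K),
      (∀ G ∈ I, MvPolynomial.eval (Sum.elim x y) G = 0) →
      ∀ i, ((F i).map (MvPolynomial.eval x)).eval (y i) = 0 := by
    intro x y hz i
    have h1 := hz _ (hFI i)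
    have h2 := eval_eqA (RingHom.id K) (F i) i x y
    have h3 : MvPolynomial.eval₂Hom (RingHom.id K) x = MvPolynomial.eval x := by
      refine RingHom.ext fun P => ?_
      rfl
    rw [h3] at h2
    rw [← h2]
    exact h1
  obtain ⟨M', hM', hMM'⟩ : ∃ M' : ℝ, 1 ≤ M' ∧ M ≤ M' := ⟨max 1 M, le_max_left _ _, le_max_right _ _⟩
  obtain ⟨Z, hZdef⟩ : ∃ Z : (Fin n ⊕ Fin m → K) → ℝ → Prop, Z = fun z h => 1 ≤ h ∧
      (∀ G ∈ I, MvPolynomial.eval z G = 0) ∧ (∀ l, Sparse Γ k M' (z (Sum.inl l))) ∧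
      (∀ l, J l → ∃ u : Kˣ, u ∈ Γ ∧ z (Sum.inl l) = (u : K)) ∧
      (∀ l, mulHeight₁ (z (Sum.inl l)) ≤ M' * h ^ B) ∧
      (∀ i, NearSep Γ v B δ M' h (F i).natDegree
        ((F i).map (MvPolynomial.eval fun l => z (Sum.inl l)))) := ⟨_, rfl⟩
  have hse : ∀ z : Fin n ⊕ Fin m → K,
      Sum.elim (fun l => z (Sum.inl l)) (fun i => z (Sum.inr i)) = z := fun z => by
    funext i
    rcases i with l | i <;> rfl
  by_cases hq : ∃ i, (F i).natDegree = 0
  · obtain ⟨i0, hi0⟩ := hq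
    refine ⟨∅, Set.finite_empty, fun P hP => absurd hP (Set.notMem_empty P), ?_⟩
    intro x y h _ hz _ _ _ _
    have h1 := hroot x y hz i0
    rw [(hFm i0).natDegree_eq_zero.1 hi0, Polynomial.map_one, Polynomial.eval_one] at h1
    exact absurd h1 one_ne_zero
  push Not at hq
  obtain ⟨S, hS, hΓS, hvS⟩ := exists_S' Γ hΓ {v}
  obtain ⟨𝓣, hfin, hI, hall⟩ := fin_famJ' (J := fun i => ∃ l, J l ∧ i = Sum.inl l)
    (Γ := Γ) (I := I) (Z := Z)
    (fun z h hz => by
      rw [hZdef] at hz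
      exact hz.2.1)
    (fin_famJ _ Γ S hS hΓS I Z (fun z h hz => by
      rw [hZdef] at hz
      exact hz.2.1) (by
      rintro z h hz _ ⟨l, hl, rfl⟩
      rw [hZdef] at hz
      exact hz.2.2.2.1 l hl) (by
      intro z h hz hbig
      rw [hZdef] at hz
      simp only at hz
      choose h1 hzI hxs _ hxm hnear using hz
      have hH : Tendsto (fun t => Real.log (h t)) (hyperfilter ℕ : Filter ℕ) atTop := by
        refine Tendsto.mono_left ?_ Nat.hyperfilter_le_atTop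
        refine Real.tendsto_log_atTop.comp ?_
        exact tendsto_atTop_mono (fun t => (hbig t).le) tendsto_natCast_atTop_atTop
      obtain ⟨g1, g2⟩ := germS n m k B δ M' hδ hM' Γ hΓ v F hFm hq h h1 hH
        (fun t l => z t (Sum.inl l)) (fun t i => z t (Sum.inr i)) hxs hxm hnear
        (fun t i => hroot (fun l => z t (Sum.inl l)) (fun i => z t (Sum.inr i))
          (fun G hG => by rw [hse]; exact hzI t G hG) i)
      intro i
      rcases i with l | i
      · exact g1 l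
      · exact g2 i)) (by
      intro C
      have hfx : ({x : Fin n → K | ∀ l, mulHeight₁ (x l) ≤ M' * (max C 1) ^ |B|}).Finite := by
        have h1 : (Set.pi Set.univ (fun _ : Fin n =>
            {x : K | mulHeight₁ x ≤ M' * (max C 1) ^ |B|})).Finite :=
          Set.Finite.pi fun _ => Northcott.finite_le _
        refine h1.subset ?_
        intro x hx l _
        exact hx l
      refine (finite_above F hFm hfx).subset ?_
      rintro z ⟨h, hh, hz⟩
      rw [hZdef] at hz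
      obtain ⟨h1, h2, h3, -, h4, h5⟩ := hz
      refine ⟨fun l => (h4 l).trans ?_, ?_⟩
      · refine mul_le_mul_of_nonneg_left ?_ (by linarith)
        calc h ^ B ≤ h ^ |B| := Real.rpow_le_rpow_of_exponent_le h1 (le_abs_self B)
          _ ≤ (max C 1) ^ |B| := Real.rpow_le_rpow (by linarith) (hh.trans (le_max_left _ _))
              (abs_nonneg _)
      · exact hroot (fun l => z (Sum.inl l)) (fun i => z (Sum.inr i))
          (fun G hG => by rw [hse]; exact h2 G hG))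
  refine ⟨𝓣, hfin, hI, fun x y h h1 hz hxs hxJ hxm hnear => ?_⟩
  refine hall (Sum.elim x y) h ?_
  rw [hZdef]
  have hM0 : 0 ≤ h ^ B := (Real.rpow_pos_of_pos (by linarith) _).le
  refine ⟨h1, hz, fun l => ?_, fun l hl => hxJ l hl, fun l => ?_, fun i => ?_⟩
  · obtain ⟨a, u, h2, h3, h4⟩ := hxs l
    exact ⟨a, u, fun r => (h2 r).trans hMM', h3, h4⟩
  · exact (hxm l).trans (mul_le_mul_of_nonneg_right hMM' hM0)
  · obtain ⟨a, z, E, h2, h3, h4, h5, h7, h8, h9, h10⟩ := hnear i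
    exact ⟨a, z, E, h2, h3, h4, h5, fun j => (h7 j).trans hMM',
      h8.trans (mul_le_mul_of_nonneg_right hMM' hM0),
      h9.trans (mul_le_mul_of_nonneg_right hMM' hM0), fun j hj => (h10 j hj).trans
      (mul_le_mul_of_nonneg_right hMM' (Real.rpow_pos_of_pos (by linarith) _).le)⟩

end Pool.Agent.Run7.h28.ST
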