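import Mathlib
import Pool.Agent.Run7.h28.ST.Uni
import Pool.Agent.Run7.h28.BV.CurZ

/-!
# Project ST (helper28): uniform bounds in families with unit parameters
-/

set_option autoImplicit false
set_option linter.unusedSectionVars false

open Filter Topology

namespace Pool.Agent.Run7.h28.ST

open NumberField IsDedekindDomain Height Module
open Pool.Agent.W180.OP (Pl av wt nrm le_nrm nrm_pos wt_nonneg exists_nrm nrm_nonneg)
open Pool.Agent.N750
open Pool.Agent.Run7.h28.HK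
open Pool.Agent.Run7.h28.BV

/-! ### Linear algebra -/

/-- integral vectors as rational vectors -/
def qv {r : ℕ} (e : Fin r → ℤ) : Fin r → ℚ := fun l => (e l : ℚ)

lemma qv_inj {r : ℕ} {e e' : Fin r → ℤ} (h : qv e = qv e') : e = e' := by
  funext l
  have h1 : (e l : ℚ) = (e' l : ℚ) := congrFun h l
  exact_mod_cast h1

/-- integral vectors in the rational span have multiples in the integral span -/
lemma span_int {r : ℕ} (E : Set (Fin r → ℤ)) (v : Fin r → ℚ)
    (hv : v ∈ Submodule.span ℚ (qv '' E)) :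
    ∃ N : ℕ, 0 < N ∧ ∃ m ∈ AddSubgroup.closure E, (N : ℚ) • v = qv m := by
  induction hv using Submodule.span_induction with
  | mem x hx =>
    obtain ⟨e, he, rfl⟩ := hx
    exact ⟨1, one_pos, e, AddSubgroup.subset_closure he, by simp⟩
  | zero => exact ⟨1, one_pos, 0, AddSubgroup.zero_mem _, by ext l; simp [qv]⟩
  | add x y _ _ hx hy =>
    obtain ⟨N, hN, m, hm, h1⟩ := hx
    obtain ⟨N', hN', m', hm', h2⟩ := hy
    refine ⟨N * N', Nat.mul_pos hN hN', N' • m + N • m', AddSubgroup.add_mem _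
      (AddSubgroup.nsmul_mem _ hm _) (AddSubgroup.nsmul_mem _ hm' _), ?_⟩
    have h3 : ((N * N' : ℕ) : ℚ) • (x + y) = (N' : ℚ) • ((N : ℚ) • x) + (N : ℚ) • ((N' : ℚ) • y) := by
      rw [smul_add, smul_smul, smul_smul]
      push_cast
      rw [mul_comm (N' : ℚ) N]
    rw [h3, h1, h2]
    ext l
    simp [qv]
  | smul c x _ hx =>
    obtain ⟨N, hN, m, hm, h1⟩ := hx
    refine ⟨N * c.den, Nat.mul_pos hN c.den_pos, c.num • m, AddSubgroup.zsmul_mem _ hm _, ?_⟩
    have h3 : ((N * c.den : ℕ) : ℚ) • c • x = (c.num : ℚ) • ((N : ℚ) • x) := by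
      rw [smul_smul, smul_smul]
      push_cast
      congr 1
      have := Rat.mul_den_eq_num c
      rw [← this]
      ring
    rw [h3, h1]
    ext l
    simp [qv]

/-- **Existence of a generic one-parameter subgroup.** -/
theorem exists_cochar {r : ℕ} (E : Set (Fin r → ℤ)) (A : Finset (Fin r → ℤ)) :
    ∃ a : Fin r → ℤ, (∀ e ∈ E, ∑ l, e l * a l = 0) ∧
      ∀ m ∈ A, ∑ l, m l * a l = 0 → ∃ N : ℕ, 0 < N ∧ N • m ∈ AddSubgroup.closure E := by
  classical
  obtain ⟨W, hW⟩ : ∃ W : Subspace ℚ (Fin r → ℚ), W = Submodule.span ℚ (qv '' E) := ⟨_, rfl⟩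
  let ι : Type := {m : Fin r → ℤ // m ∈ A ∧ qv m ∉ W}
  have hfin : Finite ι := by
    refine Finite.of_injective (fun m : ι => (⟨m.1, m.2.1⟩ : {m // m ∈ A})) ?_
    intro m m' h
    exact Subtype.ext (congrArg (fun z => z.1) h)
  let p : ι → Subspace ℚ (Submodule.dualAnnihilator W) := fun m =>
    LinearMap.ker ((Module.Dual.eval ℚ (Fin r → ℚ) (qv m.1)).comp (Submodule.dualAnnihilator W).subtype)
  obtain ⟨φ, hφ⟩ : ∃ φ : Submodule.dualAnnihilator W, ∀ m : ι, φ ∉ p m := by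
    by_contra hcon
    push Not at hcon
    obtain ⟨m, hm⟩ := Subspace.exists_eq_top_of_iUnion_eq_univ (p := p) (by
      refine Set.eq_univ_iff_forall.2 fun φ => ?_
      obtain ⟨m, hm⟩ := hcon φ
      exact Set.mem_iUnion.2 ⟨m, hm⟩)
    refine m.2.2 ((Subspace.forall_mem_dualAnnihilator_apply_eq_zero_iff W _).1 fun ψ hψ => ?_)
    have h1 : (⟨ψ, hψ⟩ : Submodule.dualAnnihilator W) ∈ p m := by
      rw [hm]
      exact Submodule.mem_top
    exact h1
  obtain ⟨b, hb⟩ : ∃ b : Fin r → ℚ, ∀ v : Fin r → ℚ, φ.1 v = ∑ l, v l * b l := by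
    refine ⟨fun l => φ.1 (Pi.single l 1), fun v => ?_⟩
    conv_lhs => rw [← Finset.univ_sum_single v, map_sum]
    refine Finset.sum_congr rfl fun l _ => ?_
    have h1 : (Pi.single l (v l) : Fin r → ℚ) = v l • Pi.single l 1 := by
      rw [← Pi.single_smul, smul_eq_mul, mul_one]
    rw [h1, map_smul, smul_eq_mul]
  obtain ⟨d, hd, a, ha⟩ : ∃ d : ℕ, 0 < d ∧ ∃ a : Fin r → ℤ, ∀ l, (a l : ℚ) = d * b l := by
    refine ⟨∏ l, (b l).den, Finset.prod_pos fun l _ => (b l).den_pos, ?_⟩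
    have h1 : ∀ l, ∃ z : ℤ, (z : ℚ) = ((∏ l, (b l).den : ℕ) : ℚ) * b l := by
      intro l
      refine ⟨(b l).num * ∏ j ∈ Finset.univ.erase l, ((b j).den : ℤ), ?_⟩
      rw [← Finset.mul_prod_erase _ _ (Finset.mem_univ l)]
      push_cast
      have := Rat.mul_den_eq_num (b l)
      rw [← this]
      ring
    choose a ha using h1
    exact ⟨a, ha⟩
  have hsum : ∀ m : Fin r → ℤ, ((∑ l, m l * a l : ℤ) : ℚ) = d * φ.1 (qv m) := by
    intro m
    rw [hb, Finset.mul_sum]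
    push_cast
    refine Finset.sum_congr rfl fun l _ => ?_
    rw [ha l]
    unfold qv
    ring
  refine ⟨a, fun e he => ?_, fun m hm h0 => ?_⟩
  · have h1 := hsum e
    have h2 : φ.1 (qv e) = 0 := by
      refine (Submodule.mem_dualAnnihilator φ.1).1 φ.2 _ ?_
      rw [hW]
      exact Submodule.subset_span ⟨e, he, rfl⟩
    rw [h2, mul_zero] at h1
    exact_mod_cast h1
  · have h1 := hsum m
    rw [h0, Int.cast_zero] at h1
    have h2 : φ.1 (qv m) = 0 := by
      have hd0 : (d : ℚ) ≠ 0 := by exact_mod_cast hd.ne'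
      exact (mul_eq_zero.1 h1.symm).resolve_left hd0
    have h3 : qv m ∈ W := by
      by_contra hmW
      exact hφ ⟨m, hm, hmW⟩ h2
    rw [hW] at h3
    obtain ⟨N, hN, m', hm', h4⟩ := span_int E _ h3
    refine ⟨N, hN, ?_⟩
    have h5 : N • m = m' := by
      apply qv_inj
      rw [← h4]
      ext l
      simp [qv]
    rw [h5]
    exact hm'

/-! ### One-parameter curves -/

section curves

variable {K : Type} [Field K]

/-- the restriction of monomials to a one-parameter curve through `w` -/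
noncomputable def cmon {r : ℕ} (w : Fin r → Kˣ) (a : Fin r → ℤ) :
    Multiplicative (Fin r → ℤ) →* LaurentPolynomial K where
  toFun m := LaurentPolynomial.C (mon w m) *
    LaurentPolynomial.T (∑ l, Multiplicative.toAdd m l * a l)
  map_one' := by
    simp
  map_mul' m m' := by
    have h1 : (∑ l, Multiplicative.toAdd (m * m') l * a l) =
        (∑ l, Multiplicative.toAdd m l * a l) + ∑ l, Multiplicative.toAdd m' l * a l := by
      rw [← Finset.sum_add_distrib]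
      refine Finset.sum_congr rfl fun l _ => ?_
      rw [toAdd_mul, Pi.add_apply, add_mul]
    rw [h1, map_mul, map_mul, LaurentPolynomial.T_add]
    ring

/-- the restriction of Laurent polynomials to a one-parameter curve through `w` -/
noncomputable def cur {r : ℕ} (w : Fin r → Kˣ) (a : Fin r → ℤ) :
    Lau K r →ₐ[K] LaurentPolynomial K :=
  AddMonoidAlgebra.lift K (LaurentPolynomial K) (Fin r → ℤ) (cmon w a)

lemma cur_single {r : ℕ} (w : Fin r → Kˣ) (a m : Fin r → ℤ) (c : K) :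
    cur w a (AddMonoidAlgebra.single m c) =
      LaurentPolynomial.C (c * ((∏ l, w l ^ m l : Kˣ) : K)) *
        LaurentPolynomial.T (∑ l, m l * a l) := by
  rw [cur, AddMonoidAlgebra.lift_single, LaurentPolynomial.smul_eq_C_mul]
  show LaurentPolynomial.C c * (LaurentPolynomial.C ((∏ l, w l ^ m l : Kˣ) : K) *
    LaurentPolynomial.T (∑ l, m l * a l)) = _
  rw [map_mul, mul_assoc]

lemma cur_eq {r : ℕ} (w : Fin r → Kˣ) (a : Fin r → ℤ) (P : Lau K r) :
    cur w a P = ∑ m ∈ P.coeff.support,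
      LaurentPolynomial.C (P.coeff m * ((∏ l, w l ^ m l : Kˣ) : K)) *
        LaurentPolynomial.T (∑ l, m l * a l) := by
  rw [cur, AddMonoidAlgebra.lift_apply']
  refine Finset.sum_congr rfl fun m _ => ?_
  show LaurentPolynomial.C (P.coeff m) * (LaurentPolynomial.C ((∏ l, w l ^ m l : Kˣ) : K) *
    LaurentPolynomial.T (∑ l, m l * a l)) = _
  rw [map_mul, mul_assoc]

lemma cur_one {r : ℕ} (w : Fin r → Kˣ) (a : Fin r → ℤ) (P : Lau K r) :
    LaurentPolynomial.eval₂ (RingHom.id K) 1 (cur w a P) = evU w P := by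
  rw [cur_eq, map_sum, evU_eq]
  refine Finset.sum_congr rfl fun m _ => ?_
  rw [map_mul, LaurentPolynomial.eval₂_C, LaurentPolynomial.eval₂_T, one_zpow, Units.val_one,
    mul_one, RingHom.id_apply]

/-- if the curve is constant then the value is the sum of the terms which are constant on it -/
lemma cur_const {r : ℕ} (w : Fin r → Kˣ) (a : Fin r → ℤ) (P : Lau K r)
    (h : ∃ b, cur w a P = LaurentPolynomial.C b) :
    evU w P = ∑ m ∈ P.coeff.support with ∑ l, m l * a l = 0,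
      P.coeff m * ((∏ l, w l ^ m l : Kˣ) : K) := by
  classical
  obtain ⟨b, hb⟩ := h
  have h1 := cur_one w a P
  rw [hb, LaurentPolynomial.eval₂_C, RingHom.id_apply] at h1
  rw [← h1]
  have h2 : (cur w a P).coeff 0 = b := by
    rw [hb, ← mul_one (LaurentPolynomial.C b), ← LaurentPolynomial.T_zero,
      ← LaurentPolynomial.single_eq_C_mul_T, AddMonoidAlgebra.coeff_single, Finsupp.single_eq_same]
  rw [← h2, cur_eq, sum_CT_coeff]

end curves

/-! ### The bound -/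

variable {K : Type} [Field K] [NumberField K]

/-- there is no nonconstant curve, the image of the multiplicative group, through `z` on the variety
with fixed coordinates in `J` -/
def Isolated {σ : Type} (J : σ → Prop) (I : Ideal (MvPolynomial σ K)) (z : σ → K) : Prop :=
  ∀ p : σ → LaurentPolynomial K, (∀ i, LaurentPolynomial.eval₂ (RingHom.id K) 1 (p i) = z i) →
    (∀ G ∈ I, MvPolynomial.aeval p G = 0) → (∀ j, J j → p j = LaurentPolynomial.C (z j)) →
    ∀ i, ∃ b, p i = LaurentPolynomial.C b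

theorem fibre_bound {σ : Type} [Fintype σ] (J : σ → Prop) (I : Ideal (MvPolynomial σ K))
    (P : Fam K σ) (hPI : ∀ G ∈ I, MvPolynomial.aeval P.2 G = 0) (hP : MonoOn J P) :
    ∃ N : ℕ, ∀ (s : σ → K) (A : Set (σ → K)), (∀ j, J j → s j ≠ 0) →
      (∀ z ∈ A, (∀ j, J j → z j = s j) ∧ Isolated J I z ∧
        ∃ w : Fin P.1 → Kˣ, ∀ i, z i = evU w (P.2 i)) →
      A.Finite ∧ A.ncard ≤ N := by
  classical
  choose e c hec using hP
  obtain ⟨E, hE⟩ : ∃ E : Set (Fin P.1 → ℤ), E = {x | ∃ j, ∃ hj : J j, x = e j hj} := ⟨_, rfl⟩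
  obtain ⟨A0, hA0⟩ : ∃ A0 : Finset (Fin P.1 → ℤ),
    A0 = Finset.univ.biUnion (fun i => (P.2 i).coeff.support) := ⟨_, rfl⟩
  obtain ⟨a, ha1, ha2⟩ := exists_cochar E A0
  obtain ⟨Ξ, hΞ⟩ : ∃ Ξ : Finset (Fin P.1 → ℤ), Ξ = A0.filter (fun m => ∑ l, m l * a l = 0) :=
    ⟨_, rfl⟩
  have hN0 : ∀ m, ∃ N : ℕ, 0 < N ∧ (m ∈ Ξ → N • m ∈ AddSubgroup.closure E) := by
    intro m
    by_cases hm : m ∈ Ξ
    · rw [hΞ, Finset.mem_filter] at hm
      obtain ⟨N, h1, h2⟩ := ha2 m hm.1 hm.2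
      exact ⟨N, h1, fun _ => h2⟩
    · exact ⟨1, one_pos, fun h => absurd h hm⟩
  choose N hN1 hN2 using hN0
  refine ⟨∏ m ∈ Ξ, N m, fun s A hs hA => ?_⟩
  rcases A.eq_empty_or_nonempty with rfl | ⟨z0, hz0⟩
  · exact ⟨Set.finite_empty, by simp⟩
  obtain ⟨hz01, -, w0, hw0⟩ := hA z0 hz0
  -- the values of the monomials with exponents in the closure
  have hval : ∀ w : Fin P.1 → Kˣ, (∀ j, J j → evU w (P.2 j) = s j) →
      ∀ x ∈ AddSubgroup.closure E, ∏ l, w l ^ x l = ∏ l, w0 l ^ x l := by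
    intro w hw x hx
    induction hx using AddSubgroup.closure_induction with
    | mem x hx =>
      rw [hE] at hx
      obtain ⟨j, hj, rfl⟩ := hx
      have h1 := hw j hj
      have h2 : evU w0 (P.2 j) = s j := by rw [← hw0, hz01 j hj]
      rw [hec j hj, evU_single] at h1 h2
      have h3 : c j hj ≠ 0 := by
        intro h
        rw [h, zero_mul] at h1
        exact hs j hj h1.symm
      exact Units.ext (mul_left_cancel₀ h3 (h1.trans h2.symm))
    | zero => simp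
    | add x y _ _ hx hy =>
      simp only [Pi.add_apply, zpow_add, Finset.prod_mul_distrib]
      rw [hx, hy]
    | neg x _ hx =>
      simp only [Pi.neg_apply, zpow_neg, Finset.prod_inv_distrib]
      rw [hx]
  -- the finite set
  let t : (m : Ξ) → Finset K := fun m => (Polynomial.nthRoots (N m.1) (1 : K)).toFinset
  let Φ : ((m : Ξ) → K) → σ → K := fun ρ i =>
    ∑ m : Ξ, (P.2 i).coeff m.1 * (ρ m * ((∏ l, w0 l ^ m.1 l : Kˣ) : K))
  have hsub : A ⊆ Φ '' (Fintype.piFinset t : Set ((m : Ξ) → K)) := by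
    intro z hz
    obtain ⟨hz1, hiso, w, hw⟩ := hA z hz
    have hws : ∀ j, J j → evU w (P.2 j) = s j := fun j hj => by rw [← hw, hz1 j hj]
    have hcst : ∀ i, ∃ b, cur w a (P.2 i) = LaurentPolynomial.C b := by
      refine hiso (fun i => cur w a (P.2 i)) (fun i => by rw [cur_one, hw]) (fun G hG => ?_)
        (fun j hj => ?_)
      · rw [← MvPolynomial.comp_aeval_apply, hPI G hG, map_zero]
      · have h1 : ∑ l, e j hj l * a l = 0 := ha1 _ (by rw [hE]; exact ⟨j, hj, rfl⟩)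
        rw [hw j, hec j hj, cur_single, evU_single, h1, LaurentPolynomial.T_zero, mul_one]
    refine ⟨fun m => ((∏ l, w l ^ m.1 l : Kˣ) : K) * (((∏ l, w0 l ^ m.1 l : Kˣ) : K))⁻¹, ?_, ?_⟩
    · rw [Finset.mem_coe, Fintype.mem_piFinset]
      intro m
      have hpos := hN1 m.1
      rw [Multiset.mem_toFinset, Polynomial.mem_nthRoots hpos, mul_pow, inv_pow,
        ← Units.val_pow_eq_pow_val, ← Units.val_pow_eq_pow_val, ← Finset.prod_pow,
        ← Finset.prod_pow]
      have h1 := hval w hws _ (hN2 m.1 m.2)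
      have h2 : ∀ w : Fin P.1 → Kˣ, ∏ l, (w l ^ m.1 l) ^ N m.1 = ∏ l, w l ^ (N m.1 • m.1) l := by
        intro w
        refine Finset.prod_congr rfl fun l _ => ?_
        rw [← zpow_natCast, ← zpow_mul, mul_comm, Pi.smul_apply, nsmul_eq_mul]
      rw [h2, h2, h1]
      exact mul_inv_cancel₀ (Units.ne_zero _)
    · funext i
      rw [hw i, cur_const w a (P.2 i) (hcst i)]
      show ∑ m : Ξ, (P.2 i).coeff m.1 * (((∏ l, w l ^ m.1 l : Kˣ) : K) *
        (((∏ l, w0 l ^ m.1 l : Kˣ) : K))⁻¹ * ((∏ l, w0 l ^ m.1 l : Kˣ) : K)) = _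
      have h1 : ∀ m : Ξ, (P.2 i).coeff m.1 * (((∏ l, w l ^ m.1 l : Kˣ) : K) *
          (((∏ l, w0 l ^ m.1 l : Kˣ) : K))⁻¹ * ((∏ l, w0 l ^ m.1 l : Kˣ) : K)) =
          (P.2 i).coeff m.1 * ((∏ l, w l ^ m.1 l : Kˣ) : K) := by
        intro m
        rw [inv_mul_cancel_right₀ (Units.ne_zero _)]
      rw [Finset.sum_congr rfl fun m _ => h1 m]
      rw [Finset.sum_coe_sort Ξ (fun m => (P.2 i).coeff m * ((∏ l, w l ^ m l : Kˣ) : K))]
      symm
      refine Finset.sum_subset ?_ ?_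
      · intro m hm
        rw [Finset.mem_filter] at hm
        rw [hΞ, Finset.mem_filter, hA0, Finset.mem_biUnion]
        exact ⟨⟨i, Finset.mem_univ _, hm.1⟩, hm.2⟩
      · intro m hm hm'
        rw [hΞ, Finset.mem_filter] at hm
        rw [Finset.mem_filter, not_and] at hm'
        have h2 : m ∉ (P.2 i).coeff.support := fun h => hm' h hm.2
        rw [Finsupp.notMem_support_iff.1 h2, zero_mul]
  have hfin : (Φ '' (Fintype.piFinset t : Set ((m : Ξ) → K))).Finite :=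
    (Finset.finite_toSet _).image _
  refine ⟨hfin.subset hsub, (Set.ncard_le_ncard hsub hfin).trans ?_⟩
  refine (Set.ncard_image_le (Finset.finite_toSet _)).trans ?_
  rw [Set.ncard_coe_finset, Fintype.card_piFinset]
  rw [← Finset.prod_coe_sort Ξ N]
  refine Finset.prod_le_prod' fun m _ => ?_
  exact (Multiset.toFinset_card_le _).trans (Polynomial.card_nthRoots _ _)

/-- **A uniform bound in families with unit parameters.** -/
theorem uniformJ (n m k : ℕ) (B δ M : ℝ) (hδ : 0 < δ) (Γ : Subgroup Kˣ) (hΓ : Γ.FG) (v : Pl K)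
    (I : Ideal (MvPolynomial (Fin n ⊕ Fin m) K))
    (F : Fin m → Polynomial (MvPolynomial (Fin n) K)) (hFm : ∀ i, (F i).Monic)
    (hFI : ∀ i, eqA (F i) i ∈ I) (J : Fin n → Prop) :
    ∃ N : ℕ, ∀ (s : Fin n → K) (A : Set (Fin n ⊕ Fin m → K)),
      (∀ z ∈ A, (∀ G ∈ I, MvPolynomial.eval z G = 0) ∧ (∀ l, Sparse Γ k M (z (Sum.inl l))) ∧
        (∀ l, J l → z (Sum.inl l) = s l ∧ ∃ u : Kˣ, u ∈ Γ ∧ s l = (u : K)) ∧
        (∃ h : ℝ, 1 ≤ h ∧ (∀ l, mulHeight₁ (z (Sum.inl l)) ≤ M * h ^ B) ∧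
          ∀ i, NearSep Γ v B δ M h (F i).natDegree
            ((F i).map (MvPolynomial.eval fun l => z (Sum.inl l)))) ∧
        Isolated (fun i => ∃ l, J l ∧ i = Sum.inl l) I z) →
      A.Finite ∧ A.ncard ≤ N := by
  classical
  obtain ⟨𝓣, hfin, hI, hall⟩ := structureJ n m k B δ M hδ Γ hΓ v I F hFm hFI J
  obtain ⟨J', hJ'⟩ : ∃ J' : Fin n ⊕ Fin m → Prop, J' = fun i => ∃ l, J l ∧ i = Sum.inl l :=
    ⟨_, rfl⟩
  rw [← hJ'] at hI ⊢
  have hb : ∀ P : Fam K (Fin n ⊕ Fin m), ∃ N : ℕ, P ∈ 𝓣 → ∀ (s : Fin n ⊕ Fin m → K)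
      (A : Set (Fin n ⊕ Fin m → K)), (∀ j, J' j → s j ≠ 0) →
      (∀ z ∈ A, (∀ j, J' j → z j = s j) ∧ Isolated J' I z ∧
        ∃ w : Fin P.1 → Kˣ, ∀ i, z i = evU w (P.2 i)) →
      A.Finite ∧ A.ncard ≤ N := by
    intro P
    by_cases hP : P ∈ 𝓣
    · obtain ⟨N, hN⟩ := fibre_bound J' I P (hI P hP).1 (hI P hP).2
      exact ⟨N, fun _ => hN⟩
    · exact ⟨0, fun h => absurd h hP⟩
  choose N hN using hb
  refine ⟨∑ P ∈ hfin.toFinset, N P, fun s A hA => ?_⟩
  rcases A.eq_empty_or_nonempty with rfl | ⟨z0, hz0⟩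
  · exact ⟨Set.finite_empty, by simp⟩
  have hs0 : ∀ j, J' j → Sum.elim s (fun _ => (0 : K)) j ≠ 0 := by
    intro j hj
    rw [hJ'] at hj
    obtain ⟨l, hl, rfl⟩ := hj
    obtain ⟨-, u, -, hu⟩ := (hA z0 hz0).2.2.1 l hl
    rw [Sum.elim_inl, hu]
    exact u.ne_zero
  have hpart : ∀ P ∈ 𝓣, {z ∈ A | ∃ w : Fin P.1 → Kˣ, ∀ i, z i = evU w (P.2 i)}.Finite ∧
      {z ∈ A | ∃ w : Fin P.1 → Kˣ, ∀ i, z i = evU w (P.2 i)}.ncard ≤ N P := by
    intro P hP
    refine hN P hP (Sum.elim s fun _ => 0) _ hs0 ?_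
    rintro z ⟨hz, hw⟩
    refine ⟨fun j hj => ?_, (hA z hz).2.2.2.2, hw⟩
    rw [hJ'] at hj
    obtain ⟨l, hl, rfl⟩ := hj
    exact ((hA z hz).2.2.1 l hl).1
  have hcov : A ⊆ ⋃ P ∈ hfin.toFinset,
      {z ∈ A | ∃ w : Fin P.1 → Kˣ, ∀ i, z i = evU w (P.2 i)} := by
    intro z hz
    obtain ⟨h1, h2, h3, ⟨h, h4, h5, h6⟩, -⟩ := hA z hz
    have hse : Sum.elim (fun l => z (Sum.inl l)) (fun i => z (Sum.inr i)) = z := by
      funext i
      rcases i with l | i <;> rfl
    obtain ⟨P, hP, u, -, hu⟩ := hall (fun l => z (Sum.inl l)) (fun i => z (Sum.inr i)) h h4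
      (fun G hG => by rw [hse]; exact h1 G hG) h2
      (fun l hl => by rw [(h3 l hl).1]; exact (h3 l hl).2) h5 h6
    rw [hse] at hu
    exact Set.mem_biUnion (hfin.mem_toFinset.2 hP) ⟨hz, u, hu⟩
  have hUfin : (⋃ P ∈ hfin.toFinset,
      {z ∈ A | ∃ w : Fin P.1 → Kˣ, ∀ i, z i = evU w (P.2 i)}).Finite :=
    hfin.toFinset.finite_toSet.biUnion fun P hP => (hpart P (hfin.mem_toFinset.1 hP)).1
  refine ⟨hUfin.subset hcov, (Set.ncard_le_ncard hcov hUfin).trans ?_⟩
  refine (Finset.set_ncard_biUnion_le _ _).trans (Finset.sum_le_sum fun P hP => ?_)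
  exact (hpart P (hfin.mem_toFinset.1 hP)).2

end Pool.Agent.Run7.h28.ST
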