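import Mathlib
import Pool.Agent.Run7.h28.ST.Uni2
import Pool.Agent.Run7.h28.ST.Conv

/-!
# Project ST (helper28): uniform bounds for families of curves with unit parameters
-/

set_option autoImplicit false
set_option linter.unusedSectionVars false

open Filter Topology

namespace Pool.Agent.Run7.h28.ST

open NumberField IsDedekindDomain Height Module
open Pool.Agent.W180.OP (Pl av wt nrm le_nrm nrm_pos wt_nonneg exists_nrm nrm_nonneg)
open Pool.Agent.N750
open Pool.Agent.Run7.h28.HK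
open Pool.Agent.Run7.h28.BV

variable {K : Type} [Field K] [NumberField K]

/-- padding a sparse number with one term -/
lemma sparse_succ {Γ : Subgroup Kˣ} {k : ℕ} {M : ℝ} {x : K} (h : Sparse Γ k M x) :
    Sparse Γ (k + 1) (max M 1) x := by
  obtain ⟨a, u, h1, h2, h3⟩ := h
  refine ⟨Fin.snoc a 0, Fin.snoc u 1, fun r => ?_, fun r => ?_, ?_⟩
  · refine Fin.lastCases ?_ (fun r => ?_) r
    · rw [Fin.snoc_last, mulHeight₁_zero]
      exact le_max_right _ _
    · rw [Fin.snoc_castSucc]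
      exact (h1 r).trans (le_max_left _ _)
  · refine Fin.lastCases ?_ (fun r => ?_) r
    · rw [Fin.snoc_last]
      exact Γ.one_mem
    · rw [Fin.snoc_castSucc]
      exact h2 r
  · rw [Fin.sum_univ_castSucc]
    simp only [Fin.snoc_castSucc, Fin.snoc_last]
    rw [zero_mul, add_zero]
    exact h3

/-- units are sparse -/
lemma sparse_unit {Γ : Subgroup Kˣ} (k : ℕ) (M : ℝ) {u : Kˣ} (hu : u ∈ Γ) :
    Sparse Γ (k + 1) (max M 1) (u : K) := by
  refine ⟨Fin.snoc (fun _ => 0) 1, fun _ => u, fun r => ?_, fun _ => hu, ?_⟩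
  · refine Fin.lastCases ?_ (fun r => ?_) r
    · rw [Fin.snoc_last, mulHeight₁_one]
      exact le_max_right _ _
    · rw [Fin.snoc_castSucc, mulHeight₁_zero]
      exact le_max_right _ _
  · rw [Fin.sum_univ_castSucc]
    simp

/-- **Uniform bounds for curves in families with unit parameters.** -/
theorem curveU (p k : ℕ) (B δ M : ℝ) (hδ : 0 < δ) (Γ : Subgroup Kˣ) (hΓ : Γ.FG) (v : Pl K)
    (F : Polynomial (MvPolynomial (Fin (p + 1)) K)) (hF : F.Monic) :
    ∃ N : ℕ, ∀ (s : Fin p → Kˣ) (A : Set (K × K)), (∀ j, s j ∈ Γ) →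
      (∀ P ∈ A, (F.map (MvPolynomial.eval
          (Fin.snoc (fun j => (s j : K)) P.1 : Fin (p + 1) → K))).eval P.2 = 0 ∧
        Sparse Γ k M P.1 ∧
        (∃ h : ℝ, 1 ≤ h ∧ (∀ j, mulHeight₁ (s j : K) ≤ M * h ^ B) ∧
          mulHeight₁ P.1 ≤ M * h ^ B ∧ NearSep Γ v B δ M h F.natDegree
          (F.map (MvPolynomial.eval (Fin.snoc (fun j => (s j : K)) P.1 : Fin (p + 1) → K)))) ∧
        ∀ X Y : LaurentPolynomial K, LaurentPolynomial.eval₂ (RingHom.id K) 1 X = P.1 →
          LaurentPolynomial.eval₂ (RingHom.id K) 1 Y = P.2 →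
          (F.map (MvPolynomial.eval₂Hom LaurentPolynomial.C
            (Fin.snoc (fun j => LaurentPolynomial.C (s j : K)) X :
              Fin (p + 1) → LaurentPolynomial K))).eval Y = 0 →
          (∃ a, X = LaurentPolynomial.C a) ∧ ∃ b, Y = LaurentPolynomial.C b) →
      A.Finite ∧ A.ncard ≤ N := by
  classical
  obtain ⟨N, hN⟩ := uniformJ (p + 1) 1 (k + 1) B δ (max M 1) hδ Γ hΓ v
    (Ideal.span {eqA F (0 : Fin 1)}) (fun _ => F) (fun _ => hF)
    (fun i => by rw [Subsingleton.elim i 0]; exact Ideal.subset_span rfl)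
    (fun l => l ≠ Fin.last p)
  refine ⟨N, fun s A hs hA => ?_⟩
  obtain ⟨Ψ, hΨ⟩ : ∃ Ψ : K × K → (Fin (p + 1) ⊕ Fin 1 → K), Ψ = fun P =>
    Sum.elim (Fin.snoc (fun j => (s j : K)) P.1 : Fin (p + 1) → K) (fun _ => P.2) := ⟨_, rfl⟩
  have hinj : Function.Injective Ψ := by
    rintro ⟨x, y⟩ ⟨x', y'⟩ h
    rw [hΨ] at h
    have h1 := congrFun h (Sum.inl (Fin.last p))
    have h2 := congrFun h (Sum.inr 0)
    simp only [Sum.elim_inl, Sum.elim_inr, Fin.snoc_last] at h1 h2
    rw [h1, h2]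
  have key := hN (Fin.snoc (fun j => (s j : K)) (0 : K)) (Ψ '' A) ?_
  · refine ⟨Set.Finite.of_finite_image key.1 hinj.injOn, ?_⟩
    rw [← Set.ncard_image_of_injective A hinj]
    exact key.2
  rintro _ ⟨⟨x, y⟩, hP, rfl⟩
  obtain ⟨h1, h2, ⟨h, hh1, hhs, hhx, h3⟩, h4⟩ := hA _ hP
  simp only at h1 h2 h3 h4 hhx
  rw [hΨ]
  simp only [Sum.elim_inl]
  have hMB : M * h ^ B ≤ max M 1 * h ^ B :=
    mul_le_mul_of_nonneg_right (le_max_left _ _) (Real.rpow_pos_of_pos (by linarith) _).le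
  refine ⟨?_, ?_, ?_, ⟨h, hh1, ?_, ?_⟩, ?_⟩
  · intro G hG
    have h5 : Ideal.span {eqA F (0 : Fin 1)} ≤ RingHom.ker (MvPolynomial.eval
        (Sum.elim (Fin.snoc (fun j => (s j : K)) x : Fin (p + 1) → K) (fun _ => y))) := by
      rw [Ideal.span_le]
      rintro _ rfl
      rw [SetLike.mem_coe, RingHom.mem_ker]
      have h6 := eval_eqA (RingHom.id K) F (0 : Fin 1)
        (Fin.snoc (fun j => (s j : K)) x : Fin (p + 1) → K) (fun _ => y)
      exact h6.trans h1
    exact (RingHom.mem_ker).1 (h5 hG)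
  · intro l
    refine Fin.lastCases ?_ (fun j => ?_) l
    · rw [Fin.snoc_last]
      exact sparse_succ h2
    · rw [Fin.snoc_castSucc]
      exact sparse_unit k M (hs j)
  · intro l
    refine Fin.lastCases (fun h => absurd rfl h) (fun j _ => ?_) l
    rw [Fin.snoc_castSucc, Fin.snoc_castSucc]
    exact ⟨rfl, s j, hs j, rfl⟩
  · intro l
    refine le_trans ?_ hMB
    refine Fin.lastCases ?_ (fun j => ?_) l
    · rw [Fin.snoc_last]
      exact hhx
    · rw [Fin.snoc_castSucc]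
      exact hhs j
  · intro _
    obtain ⟨a, z, E, b1, b2, b3, b4, b6, b7, b8, b9⟩ := h3
    exact ⟨a, z, E, b1, b2, b3, b4, fun j => (b6 j).trans (le_max_left _ _), b7.trans hMB,
      b8.trans hMB, fun j hj => (b9 j hj).trans
      (mul_le_mul_of_nonneg_right (le_max_left _ _) (Real.rpow_pos_of_pos (by linarith) _).le)⟩
  · intro q hq1 hq2 hq3
    have e1 : (fun l => q (Sum.inl l)) = (Fin.snoc (fun j => LaurentPolynomial.C (s j : K))
        (q (Sum.inl (Fin.last p))) : Fin (p + 1) → LaurentPolynomial K) := by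
      funext l
      refine Fin.lastCases ?_ (fun j => ?_) l
      · rw [Fin.snoc_last]
      · rw [Fin.snoc_castSucc, hq3 _ ⟨j.castSucc, (Fin.castSucc_lt_last j).ne, rfl⟩, Sum.elim_inl,
          Fin.snoc_castSucc]
    have e2 : q = Sum.elim (Fin.snoc (fun j => LaurentPolynomial.C (s j : K))
        (q (Sum.inl (Fin.last p))) : Fin (p + 1) → LaurentPolynomial K)
        (fun _ => q (Sum.inr 0)) := by
      funext i
      rcases i with l | i
      · exact congrFun e1 l
      · rw [Subsingleton.elim i 0]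
        rfl
    have e3 := hq2 (eqA F (0 : Fin 1)) (Ideal.subset_span (Set.mem_singleton _))
    have e4 : MvPolynomial.eval₂ LaurentPolynomial.C q (eqA F (0 : Fin 1)) = 0 := by
      rw [MvPolynomial.aeval_def] at e3
      exact e3
    rw [e2, eval_eqA] at e4
    obtain ⟨⟨a, ha⟩, b, hb⟩ := h4 _ _ (by
      have := hq1 (Sum.inl (Fin.last p))
      rwa [Sum.elim_inl, Fin.snoc_last] at this) (hq1 (Sum.inr 0)) e4
    intro i
    rcases i with l | i
    · rw [congrFun e1 l]
      refine Fin.lastCases ?_ (fun j => ?_) l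
      · rw [Fin.snoc_last]
        exact ⟨a, ha⟩
      · rw [Fin.snoc_castSucc]
        exact ⟨_, rfl⟩
    · rw [Subsingleton.elim i 0]
      exact ⟨b, hb⟩

end Pool.Agent.Run7.h28.ST
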