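import Mathlib
import Pool.Agent.Run7.h28.ST.Uni3

/-!
# Project ST (helper28): sparse numbers are sums of units of small height
-/

set_option autoImplicit false
set_option linter.unusedSectionVars false

open Filter Topology

namespace Pool.Agent.Run7.h28.ST

open NumberField IsDedekindDomain Height Module
open Pool.Agent.W180.OP (Pl av wt nrm le_nrm nrm_pos wt_nonneg exists_nrm nrm_nonneg)
open Pool.Agent.N750
open Pool.Agent.Run7.h28.HK
open Pool.Agent.Run7.h28.BV

variable {K : Type} [Field K] [NumberField K]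

/-- **Sparse numbers are sums of units of small height.** -/
theorem rep_small (k : ℕ) (M : ℝ) (hM : 1 ≤ M) (Γ : Subgroup Kˣ) (hΓ : Γ.FG) :
    ∃ C : ℝ, 1 ≤ C ∧ ∀ x : K, Sparse Γ k M x →
      ∃ (a : Fin k → K) (u : Fin k → Kˣ), (∀ r, mulHeight₁ (a r) ≤ M) ∧ (∀ r, u r ∈ Γ) ∧
        x = ∑ r, a r * (u r : K) ∧ ∀ r, mulHeight₁ (u r : K) ≤ C * mulHeight₁ x ^ C := by
  classical
  by_contra hcon
  push Not at hcon
  have h1 : ∀ t : ℕ, (1 : ℝ) ≤ Real.exp (((t : ℝ) + 1) ^ 2) := fun t => by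
    rw [← Real.exp_zero]
    exact Real.exp_le_exp.2 (by positivity)
  choose x hx hbad using fun t : ℕ => hcon (Real.exp (((t : ℝ) + 1) ^ 2)) (h1 t)
  have hx' := hx
  choose a u ha hu hxe using hx'
  obtain ⟨H, hHdef⟩ : ∃ H : ℕ → ℝ, H = fun t : ℕ => ((t : ℝ) + 1) * (1 + logHeight₁ (x t)) := ⟨_, rfl⟩
  have hl0 : ∀ t, 0 ≤ logHeight₁ (x t) := fun t => zero_le_logHeight₁ _
  have hHt : ∀ t : ℕ, (t : ℝ) + 1 ≤ H t := fun t => by
    rw [hHdef]
    have h2 : (0 : ℝ) < (t : ℝ) + 1 := by positivity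
    nlinarith [hl0 t]
  have hH : Tendsto H (hyperfilter ℕ : Filter ℕ) atTop := by
    refine Tendsto.mono_left ?_ Nat.hyperfilter_le_atTop
    refine tendsto_atTop_mono (fun t => (le_add_of_nonneg_right zero_le_one).trans (hHt t)) ?_
    exact tendsto_natCast_atTop_atTop
  have hxm : Mdr (hyperfilter ℕ) H x := by
    refine ⟨1, Eventually.of_forall fun t => ?_⟩
    rw [hHdef, one_mul]
    have h2 : (0 : ℝ) ≤ (t : ℝ) := by positivity
    nlinarith [hl0 t]
  obtain ⟨S, hS, hΓS, -⟩ := exists_S' Γ hΓ (∅ : Finset (Pl K))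
  have h2 : ∀ r, ∃ c : K, ∀ᶠ t in (hyperfilter ℕ : Filter ℕ), a t r = c := by
    intro r
    refine const_of_bdd (B := Real.log M) (Eventually.of_forall fun t => ?_)
    rw [logHeight₁_eq_log_mulHeight₁]
    exact Real.log_le_log (mulHeight₁_pos _) (ha t r)
  choose c hc using h2
  have h3 : ∀ᶠ t in (hyperfilter ℕ : Filter ℕ), ∀ r, a t r = c r := by
    rw [Filter.eventually_all]
    exact hc
  obtain ⟨A', -, h4, h5⟩ := cst_mod hH S hS (fun r t => (u t r : K))
    (fun r t => hΓS _ (hu t r)) c x hxm _ (Finset.univ : Finset (Fin k)) le_rfl (by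
      filter_upwards [h3] with t ht
      rw [hxe t]
      exact Finset.sum_congr rfl fun r _ => by rw [ht r])
  choose! C hC using h5
  have h6 : ∀ᶠ t in (hyperfilter ℕ : Filter ℕ), ∀ r ∈ A', logHeight₁ (u t r : K) ≤ C r * H t := by
    rw [Filter.eventually_all_finset]
    exact fun r hr => hC r hr
  have h7 : ∀ᶠ t : ℕ in (hyperfilter ℕ : Filter ℕ), ∀ r ∈ A', C r ≤ (t : ℝ) + 1 := by
    rw [Filter.eventually_all_finset]
    intro r _
    refine Filter.Eventually.filter_mono Nat.hyperfilter_le_atTop ?_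
    filter_upwards [tendsto_natCast_atTop_atTop.eventually_ge_atTop (C r)] with t ht
    linarith
  obtain ⟨t, ⟨⟨g1, g2⟩, g3⟩, g4⟩ := (((h4.and h3).and h6).and h7).exists
  obtain ⟨r, hr⟩ := hbad t (fun r => if r ∈ A' then c r else 0)
    (fun r => if r ∈ A' then u t r else 1)
    (fun r => by
      split_ifs
      · rw [← g2 r]
        exact ha t r
      · rw [mulHeight₁_zero]
        exact hM)
    (fun r => by
      split_ifs
      · exact hu t r
      · exact Γ.one_mem)
    (by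
      rw [g1]
      simp only [ite_mul, zero_mul]
      rw [Finset.sum_ite_mem, Finset.univ_inter]
      refine Finset.sum_congr rfl fun r hr => ?_
      rw [if_pos hr])
  have hx1 : 1 ≤ mulHeight₁ (x t) := one_le_mulHeight₁ _
  have hE : Real.exp (((t : ℝ) + 1) ^ 2) ≤
      Real.exp (((t : ℝ) + 1) ^ 2) * mulHeight₁ (x t) ^ (Real.exp (((t : ℝ) + 1) ^ 2)) :=
    le_mul_of_one_le_right (Real.exp_pos _).le
      (Real.one_le_rpow hx1 (Real.exp_pos _).le)
  by_cases hrA : r ∈ A'
  · rw [if_pos hrA] at hr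
    have g5 := Real.log_lt_log (mul_pos (Real.exp_pos _) (Real.rpow_pos_of_pos (by linarith) _)) hr
    rw [Real.log_mul (Real.exp_pos _).ne' (Real.rpow_pos_of_pos (by linarith) _).ne',
      Real.log_exp, Real.log_rpow (by linarith)] at g5
    have g6 : ((t : ℝ) + 1) ^ 2 ≤ Real.exp (((t : ℝ) + 1) ^ 2) := by
      have := Real.add_one_le_exp (((t : ℝ) + 1) ^ 2)
      linarith
    have g7 : logHeight₁ (u t r : K) ≤ ((t : ℝ) + 1) * H t :=
      (g3 r hrA).trans (mul_le_mul_of_nonneg_right (g4 r hrA) (by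
        have := hHt t
        have h8 : (0 : ℝ) ≤ (t : ℝ) := by positivity
        linarith))
    have g8 : logHeight₁ (x t) = Real.log (mulHeight₁ (x t)) := rfl
    have g9 : logHeight₁ (u t r : K) = Real.log (mulHeight₁ (u t r : K)) := rfl
    have g10 : ((t : ℝ) + 1) * H t = ((t : ℝ) + 1) ^ 2 * (1 + logHeight₁ (x t)) := by
      rw [hHdef]
      ring
    have g11 := mul_le_mul_of_nonneg_right g6 (hl0 t)
    rw [← g8, ← g9] at g5
    rw [g10] at g7
    linarith
  · rw [if_neg hrA, Units.val_one, mulHeight₁_one] at hr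
    linarith [h1 t]

/-- the substitution of sums with the digits `a` for the parameters -/
noncomputable def subst (p k : ℕ) (a : Fin p → Fin k → K) :
    Fin (p + 1) → MvPolynomial (Fin (p * k + 1)) K :=
  Fin.snoc (fun j => ∑ r, MvPolynomial.C (a j r) *
    MvPolynomial.X (Fin.castSucc (finProdFinEquiv (j, r)))) (MvPolynomial.X (Fin.last (p * k)))

lemma eval_subst {R : Type} [CommRing R] (p k : ℕ) (a : Fin p → Fin k → K) (g : K →+* R)
    (u : Fin (p * k) → R) (x : R) (F : Polynomial (MvPolynomial (Fin (p + 1)) K)) :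
    (F.map (MvPolynomial.aeval (subst p k a)).toRingHom).map
      (MvPolynomial.eval₂Hom g (Fin.snoc u x : Fin (p * k + 1) → R)) =
    F.map (MvPolynomial.eval₂Hom g (Fin.snoc (fun j => ∑ r, g (a j r) * u (finProdFinEquiv (j, r))) x :
      Fin (p + 1) → R)) := by
  rw [Polynomial.map_map]
  congr 1
  refine MvPolynomial.ringHom_ext (fun c => ?_) fun l => ?_
  · simp [MvPolynomial.eval₂Hom_C]
  · rw [RingHom.comp_apply]
    show (MvPolynomial.eval₂Hom g (Fin.snoc u x : Fin (p * k + 1) → R))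
      (MvPolynomial.aeval (subst p k a) (MvPolynomial.X l)) = _
    rw [MvPolynomial.aeval_X, MvPolynomial.eval₂Hom_X']
    unfold subst
    refine Fin.lastCases ?_ (fun j => ?_) l
    · rw [Fin.snoc_last, Fin.snoc_last, MvPolynomial.eval₂Hom_X', Fin.snoc_last]
    · rw [Fin.snoc_castSucc, Fin.snoc_castSucc, map_sum]
      refine Finset.sum_congr rfl fun r _ => ?_
      rw [map_mul, MvPolynomial.eval₂Hom_C, MvPolynomial.eval₂Hom_X', Fin.snoc_castSucc]

/-- **Uniform bounds for curves in families with sparse parameters.** -/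
theorem curveS (p k : ℕ) (B δ M : ℝ) (hδ : 0 < δ) (Γ : Subgroup Kˣ) (hΓ : Γ.FG) (v : Pl K)
    (F : Polynomial (MvPolynomial (Fin (p + 1)) K)) (hF : F.Monic) :
    ∃ N : ℕ, ∀ (s : Fin p → K) (A : Set (K × K)), (∀ j, Sparse Γ k M (s j)) →
      (∀ P ∈ A, (F.map (MvPolynomial.eval
          (Fin.snoc s P.1 : Fin (p + 1) → K))).eval P.2 = 0 ∧
        Sparse Γ k M P.1 ∧
        NearSep Γ v B δ M ((∏ j, mulHeight₁ (s j)) * mulHeight₁ P.1) F.natDegree
          (F.map (MvPolynomial.eval (Fin.snoc s P.1 : Fin (p + 1) → K))) ∧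
        ∀ X Y : LaurentPolynomial K, LaurentPolynomial.eval₂ (RingHom.id K) 1 X = P.1 →
          LaurentPolynomial.eval₂ (RingHom.id K) 1 Y = P.2 →
          (F.map (MvPolynomial.eval₂Hom LaurentPolynomial.C
            (Fin.snoc (fun j => LaurentPolynomial.C (s j)) X :
              Fin (p + 1) → LaurentPolynomial K))).eval Y = 0 →
          (∃ a, X = LaurentPolynomial.C a) ∧ ∃ b, Y = LaurentPolynomial.C b) →
      A.Finite ∧ A.ncard ≤ N := by
  classical
  obtain ⟨M', hM'⟩ : ∃ M' : ℝ, M' = max M 1 := ⟨_, rfl⟩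
  have hM'1 : 1 ≤ M' := by rw [hM']; exact le_max_right _ _
  have hMM' : M ≤ M' := by rw [hM']; exact le_max_left _ _
  obtain ⟨C, hC, hrep⟩ := rep_small (K := K) k M' hM'1 Γ hΓ
  obtain ⟨R, hR⟩ : ∃ R : ℝ, R = max M' C := ⟨_, rfl⟩
  obtain ⟨B', hB'⟩ : ∃ B' : ℝ, B' = max (max B 1) C := ⟨_, rfl⟩
  have hR1 : 1 ≤ R := hM'1.trans (by rw [hR]; exact le_max_left _ _)
  -- the digits
  obtain ⟨D, hD⟩ : ∃ D : Finset K, ∀ z, z ∈ D ↔ mulHeight₁ z ≤ M' := by
    have hfin : {z : K | mulHeight₁ z ≤ M'}.Finite := Northcott.finite_le _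
    exact ⟨hfin.toFinset, fun z => hfin.mem_toFinset⟩
  choose N hN using fun a : Fin p → Fin k → D =>
    curveU (p * k) k B' δ R hδ Γ hΓ v
      (F.map (MvPolynomial.aeval (subst p k (fun j r => (a j r : K)))).toRingHom) (hF.map _)
  refine ⟨∑ a, N a, fun s A hs hA => ?_⟩
  rcases Set.eq_empty_or_nonempty A with rfl | -
  · exact ⟨Set.finite_empty, by simp⟩
  have hs' : ∀ j, Sparse Γ k M' (s j) := fun j => by
    obtain ⟨a, u, h1, h2, h3⟩ := hs j
    exact ⟨a, u, fun r => (h1 r).trans hMM', h2, h3⟩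
  choose a u ha hu hsu hht using fun j => hrep (s j) (hs' j)
  obtain ⟨a', ha'⟩ : ∃ a' : Fin p → Fin k → D, a' = fun j r => ⟨a j r, (hD _).2 (ha j r)⟩ :=
    ⟨_, rfl⟩
  obtain ⟨w, hw⟩ : ∃ w : Fin (p * k) → Kˣ, w = fun i =>
    u (finProdFinEquiv.symm i).1 (finProdFinEquiv.symm i).2 := ⟨_, rfl⟩
  have hwjr : ∀ j r, w (finProdFinEquiv (j, r)) = u j r := fun j r => by
    rw [hw]
    simp only [Equiv.symm_apply_apply]
  have hevR : ∀ {R : Type} [CommRing R] (g : K →+* R) (x : R),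
      (F.map (MvPolynomial.aeval (subst p k (fun j r => (a' j r : K)))).toRingHom).map
        (MvPolynomial.eval₂Hom g (Fin.snoc (fun i => g (w i : K)) x : Fin (p * k + 1) → R)) =
      F.map (MvPolynomial.eval₂Hom g (Fin.snoc (fun j => g (s j)) x : Fin (p + 1) → R)) := by
    intro R _ g x
    rw [eval_subst]
    have e1 : (fun j => ∑ r, g ((a' j r : K)) * g (w (finProdFinEquiv (j, r)) : K)) =
        fun j => g (s j) := by
      funext j
      conv_rhs => rw [hsu j, map_sum]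
      refine Finset.sum_congr rfl fun r _ => ?_
      rw [map_mul, hwjr, ha']
    rw [e1]
  have hev : ∀ x : K, (F.map (MvPolynomial.aeval (subst p k
      (fun j r => (a' j r : K)))).toRingHom).map
        (MvPolynomial.eval (Fin.snoc (fun i => (w i : K)) x : Fin (p * k + 1) → K)) =
      F.map (MvPolynomial.eval (Fin.snoc s x : Fin (p + 1) → K)) := fun x =>
    hevR (RingHom.id K) x
  have hdeg : (F.map (MvPolynomial.aeval (subst p k
      (fun j r => (a' j r : K)))).toRingHom).natDegree = F.natDegree := hF.natDegree_map _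
  have key := hN a' w A (fun i => by rw [hw]; exact hu _ _) ?_
  · exact ⟨key.1, key.2.trans (Finset.single_le_sum (f := N) (fun _ _ => Nat.zero_le _)
      (Finset.mem_univ a'))⟩
  intro P hP
  obtain ⟨h1, h2, h3, h4⟩ := hA P hP
  have hS1 : 1 ≤ ∏ j, mulHeight₁ (s j) := by
    have g2 := Finset.prod_le_prod (s := Finset.univ) (f := fun _ => (1 : ℝ))
      (g := fun j => mulHeight₁ (s j)) (fun _ _ => zero_le_one)
      (fun j _ => one_le_mulHeight₁ (s j))
    rwa [Finset.prod_const_one] at g2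
  have hx1 : 1 ≤ mulHeight₁ P.1 := one_le_mulHeight₁ _
  obtain ⟨h, hh⟩ : ∃ h : ℝ, h = (∏ j, mulHeight₁ (s j)) * mulHeight₁ P.1 := ⟨_, rfl⟩
  have hh1 : 1 ≤ h := by
    rw [hh]
    exact one_le_mul_of_one_le_of_one_le hS1 hx1
  have hsh : ∀ j, mulHeight₁ (s j) ≤ h := by
    intro j
    have g1 : mulHeight₁ (s j) ≤ ∏ j, mulHeight₁ (s j) := by
      have g2 := Finset.prod_le_prod (s := Finset.univ.erase j) (f := fun _ => (1 : ℝ))
        (g := fun l => mulHeight₁ (s l)) (fun _ _ => zero_le_one)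
        (fun l _ => one_le_mulHeight₁ (s l))
      rw [Finset.prod_const_one] at g2
      rw [← Finset.mul_prod_erase Finset.univ (fun l => mulHeight₁ (s l)) (Finset.mem_univ j)]
      exact le_mul_of_one_le_right (mulHeight₁_pos _).le g2
    rw [hh]
    exact g1.trans (le_mul_of_one_le_right (by linarith) hx1)
  have hpow : ∀ {b b' : ℝ}, b ≤ b' → h ^ b ≤ h ^ b' := fun hb =>
    Real.rpow_le_rpow_of_exponent_le hh1 hb
  have hpos : ∀ b : ℝ, 0 < h ^ b := fun b => Real.rpow_pos_of_pos (by linarith) _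
  have hMR : M ≤ R := hMM'.trans (by rw [hR]; exact le_max_left _ _)
  have hMB : M * h ^ B ≤ R * h ^ B' :=
    mul_le_mul hMR (hpow (by rw [hB']; exact (le_max_left _ _).trans (le_max_left _ _)))
      (hpos _).le (by linarith)
  refine ⟨by rw [hev]; exact h1, ?_, ⟨h, hh1, fun i => ?_, ?_, ?_⟩, fun X Y hX hY hXY => ?_⟩
  · obtain ⟨b, t, g1, g2, g3⟩ := h2
    exact ⟨b, t, fun r => (g1 r).trans hMR, g2, g3⟩
  · rw [hw]
    refine (hht _ _).trans ?_
    refine mul_le_mul (by rw [hR]; exact le_max_right _ _) ?_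
      (Real.rpow_pos_of_pos (mulHeight₁_pos _) _).le (by linarith)
    refine (Real.rpow_le_rpow (mulHeight₁_pos _).le (hsh _) (by linarith)).trans ?_
    exact hpow (by rw [hB']; exact le_max_right _ _)
  · have g1 : mulHeight₁ P.1 ≤ h := by
      rw [hh]
      exact le_mul_of_one_le_left (by linarith) hS1
    refine g1.trans ?_
    calc h = h ^ (1 : ℝ) := (Real.rpow_one _).symm
      _ ≤ h ^ B' := hpow (by rw [hB']; exact (le_max_right _ _).trans (le_max_left _ _))
      _ ≤ R * h ^ B' := le_mul_of_one_le_left (hpos _).le hR1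
  · rw [hdeg, hev]
    rw [← hh] at h3
    obtain ⟨b, z, E, b1, b2, b3, b4, b6, b7, b8, b9⟩ := h3
    exact ⟨b, z, E, b1, b2, b3, b4, fun j => (b6 j).trans hMR, b7.trans hMB,
      b8.trans hMB, fun j hj => (b9 j hj).trans
      (mul_le_mul_of_nonneg_right hMR (hpos _).le)⟩
  · rw [hevR] at hXY
    exact h4 X Y hX hY hXY

end Pool.Agent.Run7.h28.ST
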