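import Mathlib
import Pool.Agent.Run7.h28.ST.Rep
import Pool.Agent.Run7.h28.BV.CurT2

/-!
# Project ST (helper28): uniform bounds for hyperelliptic curves with sparse coefficients
-/

set_option autoImplicit false
set_option linter.unusedSectionVars false

open Filter Topology

namespace Pool.Agent.Run7.h28.ST

open NumberField IsDedekindDomain Height Module
open Pool.Agent.W180.OP (Pl av wt nrm le_nrm nrm_pos wt_nonneg exists_nrm nrm_nonneg)
open Pool.Agent.N750
open Pool.Agent.Run7.h28.HK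
open Pool.Agent.Run7.h28.BV

/-- finitely many classes modulo powers -/
theorem power_classes {G : Type} [CommGroup G] (Γ : Subgroup G) (hΓ : Γ.FG) (n : ℕ) (hn : 0 < n) :
    ∃ R : Set G, R.Finite ∧ R ⊆ Γ ∧ ∀ g ∈ Γ, ∃ r ∈ R, ∃ z ∈ Γ, g * z ^ n = r := by
  classical
  have : Group.FG Γ := (Group.fg_iff_subgroup_fg Γ).2 hΓ
  let P : Subgroup Γ := (powMonoidHom n : Γ →* Γ).range
  have htor : IsMulTorsion (Γ ⧸ P) := by
    intro x
    obtain ⟨g, rfl⟩ := QuotientGroup.mk_surjective x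
    refine isOfFinOrder_iff_pow_eq_one.2 ⟨n, hn, ?_⟩
    rw [← QuotientGroup.mk_pow, QuotientGroup.eq_one_iff]
    exact ⟨g, rfl⟩
  have : Finite (Γ ⧸ P) := CommGroup.finite_of_fg_isMulTorsion _ htor
  refine ⟨Set.range (fun q : Γ ⧸ P => ((Quotient.out q : Γ) : G)), Set.finite_range _, ?_, ?_⟩
  · rintro _ ⟨q, rfl⟩
    exact (Quotient.out q).2
  · intro g hg
    refine ⟨_, ⟨QuotientGroup.mk ⟨g, hg⟩, rfl⟩, ?_⟩
    have h1 : (QuotientGroup.mk (⟨g, hg⟩ : Γ) : Γ ⧸ P) =
        QuotientGroup.mk (Quotient.out (QuotientGroup.mk (⟨g, hg⟩ : Γ) : Γ ⧸ P)) :=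
      (QuotientGroup.out_eq' _).symm
    rw [QuotientGroup.eq] at h1
    obtain ⟨z, hz⟩ := h1
    refine ⟨z, z.2, ?_⟩
    have h2 : (z : Γ) ^ n = (⟨g, hg⟩ : Γ)⁻¹ * Quotient.out (QuotientGroup.mk (⟨g, hg⟩ : Γ) : Γ ⧸ P) :=
      hz
    have h3 := congrArg (fun w : Γ => (w : G)) h2
    simp only [Subgroup.coe_mul, Subgroup.coe_pow, Subgroup.coe_inv] at h3
    rw [h3, mul_inv_cancel_left]

/-- there are no nonconstant maps from the multiplicative group to a hyperelliptic curve -/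
theorem no_laurentXY {K : Type} [Field K] [CharZero K] (f : Polynomial K) (hf : f.Separable)
    (hd : 3 ≤ f.natDegree) (X Y : LaurentPolynomial K)
    (h : Y ^ 2 = ∑ i ∈ Finset.range (f.natDegree + 1), LaurentPolynomial.C (f.coeff i) * X ^ i) :
    (∃ c, X = LaurentPolynomial.C c) ∧ ∃ c, Y = LaurentPolynomial.C c := by
  obtain ⟨N1, P1, hP1⟩ := LaurentPolynomial.exists_T_pow X
  obtain ⟨N2, P2, hP2⟩ := LaurentPolynomial.exists_T_pow Y
  obtain ⟨N, hN⟩ : ∃ N, N = N1 + N2 := ⟨_, rfl⟩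
  have h1 : Polynomial.toLaurent (P1 * Polynomial.X ^ N2) = X * LaurentPolynomial.T N := by
    rw [map_mul, hP1, Polynomial.toLaurent_X_pow, mul_assoc, ← LaurentPolynomial.T_add, hN]
    push_cast
    rfl
  have h2 : Polynomial.toLaurent (P2 * Polynomial.X ^ N1) = Y * LaurentPolynomial.T N := by
    rw [map_mul, hP2, Polynomial.toLaurent_X_pow, mul_assoc, ← LaurentPolynomial.T_add, hN,
      add_comm (N2 : ℤ)]
    push_cast
    rfl
  have h3 : Polynomial.toLaurent (Polynomial.X ^ N : Polynomial K) = LaurentPolynomial.T N :=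
    Polynomial.toLaurent_X_pow N
  obtain ⟨c, c', h4, h4'⟩ := Pool.Agent.TH551.HE.no_param K f hf hd (P1 * Polynomial.X ^ N2)
    (Polynomial.X ^ N) (P2 * Polynomial.X ^ N1) (pow_ne_zero _ Polynomial.X_ne_zero) (by
      apply Polynomial.toLaurent_injective
      rw [map_mul, map_pow, map_pow, h2, h3, map_sum, mul_pow, h, mul_assoc, ← pow_add,
        show 2 + (f.natDegree - 2) = f.natDegree by omega, Finset.sum_mul]
      refine Finset.sum_congr rfl fun i hi => ?_
      have hi' : i ≤ f.natDegree := Nat.lt_succ_iff.1 (Finset.mem_range.1 hi)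
      rw [map_mul, map_mul, map_pow, map_pow, h1, h3, Polynomial.toLaurent_C, mul_pow,
        mul_assoc, mul_assoc, mul_assoc, ← pow_add, Nat.add_sub_cancel' hi'])
  have h6 : (LaurentPolynomial.T (N : ℤ) : LaurentPolynomial K) * LaurentPolynomial.T (-(N : ℤ)) =
      1 := by
    rw [← LaurentPolynomial.T_add, add_neg_cancel, LaurentPolynomial.T_zero]
  constructor
  · refine ⟨c, ?_⟩
    have h5 : X * LaurentPolynomial.T N = LaurentPolynomial.C c * LaurentPolynomial.T N := by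
      rw [← h1, h4, map_mul, Polynomial.toLaurent_C, h3]
    have h7 := congrArg (fun p => p * (LaurentPolynomial.T (-(N : ℤ)) : LaurentPolynomial K)) h5
    simp only [mul_assoc, h6, mul_one] at h7
    exact h7
  · refine ⟨c', ?_⟩
    have h5 : Y * LaurentPolynomial.T N = LaurentPolynomial.C c' * LaurentPolynomial.T N := by
      rw [← h2, h4', map_mul, Polynomial.toLaurent_C, h3]
    have h7 := congrArg (fun p => p * (LaurentPolynomial.T (-(N : ℤ)) : LaurentPolynomial K)) h5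
    simp only [mul_assoc, h6, mul_one] at h7
    exact h7

/-- `Y ^ 2 - (s_0 + s_1 x + … + s_d x ^ d)` -/
noncomputable def FS (K : Type) [Field K] (d : ℕ) : Polynomial (MvPolynomial (Fin (d + 1 + 1)) K) :=
  Polynomial.X ^ 2 - Polynomial.C (∑ i : Fin (d + 1), MvPolynomial.X i.castSucc *
    MvPolynomial.X (Fin.last (d + 1)) ^ (i : ℕ))

lemma FS_deg (K : Type) [Field K] (d : ℕ) : (FS K d).natDegree = 2 :=
  Polynomial.natDegree_X_pow_sub_C

lemma FS_monic (K : Type) [Field K] (d : ℕ) : (FS K d).Monic :=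
  Polynomial.monic_X_pow_sub_C _ two_ne_zero

lemma FS_map {K R : Type} [Field K] [CommRing R] (d : ℕ) (g : K →+* R) (s : Fin (d + 1) → R)
    (x : R) : (FS K d).map (MvPolynomial.eval₂Hom g (Fin.snoc s x : Fin (d + 1 + 1) → R)) =
      Polynomial.X ^ 2 - Polynomial.C (∑ i : Fin (d + 1), s i * x ^ (i : ℕ)) := by
  rw [FS, Polynomial.map_sub, Polynomial.map_pow, Polynomial.map_X, Polynomial.map_C, map_sum]
  congr 2
  refine Finset.sum_congr rfl fun i _ => ?_
  rw [map_mul, map_pow, MvPolynomial.eval₂Hom_X', MvPolynomial.eval₂Hom_X', Fin.snoc_castSucc,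
    Fin.snoc_last]

variable {K : Type} [Field K] [NumberField K]

/-- **Uniform bounds for hyperelliptic curves with sparse coefficients.** -/
theorem hyperU (d k : ℕ) (B δ M : ℝ) (hδ : 0 < δ) (Γ : Subgroup Kˣ) (hΓ : Γ.FG) (v : Pl K) :
    ∃ N : ℕ, ∀ (f : Polynomial K) (A : Set (K × K)), 3 ≤ f.natDegree → f.natDegree ≤ d →
      f.Separable → (∀ i, Sparse Γ k M (f.coeff i)) →
      (∀ P ∈ A, P.2 ^ 2 = f.eval P.1 ∧ Sparse Γ k M P.1 ∧
        ∃ (a : Kˣ) (e : K), a ∈ Γ ∧ e ≠ 0 ∧ mulHeight₁ e ≤ M ∧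
          mulHeight₁ (a : K) ≤ M * ((∏ i : Fin (d + 1), mulHeight₁ (f.coeff i)) *
            mulHeight₁ P.1) ^ B ∧
          av v ((a : K) * f.eval P.1 - e) ≤ M * ((∏ i : Fin (d + 1), mulHeight₁ (f.coeff i)) *
            mulHeight₁ P.1) ^ (-δ)) →
      A.Finite ∧ A.ncard ≤ N := by
  classical
  obtain ⟨R, hRfin, hRΓ, hR⟩ := power_classes Γ hΓ 2 two_pos
  -- the heights of the representatives
  obtain ⟨H0, hH0, hHR⟩ : ∃ H0 : ℝ, 1 ≤ H0 ∧ ∀ r ∈ R, mulHeight₁ (r : K) ≤ H0 := by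
    refine ⟨1 + ∑ r ∈ hRfin.toFinset, mulHeight₁ (r : K), ?_, fun r hr => ?_⟩
    · have := Finset.sum_nonneg fun (r : Kˣ) (_ : r ∈ hRfin.toFinset) =>
        (mulHeight₁_pos (r : K)).le
      linarith
    · have := Finset.single_le_sum (f := fun r : Kˣ => mulHeight₁ (r : K))
        (fun r _ => (mulHeight₁_pos (r : K)).le) (hRfin.mem_toFinset.2 hr)
      linarith
  obtain ⟨M', hM'⟩ : ∃ M' : ℝ, M' = H0 * max M 1 := ⟨_, rfl⟩
  have hmax : (1 : ℝ) ≤ max M 1 := le_max_right _ _
  have hMM' : M ≤ M' := by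
    rw [hM']
    exact (le_max_left _ _).trans (le_mul_of_one_le_left (by linarith) hH0)
  have hM'1 : 1 ≤ M' := by
    rw [hM']
    exact one_le_mul_of_one_le_of_one_le hH0 hmax
  obtain ⟨N, hN⟩ := curveS (d + 1) k (max B 0) δ M' hδ Γ hΓ v (FS K d) (FS_monic K d)
  refine ⟨N, fun f A hf3 hfd hfs hfc hA => ?_⟩
  have hsum : ∀ {R : Type} [CommRing R] (g : K →+* R) (x : R),
      ∑ i : Fin (d + 1), g (f.coeff i) * x ^ (i : ℕ) =
        ∑ i ∈ Finset.range (f.natDegree + 1), g (f.coeff i) * x ^ i := by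
    intro R _ g x
    rw [Fin.sum_univ_eq_sum_range (fun i => g (f.coeff i) * x ^ i) (d + 1)]
    symm
    refine Finset.sum_subset (Finset.range_mono (by omega)) fun i _ hi => ?_
    rw [Finset.mem_range, not_lt] at hi
    rw [Polynomial.coeff_eq_zero_of_natDegree_lt (by omega), map_zero, zero_mul]
  have hmap : ∀ x : K, (FS K d).map (MvPolynomial.eval
      (Fin.snoc (fun i : Fin (d + 1) => f.coeff i) x : Fin (d + 1 + 1) → K)) =
      Polynomial.X ^ 2 - Polynomial.C (f.eval x) := by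
    intro x
    have h1 := FS_map d (RingHom.id K) (fun i : Fin (d + 1) => f.coeff i) x
    have h2 := hsum (RingHom.id K) x
    simp only [RingHom.id_apply] at h2
    rw [h2, ← Polynomial.eval_eq_sum_range] at h1
    exact h1
  refine hN (fun i => f.coeff i) A (fun i => ?_) fun P hP => ?_
  · obtain ⟨a, u, h1, h2, h3⟩ := hfc i
    exact ⟨a, u, fun r => (h1 r).trans hMM', h2, h3⟩
  obtain ⟨h1, h2, a, e, ha, he0, he, hah, hcl⟩ := hA P hP
  have hS1 : 1 ≤ ∏ i : Fin (d + 1), mulHeight₁ (f.coeff i) := by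
    have g2 := Finset.prod_le_prod (s := Finset.univ) (f := fun _ => (1 : ℝ))
      (g := fun i : Fin (d + 1) => mulHeight₁ (f.coeff i)) (fun _ _ => zero_le_one)
      (fun i _ => one_le_mulHeight₁ (f.coeff i))
    rwa [Finset.prod_const_one] at g2
  obtain ⟨h, hh⟩ : ∃ h : ℝ, h = (∏ i : Fin (d + 1), mulHeight₁ (f.coeff i)) * mulHeight₁ P.1 :=
    ⟨_, rfl⟩
  have hh1 : 1 ≤ h := by
    rw [hh]
    exact one_le_mul_of_one_le_of_one_le hS1 (one_le_mulHeight₁ _)
  rw [← hh] at hah hcl ⊢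
  have hpos : ∀ b : ℝ, 0 < h ^ b := fun b => Real.rpow_pos_of_pos (by linarith) _
  obtain ⟨r, hr, z, hz, haz⟩ := hR a ha
  have haz' : (a : K) * (z : K) ^ 2 = (r : K) := by
    rw [← haz]
    push_cast
    rfl
  have ha' : mulHeight₁ (a : K) ≤ max M 1 * h ^ (max B 0) :=
    hah.trans (mul_le_mul (le_max_left _ _) (Real.rpow_le_rpow_of_exponent_le hh1
      (le_max_left _ _)) (hpos _).le (by linarith))
  have hz' : mulHeight₁ (z : K) ≤ M' * h ^ (max B 0) := by
    have e1 : (z : K) ^ 2 = (r : K) * (a : K)⁻¹ := by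
      rw [← haz']
      field_simp
    have e2 : mulHeight₁ (z : K) ^ 2 ≤ H0 * (max M 1 * h ^ (max B 0)) := by
      rw [← mulHeight₁_pow, e1]
      refine (mulHeight₁_mul_le _ _).trans ?_
      rw [mulHeight₁_inv]
      exact mul_le_mul (hHR r hr) ha' (mulHeight₁_pos _).le (by linarith)
    have e3 : mulHeight₁ (z : K) ≤ mulHeight₁ (z : K) ^ 2 := by
      have := one_le_mulHeight₁ (z : K)
      nlinarith
    rw [hM', mul_assoc]
    exact e3.trans e2
  refine ⟨?_, ?_, ⟨a, z, Polynomial.C (r : K) * Polynomial.X ^ 2 - Polynomial.C e, ha, hz, ?_, ?_,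
    ?_, ?_, hz', ?_⟩, fun X Y _ _ hXY => ?_⟩
  · rw [hmap, Polynomial.eval_sub, Polynomial.eval_pow, Polynomial.eval_X, Polynomial.eval_C, h1,
      sub_self]
  · obtain ⟨b, t, g1, g2, g3⟩ := h2
    exact ⟨b, t, fun r => (g1 r).trans hMM', g2, g3⟩
  · rw [FS_deg, Polynomial.natDegree_sub_C, Polynomial.natDegree_C_mul_X_pow 2 _ r.ne_zero]
  · -- separable
    have e1 : Polynomial.derivative (Polynomial.C (r : K) * Polynomial.X ^ 2 - Polynomial.C e) =
        Polynomial.C (2 * (r : K)) * Polynomial.X := by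
      rw [Polynomial.derivative_sub, Polynomial.derivative_C_mul, Polynomial.derivative_X_pow,
        Polynomial.derivative_C, sub_zero]
      simp only [Nat.cast_ofNat, Nat.add_one_sub_one, pow_one]
      rw [← mul_assoc, ← Polynomial.C_mul]
      congr 2
      ring
    refine ⟨Polynomial.C (-e⁻¹), Polynomial.C (e⁻¹ * 2⁻¹) * Polynomial.X, ?_⟩
    rw [e1]
    have e2 : Polynomial.C (-e⁻¹) * (Polynomial.C (r : K) * Polynomial.X ^ 2 - Polynomial.C e) +
        Polynomial.C (e⁻¹ * 2⁻¹) * Polynomial.X * (Polynomial.C (2 * (r : K)) * Polynomial.X) =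
        Polynomial.C (e⁻¹ * e) + Polynomial.C (-e⁻¹ * r + e⁻¹ * 2⁻¹ * (2 * r)) *
          Polynomial.X ^ 2 := by
      simp only [Polynomial.C_mul, Polynomial.C_add, Polynomial.C_neg]
      ring
    rw [e2, inv_mul_cancel₀ he0]
    have e3 : -e⁻¹ * (r : K) + e⁻¹ * 2⁻¹ * (2 * r) = 0 := by
      field_simp
      ring
    rw [e3, Polynomial.C_0, zero_mul, add_zero, Polynomial.C_1]
  · intro j
    rw [Polynomial.coeff_sub, Polynomial.coeff_C_mul, Polynomial.coeff_X_pow, Polynomial.coeff_C]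
    by_cases hj0 : j = 0
    · rw [if_neg (by omega), if_pos hj0, mul_zero, zero_sub, mulHeight₁_neg]
      exact he.trans hMM'
    · rw [if_neg hj0, sub_zero]
      split_ifs
      · rw [mul_one]
        refine (hHR r hr).trans ?_
        rw [hM']
        exact le_mul_of_one_le_right (by linarith) hmax
      · rw [mul_zero, mulHeight₁_zero]
        exact hM'1
  · refine ha'.trans (mul_le_mul_of_nonneg_right ?_ (hpos _).le)
    rw [hM']
    exact le_mul_of_one_le_left (by linarith) hH0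
  · intro j hj
    rw [FS_deg] at hj
    rw [hmap, Polynomial.coeff_sub, Polynomial.coeff_sub, Polynomial.coeff_C_mul,
      Polynomial.coeff_X_pow, Polynomial.coeff_C, Polynomial.coeff_C]
    have hrhs : 0 ≤ M' * h ^ (-δ) := mul_nonneg (by linarith) (hpos _).le
    interval_cases j
    · simp only [pow_zero, mul_one, if_true]
      norm_num
      have e1 : -((a : K) * Polynomial.eval P.1 f) + e =
          -((a : K) * Polynomial.eval P.1 f - e) := by ring
      rw [e1, AbsoluteValue.map_neg]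
      exact hcl.trans (mul_le_mul_of_nonneg_right hMM' (hpos _).le)
    · norm_num
      exact hrhs
    · norm_num
      rw [haz', sub_self, map_zero]
      exact hrhs
  · have e1 := FS_map d (LaurentPolynomial.C : K →+* LaurentPolynomial K)
      (fun i : Fin (d + 1) => LaurentPolynomial.C (f.coeff i)) X
    have e2 := hsum (LaurentPolynomial.C : K →+* LaurentPolynomial K) X
    rw [e2] at e1
    rw [e1, Polynomial.eval_sub, Polynomial.eval_pow, Polynomial.eval_X, Polynomial.eval_C,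
      sub_eq_zero] at hXY
    exact no_laurentXY f hfs hf3 X Y hXY

end Pool.Agent.Run7.h28.ST
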