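import Mathlib
import Pool.Agent.Run7.h28.ST.Ext
import Pool.Agent.Run7.h28.ST.Hyp

/-!
# Project ST (helper28): thin sets of sparse points
-/

set_option autoImplicit false
set_option linter.unusedSectionVars false

namespace Pool.Agent.Run7.h28.ST

open NumberField IsDedekindDomain Height Module
open Pool.Agent.W180.OP (Pl av wt nrm le_nrm nrm_pos wt_nonneg exists_nrm nrm_nonneg)
open Pool.Agent.N750
open Pool.Agent.Run7.h28.HK
open Pool.Agent.Run7.h28.BV

section twist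

variable {K : Type} [Field K]

/-- monomials at `ε T ^ N` -/
noncomputable def twm {r : ℕ} (ε : Fin r → Kˣ) (N : ℕ) :
    Multiplicative (Fin r → ℤ) →* Lau K r where
  toFun m := AddMonoidAlgebra.single (fun l => (N : ℤ) * Multiplicative.toAdd m l) (mon ε m)
  map_one' := by
    have h0 : mon ε (1 : Multiplicative (Fin r → ℤ)) = 1 := (mon ε).map_one
    rw [h0]
    have h1 : (fun l : Fin r => (N : ℤ) * Multiplicative.toAdd (1 : Multiplicative (Fin r → ℤ)) l) =
        0 := by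
      funext l
      show (N : ℤ) * 0 = 0
      rw [mul_zero]
    exact congrArg (fun e : Fin r → ℤ => (AddMonoidAlgebra.single e (1 : K) : Lau K r)) h1
  map_mul' m m' := by
    have h0 : mon ε (m * m') = mon ε m * mon ε m' := (mon ε).map_mul m m'
    rw [AddMonoidAlgebra.single_mul_single, h0]
    have h1 : (fun l : Fin r => (N : ℤ) * Multiplicative.toAdd (m * m') l) =
        (fun l => (N : ℤ) * Multiplicative.toAdd m l) +
          fun l => (N : ℤ) * Multiplicative.toAdd m' l := by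
      funext l
      show (N : ℤ) * (Multiplicative.toAdd m l + Multiplicative.toAdd m' l) = _
      rw [mul_add]
      rfl
    exact congrArg (fun e : Fin r → ℤ =>
      (AddMonoidAlgebra.single e (mon ε m * mon ε m') : Lau K r)) h1

/-- the Laurent polynomial `P (ε T ^ N)` -/
noncomputable def tw {r : ℕ} (ε : Fin r → Kˣ) (N : ℕ) : Lau K r →ₐ[K] Lau K r :=
  AddMonoidAlgebra.lift K (Lau K r) (Fin r → ℤ) (twm ε N)

lemma tw_eq {r : ℕ} (ε : Fin r → Kˣ) (N : ℕ) (P : Lau K r) :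
    tw ε N P = ∑ m ∈ P.coeff.support, AddMonoidAlgebra.single (fun l => (N : ℤ) * m l)
      (P.coeff m * ((∏ l, ε l ^ m l : Kˣ) : K)) := by
  rw [tw, AddMonoidAlgebra.lift_apply']
  refine Finset.sum_congr rfl fun m _ => ?_
  show algebraMap K (Lau K r) (P.coeff m) * (AddMonoidAlgebra.single (fun l => (N : ℤ) * m l)
    ((∏ l, ε l ^ m l : Kˣ) : K) : Lau K r) = _
  rw [← Algebra.smul_def, AddMonoidAlgebra.smul_single, smul_eq_mul]

lemma evU_tw {r : ℕ} (ε w : Fin r → Kˣ) (N : ℕ) (P : Lau K r) :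
    evU w (tw ε N P) = evU (fun l => ε l * w l ^ N) P := by
  rw [tw_eq, map_sum, evU_eq]
  refine Finset.sum_congr rfl fun m _ => ?_
  rw [evU_single, mul_assoc, ← Units.val_mul, ← Finset.prod_mul_distrib]
  have h1 : (∏ l, ε l ^ m l * w l ^ ((N : ℤ) * m l)) = ∏ l, (ε l * w l ^ N) ^ m l := by
    refine Finset.prod_congr rfl fun l _ => ?_
    rw [mul_zpow, ← zpow_natCast, ← zpow_mul]
  rw [h1]

end twist

/-- thin sets of points, for a class `A` of hypersurfaces and a class `C` of covers -/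
def ThinG {K σ : Type} [Field K] (A : MvPolynomial σ K → Prop)
    (C : Polynomial (MvPolynomial σ K) → Prop) (Z : (σ → K) → Prop) : Prop :=
  ∃ (a : Set (MvPolynomial σ K)) (c : Set (Polynomial (MvPolynomial σ K))), a.Finite ∧ c.Finite ∧
    (∀ g ∈ a, A g) ∧ (∀ G ∈ c, C G) ∧ ∀ z, Z z → (∃ g ∈ a, MvPolynomial.eval z g = 0) ∨
      ∃ G ∈ c, ∃ t : K, (G.map (MvPolynomial.eval z)).eval t = 0

variable {K : Type} [Field K] [NumberField K]

/-- **Thin and irreducible families.** -/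
theorem thin_main {σ : Type} {𝓣 : Set (Fam K σ)} (hfin : 𝓣.Finite) {Γ : Subgroup Kˣ} (hΓ : Γ.FG)
    {A : MvPolynomial σ K → Prop} {C : Polynomial (MvPolynomial σ K) → Prop}
    {Z : (σ → K) → Prop}
    (hZ : ∀ z, Z z → ∃ P ∈ 𝓣, ∃ u : Fin P.1 → Kˣ, (∀ l, u l ∈ Γ) ∧ ∀ i, z i = evU u (P.2 i)) :
    ∃ 𝓣' ⊆ 𝓣, (∀ P ∈ 𝓣', (∀ g, A g → MvPolynomial.aeval P.2 g ≠ 0) ∧
      ∀ N : ℕ, 0 < N → ∃ ε : Fin P.1 → Kˣ, (∀ l, ε l ∈ Γ) ∧ ∀ G, C G → ∀ t : Lau K P.1,
        (G.map (MvPolynomial.aeval (fun i => tw ε N (P.2 i)) :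
          MvPolynomial σ K →ₐ[K] Lau K P.1).toRingHom).eval t ≠ 0) ∧
      ThinG A C fun z => Z z ∧ ¬ ∃ P ∈ 𝓣', ∃ u : Fin P.1 → Kˣ, (∀ l, u l ∈ Γ) ∧
        ∀ i, z i = evU u (P.2 i) := by
  classical
  obtain ⟨Good, hGood⟩ : ∃ Good : Fam K σ → Prop, Good = fun P =>
      (∀ g, A g → MvPolynomial.aeval P.2 g ≠ 0) ∧
      ∀ N : ℕ, 0 < N → ∃ ε : Fin P.1 → Kˣ, (∀ l, ε l ∈ Γ) ∧ ∀ G, C G → ∀ t : Lau K P.1,
        (G.map (MvPolynomial.aeval (fun i => tw ε N (P.2 i)) :
          MvPolynomial σ K →ₐ[K] Lau K P.1).toRingHom).eval t ≠ 0 := ⟨_, rfl⟩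
  have hbad : ∀ P : Fam K σ, ¬ Good P → ∃ (a : Set (MvPolynomial σ K))
      (c : Set (Polynomial (MvPolynomial σ K))), a.Finite ∧ c.Finite ∧
      (∀ g ∈ a, A g) ∧ (∀ G ∈ c, C G) ∧ ∀ u : Fin P.1 → Kˣ, (∀ l, u l ∈ Γ) →
        (∃ g ∈ a, MvPolynomial.eval (fun i => evU u (P.2 i)) g = 0) ∨
        ∃ G ∈ c, ∃ t : K, (G.map (MvPolynomial.eval (fun i => evU u (P.2 i)))).eval t = 0 := by
    intro P hP
    rw [hGood] at hP
    simp only at hP
    by_cases h1 : ∀ g, A g → MvPolynomial.aeval P.2 g ≠ 0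
    · have h2 : ¬ ∀ N : ℕ, 0 < N → ∃ ε : Fin P.1 → Kˣ, (∀ l, ε l ∈ Γ) ∧ ∀ G, C G →
          ∀ t : Lau K P.1, (G.map (MvPolynomial.aeval (fun i => tw ε N (P.2 i)) :
          MvPolynomial σ K →ₐ[K] Lau K P.1).toRingHom).eval t ≠ 0 := fun h => hP ⟨h1, h⟩
      push Not at h2
      obtain ⟨N, hN, h3⟩ := h2
      choose! G hG t ht using h3
      obtain ⟨R, hR, hRΓ, hR2⟩ := power_classes Γ hΓ N hN
      have hEf : (Set.pi Set.univ (fun _ : Fin P.1 => R)).Finite := Set.Finite.pi fun _ => hR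
      refine ⟨∅, G '' (Set.pi Set.univ (fun _ : Fin P.1 => R)), Set.finite_empty, hEf.image _,
        fun g hg => absurd hg (Set.notMem_empty g), ?_, ?_⟩
      · rintro _ ⟨ε, hε, rfl⟩
        exact hG ε fun l => hRΓ (hε l (Set.mem_univ l))
      · intro u hu
        right
        choose ρ hρ z hz hρz using fun l => hR2 (u l) (hu l)
        refine ⟨G ρ, ⟨ρ, fun l _ => hρ l, rfl⟩, evU (fun l => (z l)⁻¹) (t ρ), ?_⟩
        have h4 := ht ρ fun l => hRΓ (hρ l)
        have h5 := congrArg (evU (fun l => (z l)⁻¹)).toRingHom h4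
        rw [map_zero, ← Polynomial.eval_map_apply, Polynomial.map_map] at h5
        have h6 : (evU (fun l => (z l)⁻¹)).toRingHom.comp
            (MvPolynomial.aeval (fun i => tw ρ N (P.2 i)) :
              MvPolynomial σ K →ₐ[K] Lau K P.1).toRingHom =
            MvPolynomial.eval (fun i => evU u (P.2 i)) := by
          refine RingHom.ext fun Q => ?_
          show evU (fun l => (z l)⁻¹) (MvPolynomial.aeval (fun i => tw ρ N (P.2 i)) Q) = _
          rw [evU_aeval]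
          congr 2
          funext i
          rw [evU_tw]
          congr 2
          funext l
          rw [← hρz l, mul_assoc, ← mul_pow, mul_inv_cancel, one_pow, mul_one]
        rw [h6] at h5
        exact h5
    · push Not at h1
      obtain ⟨g, hg, hg0⟩ := h1
      refine ⟨{g}, ∅, Set.finite_singleton g, Set.finite_empty, ?_,
        fun G hG => absurd hG (Set.notMem_empty G), fun u hu => Or.inl ⟨g, rfl, ?_⟩⟩
      · rintro _ rfl
        exact hg
      · rw [← evU_aeval, hg0, map_zero]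
  choose! a c ha hc hA hC hcov using hbad
  refine ⟨{P ∈ 𝓣 | Good P}, Set.sep_subset _ _, ?_, ?_⟩
  · rintro P ⟨-, hP⟩
    rw [hGood] at hP
    exact hP
  · refine ⟨⋃ P ∈ {P ∈ 𝓣 | ¬ Good P}, a P, ⋃ P ∈ {P ∈ 𝓣 | ¬ Good P}, c P,
      (hfin.subset (Set.sep_subset _ _)).biUnion fun P hP => ha P hP.2,
      (hfin.subset (Set.sep_subset _ _)).biUnion fun P hP => hc P hP.2, ?_, ?_, ?_⟩
    · intro g hg
      simp only [Set.mem_iUnion] at hg
      obtain ⟨P, hP, hg⟩ := hg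
      exact hA P hP.2 g hg
    · intro G hG
      simp only [Set.mem_iUnion] at hG
      obtain ⟨P, hP, hG⟩ := hG
      exact hC P hP.2 G hG
    · rintro z ⟨hz, hno⟩
      obtain ⟨P, hP, u, hu, hzu⟩ := hZ z hz
      have hPb : ¬ Good P := fun h => hno ⟨P, ⟨hP, h⟩, u, hu, hzu⟩
      have hzf : z = fun i => evU u (P.2 i) := funext hzu
      rcases hcov P hPb u hu with ⟨g, hg, h1⟩ | ⟨G, hG, t, h1⟩
      · left
        refine ⟨g, ?_, by rw [hzf]; exact h1⟩
        simp only [Set.mem_iUnion]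
        exact ⟨P, ⟨hP, hPb⟩, hg⟩
      · right
        refine ⟨G, ?_, t, by rw [hzf]; exact h1⟩
        simp only [Set.mem_iUnion]
        exact ⟨P, ⟨hP, hPb⟩, hG⟩

end Pool.Agent.Run7.h28.ST
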