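import Mathlib

/-!
# Ideals of polynomial rings and extensions of the field of coefficients
-/

set_option autoImplicit false

namespace Pool.Agent.Run7.h28.ST

open MvPolynomial

section

variable {k F σ : Type} [Field k] [Field F] [Algebra k F]

/-- the ideal over the extension -/
noncomputable abbrev bc (F : Type) [Field F] [Algebra k F] (J : Ideal (MvPolynomial σ k)) :
    Ideal (MvPolynomial σ F) := J.map (MvPolynomial.map (algebraMap k F))

/-- a linear form on the coefficients -/
noncomputable def cof (l : F →ₗ[k] k) (G : MvPolynomial σ F) : MvPolynomial σ k :=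
  ∑ m ∈ G.support, monomial m (l (coeff m G))

lemma coeff_cof (l : F →ₗ[k] k) (G : MvPolynomial σ F) (m : σ →₀ ℕ) :
    coeff m (cof l G) = l (coeff m G) := by
  classical
  unfold cof
  rw [coeff_sum]
  simp only [coeff_monomial]
  rw [Finset.sum_ite_eq' G.support m (fun m => l (coeff m G))]
  split_ifs with h
  · rfl
  · rw [notMem_support_iff.1 h, map_zero]

lemma cof_add (l : F →ₗ[k] k) (G H : MvPolynomial σ F) : cof l (G + H) = cof l G + cof l H := by
  ext m
  rw [coeff_add, coeff_cof, coeff_cof, coeff_cof, coeff_add, map_add]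

lemma cof_zero (l : F →ₗ[k] k) : cof l (0 : MvPolynomial σ F) = 0 := by
  ext m
  rw [coeff_cof, coeff_zero, coeff_zero, map_zero]

lemma cof_mul (l : F →ₗ[k] k) (G : MvPolynomial σ F) (H : MvPolynomial σ k) :
    cof l (G * MvPolynomial.map (algebraMap k F) H) = cof l G * H := by
  classical
  ext m
  rw [coeff_cof, coeff_mul, coeff_mul, map_sum]
  refine Finset.sum_congr rfl fun p _ => ?_
  rw [coeff_map, coeff_cof, mul_comm, ← Algebra.smul_def, map_smul, smul_eq_mul, mul_comm]

lemma cof_mem (l : F →ₗ[k] k) {J : Ideal (MvPolynomial σ k)} {G : MvPolynomial σ F}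
    (hG : G ∈ bc F J) : cof l G ∈ J := by
  have key : ∀ a : MvPolynomial σ F, cof l (a * G) ∈ J := by
    unfold bc Ideal.map at hG
    induction hG using Submodule.span_induction with
    | mem x h =>
      obtain ⟨y, hy, rfl⟩ := h
      intro a
      have h2 := cof_mul l a y
      change cof l (a * MvPolynomial.map (algebraMap k F) y) ∈ J
      rw [h2]
      exact J.mul_mem_left _ hy
    | zero => intro a; rw [mul_zero, cof_zero]; exact J.zero_mem
    | add x y _ _ h1 h2 => intro a; rw [mul_add, cof_add]; exact J.add_mem (h1 a) (h2 a)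
    | smul b x hx h => intro a; rw [smul_eq_mul, ← mul_assoc]; exact h (a * b)
  have h1 := key 1
  rwa [one_mul] at h1

/-- the ideal over the extension induces the ideal -/
lemma mem_bc_iff {J : Ideal (MvPolynomial σ k)} {G : MvPolynomial σ k} :
    MvPolynomial.map (algebraMap k F) G ∈ bc F J ↔ G ∈ J := by
  refine ⟨fun h => ?_, fun h => Ideal.mem_map_of_mem _ h⟩
  obtain ⟨l, hl⟩ := LinearMap.exists_leftInverse_of_injective (Algebra.linearMap k F)
    (LinearMap.ker_eq_bot.2 (algebraMap k F).injective)
  have h1 : l 1 = 1 := by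
    have := LinearMap.congr_fun hl 1
    simpa using this
  have h2 := cof_mem l h
  have h3 := cof_mul l 1 G
  rw [one_mul] at h3
  rw [h3] at h2
  have h4 : cof l (1 : MvPolynomial σ F) = 1 := by
    classical
    ext m
    rw [coeff_cof, coeff_one, coeff_one]
    split_ifs with h
    · exact h1
    · exact map_zero l
  rwa [h4, one_mul] at h2

lemma mem_of_cof {ι : Type} (b : Module.Basis ι k F) {J : Ideal (MvPolynomial σ k)}
    {G : MvPolynomial σ F} (h : ∀ i, cof (b.coord i) G ∈ J) : G ∈ bc F J := by
  classical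
  have e : G = ∑ i ∈ G.support.biUnion (fun m => (b.repr (coeff m G)).support),
      C (b i) * MvPolynomial.map (algebraMap k F) (cof (b.coord i) G) := by
    ext m
    rw [coeff_sum]
    simp only [coeff_C_mul, coeff_map, coeff_cof, Module.Basis.coord_apply]
    by_cases hm : m ∈ G.support
    · conv_lhs => rw [← b.linearCombination_repr (coeff m G)]
      rw [Finsupp.linearCombination_apply, Finsupp.sum_of_support_subset (b.repr (coeff m G)) (s :=
        G.support.biUnion (fun m => (b.repr (coeff m G)).support)) (fun i hi =>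
          Finset.mem_biUnion.2 ⟨m, hm, hi⟩) (fun i a => a • b i) (fun i _ => zero_smul _ _)]
      refine Finset.sum_congr rfl fun i _ => ?_
      rw [Algebra.smul_def, mul_comm]
    · rw [notMem_support_iff.1 hm]
      simp
  rw [e]
  exact (bc F J).sum_mem fun i _ => (bc F J).mul_mem_left _ (Ideal.mem_map_of_mem _ (h i))

lemma cof_homog (l : F →ₗ[k] k) {G : MvPolynomial σ F} {e : ℕ} (h : G.IsHomogeneous e) :
    (cof l G).IsHomogeneous e := by
  intro m hm
  rw [coeff_cof] at hm
  exact h fun h0 => hm (by rw [h0, map_zero])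

lemma cof_aeval (l : F →ₗ[k] k) {τ : Type} (Q : σ → MvPolynomial τ k) (G : MvPolynomial σ F) :
    cof l (aeval (fun s => MvPolynomial.map (algebraMap k F) (Q s)) G) = aeval Q (cof l G) := by
  classical
  induction G using MvPolynomial.induction_on' with
  | monomial m c =>
    have e1 : aeval (fun s => MvPolynomial.map (algebraMap k F) (Q s)) (monomial m c) =
        C c * MvPolynomial.map (algebraMap k F) (m.prod fun s n => Q s ^ n) := by
      rw [aeval_monomial, map_finsuppProd]
      simp only [map_pow]
      rfl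
    have e2 : cof l (monomial m c) = monomial m (l c) := by
      ext m'
      rw [coeff_cof, coeff_monomial, coeff_monomial]
      split_ifs
      · rfl
      · exact map_zero l
    have e3 : cof l (C c : MvPolynomial τ F) = C (l c) := by
      ext m'
      rw [coeff_cof, coeff_C, coeff_C]
      split_ifs
      · rfl
      · exact map_zero l
    rw [e1, e2, cof_mul, e3, aeval_monomial]
    rfl
  | add p q hp hq => rw [map_add, cof_add, cof_add, map_add, hp, hq]

lemma aeval_map' {τ : Type} (Q : σ → MvPolynomial τ k) (G : MvPolynomial σ k) :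
    aeval (fun s => MvPolynomial.map (algebraMap k F) (Q s)) (MvPolynomial.map (algebraMap k F) G) =
      MvPolynomial.map (algebraMap k F) (aeval Q G) := by
  induction G using MvPolynomial.induction_on with
  | C a =>
    rw [map_C, aeval_C, aeval_C]
    simp [MvPolynomial.algebraMap_eq]
  | add p q hp hq => rw [map_add, map_add, hp, hq, map_add, map_add]
  | mul_X p i hp => rw [map_mul, map_mul, hp, map_X, aeval_X, map_mul, map_mul, aeval_X]

/-- vanishing on the ideal of the extension -/
lemma bc_le {R : Type} [CommRing R] {J : Ideal (MvPolynomial σ k)} (f : MvPolynomial σ F →+* R)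
    (h : ∀ G ∈ J, f (MvPolynomial.map (algebraMap k F) G) = 0) : ∀ G ∈ bc F J, f G = 0 := by
  have h1 : bc F J ≤ RingHom.ker f := Ideal.map_le_iff_le_comap.2 fun G hG => by
    rw [Ideal.mem_comap, RingHom.mem_ker]
    exact h G hG
  exact fun G hG => RingHom.mem_ker.1 (h1 hG)

/-- base change of a dominant tuple of polynomials -/
theorem unir_bc {J : Ideal (MvPolynomial σ k)} {r : ℕ} {Q : σ → MvPolynomial (Fin r) k}
    (h1 : ∀ G ∈ J, aeval Q G = 0)
    (h2 : ∀ G : MvPolynomial σ k, (∃ e, G.IsHomogeneous e) → aeval Q G = 0 → G ∈ J) :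
    (∀ G ∈ bc F J, aeval (fun s => MvPolynomial.map (algebraMap k F) (Q s)) G = 0) ∧
    ∀ G : MvPolynomial σ F, (∃ e, G.IsHomogeneous e) →
      aeval (fun s => MvPolynomial.map (algebraMap k F) (Q s)) G = 0 → G ∈ bc F J := by
  refine ⟨bc_le (aeval (fun s => MvPolynomial.map (algebraMap k F) (Q s))).toRingHom
    fun G hG => ?_, fun G ⟨e, he⟩ hG => ?_⟩
  · change aeval (fun s => MvPolynomial.map (algebraMap k F) (Q s))
      (MvPolynomial.map (algebraMap k F) G) = 0
    rw [aeval_map', h1 G hG, map_zero]
  · refine mem_of_cof (Module.Basis.ofVectorSpace k F) fun i => h2 _ ⟨e, cof_homog _ he⟩ ?_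
    rw [← cof_aeval, hG, cof_zero]

/-- descent of a dominant tuple of polynomials -/
theorem unir_desc {J : Ideal (MvPolynomial σ k)} {r : ℕ} {Q : σ → MvPolynomial (Fin r) k}
    (h1 : ∀ G ∈ bc F J, aeval (fun s => MvPolynomial.map (algebraMap k F) (Q s)) G = 0)
    (h2 : ∀ G : MvPolynomial σ F, (∃ e, G.IsHomogeneous e) →
      aeval (fun s => MvPolynomial.map (algebraMap k F) (Q s)) G = 0 → G ∈ bc F J) :
    (∀ G ∈ J, aeval Q G = 0) ∧
    ∀ G : MvPolynomial σ k, (∃ e, G.IsHomogeneous e) → aeval Q G = 0 → G ∈ J := by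
  refine ⟨fun G hG => ?_, fun G ⟨e, he⟩ hG => ?_⟩
  · have := h1 _ (Ideal.mem_map_of_mem _ hG)
    rw [aeval_map'] at this
    exact map_injective _ (algebraMap k F).injective (by rw [this, map_zero])
  · have h3 := h2 (MvPolynomial.map (algebraMap k F) G) ⟨e, he.map _⟩
      (by rw [aeval_map', hG, map_zero])
    exact mem_bc_iff.1 h3

lemma cof_comp (l : F →ₗ[k] k) (G : MvPolynomial σ F) (e : ℕ) :
    cof l (homogeneousComponent e G) = homogeneousComponent e (cof l G) := by
  classical
  ext m
  rw [coeff_cof, coeff_homogeneousComponent, coeff_homogeneousComponent, coeff_cof]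
  split_ifs
  · rfl
  · exact map_zero l

lemma bc_comp {J : Ideal (MvPolynomial σ k)} (h : ∀ G ∈ J, ∀ e, homogeneousComponent e G ∈ J) :
    ∀ G ∈ bc F J, ∀ e, homogeneousComponent e G ∈ bc F J := by
  intro G hG e
  refine mem_of_cof (Module.Basis.ofVectorSpace k F) fun i => ?_
  rw [cof_comp]
  exact h _ (cof_mem _ hG) e

lemma bc_prime {J : Ideal (MvPolynomial σ k)} (h : (bc F J).IsPrime) : J.IsPrime := by
  have e : J = (bc F J).comap (MvPolynomial.map (algebraMap k F)) := by
    ext G
    rw [Ideal.mem_comap, mem_bc_iff]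
  rw [e]
  exact Ideal.IsPrime.comap _

end

lemma bc_bc {k L F σ : Type} [Field k] [Field L] [Field F] [Algebra k L] [Algebra L F]
    [Algebra k F] [IsScalarTower k L F] (J : Ideal (MvPolynomial σ k)) :
    bc F (bc L J) = bc F J := by
  unfold bc
  rw [Ideal.map_map]
  congr 1
  ext x
  · simp [IsScalarTower.algebraMap_apply k L F]
  · simp

end Pool.Agent.Run7.h28.ST
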