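import Mathlib
import Pool.Agent.Run7.h28.ST.Conv

/-!
# Project ST (helper28): unirational varieties have many sparse points near every point of the image
-/

set_option autoImplicit false
set_option linter.unusedSectionVars false

open Filter Topology

namespace Pool.Agent.Run7.h28.ST

open NumberField IsDedekindDomain Height Module
open Pool.Agent.W180.OP (Pl av wt nrm le_nrm nrm_pos wt_nonneg exists_nrm nrm_nonneg)
open Pool.Agent.N750
open Pool.Agent.Run7.h28.HK
open Pool.Agent.Run7.h28.BV

variable {K : Type} [Field K] [NumberField K]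

/-- evaluation of a composition -/
lemma eval_aeval_eq {r : ℕ} {σ : Type} (q : σ → MvPolynomial (Fin r) K) (u : Fin r → K)
    (G : MvPolynomial σ K) : MvPolynomial.eval u (MvPolynomial.aeval q G) =
      MvPolynomial.eval (fun i => MvPolynomial.eval u (q i)) G := by
  have e1 : (MvPolynomial.aeval u : MvPolynomial (Fin r) K →ₐ[K] K).comp
      (MvPolynomial.aeval q) = MvPolynomial.aeval (fun i => MvPolynomial.eval u (q i)) := by
    refine MvPolynomial.algHom_ext fun i => ?_
    rw [AlgHom.comp_apply, MvPolynomial.aeval_X, MvPolynomial.aeval_X,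
      MvPolynomial.aeval_eq_eval]
  have e2 := congrArg (fun f : MvPolynomial σ K →ₐ[K] K => f G) e1
  simp only [AlgHom.comp_apply] at e2
  rw [MvPolynomial.aeval_eq_eval, MvPolynomial.aeval_eq_eval] at e2
  exact e2

/-- **Sparse points near the points of the image.** -/
theorem conv_local {n m : ℕ} (v : Pl K) (I : Ideal (MvPolynomial (Fin n ⊕ Fin m) K)) {r : ℕ}
    (Q : Fin n ⊕ Fin m → MvPolynomial (Fin r) K) (hQ1 : ∀ G ∈ I, MvPolynomial.aeval Q G = 0)
    (hQ2 : ∀ G : MvPolynomial (Fin n ⊕ Fin m) K, (∃ e, G.IsHomogeneous e) →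
      MvPolynomial.aeval Q G = 0 → G ∈ I) (t0 : Fin r → K) :
    ∃ Γ : Subgroup Kˣ, Γ.FG ∧ ∃ (k : ℕ) (M δ : ℝ),
        1 ≤ M ∧ 0 < δ ∧ ∀ ε : ℝ, 0 < ε →
          ∀ G : MvPolynomial (Fin n ⊕ Fin m) K, (∃ e, G.IsHomogeneous e) →
          (∀ x y, (∀ G' ∈ I, MvPolynomial.eval (Sum.elim x y) G' = 0) →
            (∀ l, Sparse Γ k M (x l)) →
            (∀ l, av v (x l - MvPolynomial.eval t0 (Q (Sum.inl l))) ≤
              M * (∏ l, mulHeight₁ (x l)) ^ (-δ)) →
            (∀ l, av v (x l - MvPolynomial.eval t0 (Q (Sum.inl l))) ≤ ε) →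
            (∀ i, av v (y i - MvPolynomial.eval t0 (Q (Sum.inr i))) ≤ ε) →
            MvPolynomial.eval (Sum.elim x y) G = 0) → G ∈ I := by
  classical
  obtain ⟨π, hπ0, hπ1⟩ := exists_small v
  have hπp : 0 < av v π := (av v).pos hπ0
  obtain ⟨P, hP⟩ : ∃ P : Fin n ⊕ Fin m → MvPolynomial (Fin r) K,
      P = fun i => MvPolynomial.aeval (fun j => MvPolynomial.X j + MvPolynomial.C (t0 j)) (Q i) :=
    ⟨_, rfl⟩
  have hPe : ∀ (u : Fin r → K) i, MvPolynomial.eval u (P i) =
      MvPolynomial.eval (fun j => u j + t0 j) (Q i) := by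
    intro u i
    have e1 : (MvPolynomial.aeval u : MvPolynomial (Fin r) K →ₐ[K] K).comp (MvPolynomial.aeval
        (fun j => (MvPolynomial.X j + MvPolynomial.C (t0 j) : MvPolynomial (Fin r) K))) =
        MvPolynomial.aeval (fun j => u j + t0 j) := by
      refine MvPolynomial.algHom_ext fun j => ?_
      rw [AlgHom.comp_apply, MvPolynomial.aeval_X, MvPolynomial.aeval_X, map_add,
        MvPolynomial.aeval_X, MvPolynomial.aeval_C]
      rfl
    have e2 := congrArg (fun f : MvPolynomial (Fin r) K →ₐ[K] K => f (Q i)) e1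
    simp only [AlgHom.comp_apply] at e2
    rw [MvPolynomial.aeval_eq_eval, MvPolynomial.aeval_eq_eval] at e2
    rw [hP]
    exact e2
  have hae : ∀ (q : Fin n ⊕ Fin m → MvPolynomial (Fin r) K) (u : Fin r → K)
      (G : MvPolynomial (Fin n ⊕ Fin m) K), MvPolynomial.eval u (MvPolynomial.aeval q G) =
      MvPolynomial.eval (fun i => MvPolynomial.eval u (q i)) G := by
    intro q u G
    have e1 : (MvPolynomial.aeval u : MvPolynomial (Fin r) K →ₐ[K] K).comp
        (MvPolynomial.aeval q) = MvPolynomial.aeval (fun i => MvPolynomial.eval u (q i)) := by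
      refine MvPolynomial.algHom_ext fun i => ?_
      rw [AlgHom.comp_apply, MvPolynomial.aeval_X, MvPolynomial.aeval_X,
        MvPolynomial.aeval_eq_eval]
    have e2 := congrArg (fun f : MvPolynomial (Fin n ⊕ Fin m) K →ₐ[K] K => f G) e1
    simp only [AlgHom.comp_apply] at e2
    rw [MvPolynomial.aeval_eq_eval, MvPolynomial.aeval_eq_eval] at e2
    exact e2
  have hse : ∀ z : Fin n ⊕ Fin m → K,
      Sum.elim (fun l => z (Sum.inl l)) (fun i => z (Sum.inr i)) = z := fun z => by
    funext i
    rcases i with l | i <;> rfl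
  have hmem : ∀ (t : Fin r → K) (G : MvPolynomial (Fin n ⊕ Fin m) K), G ∈ I →
      MvPolynomial.eval (fun i => MvPolynomial.eval t (Q i)) G = 0 := by
    intro t G hG
    rw [← hae, hQ1 G hG, map_zero]
  -- the group
  obtain ⟨b, hb⟩ : ∃ b : Kˣ, (b : K) = π := ⟨Units.mk0 π hπ0, rfl⟩
  choose A B hB hAB using fun l => ht_value (P (Sum.inl l)) π
  choose C hC1 hC using fun l => close_poly (P (Sum.inl l)) (fun _ => 0) 1
  choose Ca hCa1 hCa using fun i => close_poly (P i) (fun _ => 0) 1
  obtain ⟨A', hA'⟩ : ∃ A' : ℝ, A' = ∑ l, A l := ⟨_, rfl⟩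
  obtain ⟨B', hB'⟩ : ∃ B' : ℝ, B' = ∑ l, B l := ⟨_, rfl⟩
  have hB'0 : 0 ≤ B' := by
    rw [hB']
    exact Finset.sum_nonneg fun l _ => hB l
  obtain ⟨κ, hκ⟩ : ∃ κ : ℝ, κ = -Real.log (av v π) := ⟨_, rfl⟩
  have hκ0 : 0 < κ := by
    rw [hκ]
    have := Real.log_neg hπp hπ1
    linarith
  obtain ⟨δ, hδ⟩ : ∃ δ : ℝ, δ = κ / (B' + 1) := ⟨_, rfl⟩
  have hδ0 : 0 < δ := by
    rw [hδ]
    positivity
  have hδB : δ * B' ≤ κ := by
    rw [hδ, div_mul_eq_mul_div, div_le_iff₀ (by linarith)]
    nlinarith
  obtain ⟨M, hM⟩ : ∃ M : ℝ, M = 1 + ∑ l, C l * Real.exp (δ * A') +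
      ∑ l, ∑ e ∈ (P (Sum.inl l)).support, mulHeight₁ ((P (Sum.inl l)).coeff e) := ⟨_, rfl⟩
  have n1 : 0 ≤ ∑ l, C l * Real.exp (δ * A') :=
    Finset.sum_nonneg fun l _ => mul_nonneg (by linarith [hC1 l]) (Real.exp_pos _).le
  have n2 : 0 ≤ ∑ l, ∑ e ∈ (P (Sum.inl l)).support, mulHeight₁ ((P (Sum.inl l)).coeff e) :=
    Finset.sum_nonneg fun l _ => Finset.sum_nonneg fun e _ => (mulHeight₁_pos _).le
  have hM1 : 1 ≤ M := by linarith
  refine ⟨Subgroup.zpowers b, ⟨{b}, by rw [Finset.coe_singleton, Subgroup.zpowers_eq_closure]⟩,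
    ∑ l, (P (Sum.inl l)).support.card, M, δ, hM1, hδ0, fun ε hε G hG hv => ?_⟩
  -- a large exponent
  obtain ⟨N0, hN0⟩ : ∃ N0 : ℕ, ∀ N, N0 ≤ N → ∀ i, Ca i * av v π ^ N ≤ ε := by
    have h1 : Tendsto (fun N : ℕ => (∑ i, Ca i) * av v π ^ N) atTop (𝓝 ((∑ i, Ca i) * 0)) :=
      (tendsto_pow_atTop_nhds_zero_of_lt_one hπp.le hπ1).const_mul _
    rw [mul_zero] at h1
    obtain ⟨N0, hN0⟩ := eventually_atTop.1 (h1.eventually (gt_mem_nhds hε))
    refine ⟨N0, fun N hN i => ?_⟩
    have h2 : Ca i ≤ ∑ i, Ca i :=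
      Finset.single_le_sum (f := Ca) (fun i _ => by linarith [hCa1 i]) (Finset.mem_univ i)
    exact (mul_le_mul_of_nonneg_right h2 (pow_nonneg hπp.le _)).trans (hN0 N hN).le
  -- a grid
  obtain ⟨g, hg⟩ : ∃ g : MvPolynomial (Fin r) K, g = MvPolynomial.aeval P G := ⟨_, rfl⟩
  have hinj : Function.Injective fun s : ℕ => π ^ s := by
    intro s s' hs
    have h1 := congrArg (av v) hs
    simp only [map_pow] at h1
    exact pow_right_injective₀ hπp hπ1.ne h1
  have hg0 : g = 0 := by
    refine MvPolynomial.eq_zero_of_eval_zero_at_prod_finset g (fun _ =>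
      (Finset.range (g.totalDegree + 2)).image fun s => π ^ (g.totalDegree + 1 + N0 + s)) (fun j => ?_)
      (fun x hx => ?_)
    · rw [Finset.card_image_of_injective _ (fun s s' h => by
        have := hinj h
        omega), Finset.card_range]
      have := MvPolynomial.degreeOf_le_totalDegree g j
      omega
    · have h1 : ∀ j, ∃ s, s < g.totalDegree + 2 ∧ π ^ (g.totalDegree + 1 + N0 + s) = x j := by
        intro j
        have := hx j
        rw [Finset.mem_image] at this
        obtain ⟨s, hs1, hs2⟩ := this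
        exact ⟨s, Finset.mem_range.1 hs1, hs2⟩
      choose s hs1 hs2 using h1
      obtain ⟨N, hN⟩ : ∃ N : ℕ, N = g.totalDegree + 1 + N0 := ⟨_, rfl⟩
      obtain ⟨a, ha⟩ : ∃ a : Fin r → ℕ, a = fun j => g.totalDegree + 1 + N0 + s j := ⟨_, rfl⟩
      have ha1 : ∀ j, N ≤ a j := fun j => by
        rw [ha, hN]
        exact Nat.le_add_right _ _
      have ha2 : ∀ j, a j ≤ 2 * N := fun j => by
        rw [ha, hN]
        have := hs1 j
        beta_reduce
        omega
      have hxa : x = fun j => π ^ a j := by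
        funext j
        rw [ha]
        exact (hs2 j).symm
      rw [hg, hae, hxa, ← hse fun i => MvPolynomial.eval (fun j => π ^ a j) (P i)]
      have hclose : ∀ i, av v (MvPolynomial.eval (fun j => π ^ a j) (P i) -
          MvPolynomial.eval t0 (Q i)) ≤ ε := by
        intro i
        have h2 := hCa i v (av v π ^ N) (fun j => π ^ a j) (pow_nonneg hπp.le _)
          (pow_le_one₀ hπp.le hπ1.le) (fun j => by
            rw [sub_zero, map_pow, one_mul]
            exact pow_le_pow_of_le_one hπp.le hπ1.le (ha1 j))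
        have h3 : MvPolynomial.eval (fun _ => (0 : K)) (P i) = MvPolynomial.eval t0 (Q i) := by
          rw [hPe]
          congr 2
          funext j
          rw [zero_add]
        rw [h3] at h2
        exact h2.trans (hN0 N (by omega) i)
      refine hv _ _ ?_ (fun l => ?_) (fun l => ?_) (fun l => hclose _) fun i => hclose _
      · intro G' hG'
        rw [hse fun i => MvPolynomial.eval (fun j => π ^ a j) (P i)]
        have h2 : (fun i => MvPolynomial.eval (fun j => π ^ a j) (P i)) =
            fun i => MvPolynomial.eval (fun j => π ^ a j + t0 j) (Q i) := funext fun i => hPe _ i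
        rw [h2]
        exact hmem _ G' hG'
      · rw [MvPolynomial.eval_eq']
        have h2 : ∀ e : Fin r →₀ ℕ, ∏ j, (π ^ a j) ^ e j = ((∏ j, (b ^ a j) ^ e j : Kˣ) : K) := by
          intro e
          rw [Units.coe_prod]
          refine Finset.prod_congr rfl fun j _ => ?_
          rw [Units.val_pow_eq_pow_val, Units.val_pow_eq_pow_val, hb]
        simp only [h2]
        refine sparse_pad hM1 _ ?_ (fun e => (P (Sum.inl l)).coeff e)
          (fun e => ∏ j, (b ^ a j) ^ e j) (fun e => ?_) fun e => ?_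
        · exact Finset.single_le_sum (f := fun l => (P (Sum.inl l)).support.card)
            (fun _ _ => Nat.zero_le _) (Finset.mem_univ l)
        · by_cases he : (P (Sum.inl l)).coeff e = 0
          · rw [he, mulHeight₁_zero]
            exact hM1
          · have h3 : mulHeight₁ ((P (Sum.inl l)).coeff e) ≤
                ∑ e ∈ (P (Sum.inl l)).support, mulHeight₁ ((P (Sum.inl l)).coeff e) :=
              Finset.single_le_sum (f := fun e => mulHeight₁ ((P (Sum.inl l)).coeff e))
                (fun _ _ => (mulHeight₁_pos _).le) (MvPolynomial.mem_support_iff.2 he)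
            have h4 : ∑ e ∈ (P (Sum.inl l)).support, mulHeight₁ ((P (Sum.inl l)).coeff e) ≤
                ∑ l, ∑ e ∈ (P (Sum.inl l)).support, mulHeight₁ ((P (Sum.inl l)).coeff e) :=
              Finset.single_le_sum (f := fun l => ∑ e ∈ (P (Sum.inl l)).support,
                mulHeight₁ ((P (Sum.inl l)).coeff e)) (fun l _ => Finset.sum_nonneg fun e _ =>
                (mulHeight₁_pos _).le) (Finset.mem_univ l)
            linarith
        · exact Subgroup.prod_mem _ fun j _ => Subgroup.pow_mem _ (Subgroup.pow_mem _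
            (Subgroup.mem_zpowers b) _) _
      · -- closeness
        have h2 := hC l v (av v π ^ N) (fun j => π ^ a j) (pow_nonneg hπp.le _)
          (pow_le_one₀ hπp.le hπ1.le) (fun j => by
            rw [sub_zero, map_pow, one_mul]
            exact pow_le_pow_of_le_one hπp.le hπ1.le (ha1 j))
        have h3 : MvPolynomial.eval (fun _ => (0 : K)) (P (Sum.inl l)) =
            MvPolynomial.eval t0 (Q (Sum.inl l)) := by
          rw [hPe]
          congr 2
          funext j
          rw [zero_add]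
        rw [h3] at h2
        refine h2.trans ?_
        have hprod : 0 < ∏ l, mulHeight₁ (MvPolynomial.eval (fun j => π ^ a j)
            (P (Sum.inl l))) := Finset.prod_pos fun l _ => mulHeight₁_pos _
        have h4 : Real.log (∏ l, mulHeight₁ (MvPolynomial.eval (fun j => π ^ a j)
            (P (Sum.inl l)))) ≤ A' + B' * N := by
          rw [Real.log_prod (fun l _ => (mulHeight₁_pos _).ne'), hA', hB', Finset.sum_mul,
            ← Finset.sum_add_distrib]
          refine Finset.sum_le_sum fun l _ => ?_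
          rw [← logHeight₁_eq_log_mulHeight₁]
          exact hAB l N a ha2
        have h5 : av v π ^ N ≤ Real.exp (δ * A') * (∏ l, mulHeight₁ (MvPolynomial.eval
            (fun j => π ^ a j) (P (Sum.inl l)))) ^ (-δ) := by
          rw [Real.rpow_def_of_pos hprod, ← Real.exp_add]
          have h6 : av v π ^ N = Real.exp (-(κ * N)) := by
            rw [hκ, neg_mul, neg_neg, mul_comm, Real.exp_nat_mul, Real.exp_log hπp]
          rw [h6]
          refine Real.exp_le_exp.2 ?_
          have h7 := mul_le_mul_of_nonneg_left h4 hδ0.le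
          have h8 : δ * B' * N ≤ κ * N := mul_le_mul_of_nonneg_right hδB (Nat.cast_nonneg _)
          linarith
        have h9 : C l * Real.exp (δ * A') ≤ M := by
          have : C l * Real.exp (δ * A') ≤ ∑ l, C l * Real.exp (δ * A') :=
            Finset.single_le_sum (f := fun l => C l * Real.exp (δ * A'))
              (fun l _ => mul_nonneg (by linarith [hC1 l]) (Real.exp_pos _).le)
              (Finset.mem_univ l)
          linarith
        calc C l * av v π ^ N ≤ C l * (Real.exp (δ * A') * (∏ l, mulHeight₁ (MvPolynomial.eval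
              (fun j => π ^ a j) (P (Sum.inl l)))) ^ (-δ)) :=
              mul_le_mul_of_nonneg_left h5 (by linarith [hC1 l])
          _ = C l * Real.exp (δ * A') * (∏ l, mulHeight₁ (MvPolynomial.eval
              (fun j => π ^ a j) (P (Sum.inl l)))) ^ (-δ) := by ring
          _ ≤ _ := mul_le_mul_of_nonneg_right h9 (Real.rpow_pos_of_pos hprod _).le
  -- back
  refine hQ2 G hG (MvPolynomial.funext fun t => ?_)
  rw [map_zero, hae]
  have h1 : (fun i => MvPolynomial.eval t (Q i)) =
      fun i => MvPolynomial.eval (fun j => t j - t0 j) (P i) := by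
    funext i
    rw [hPe]
    congr 2
    funext j
    rw [sub_add_cancel]
  rw [h1, ← hae, ← hg, hg0, map_zero]

end Pool.Agent.Run7.h28.ST
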