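import Mathlib
import Pool.Agent.Run7.h28.ST.Loc

/-!
# Project ST (helper28): the closures of the images of torus maps
-/

set_option autoImplicit false

namespace Pool.Agent.Run7.h28.ST

open MvPolynomial

section

variable {K σ : Type} [Field K]

lemma aeval_smul' {A : Type} [CommRing A] [Algebra K A] {G : MvPolynomial σ K} {e : ℕ}
    (hG : G.IsHomogeneous e) (c : A) (z : σ → A) :
    aeval (fun i => c * z i) G = c ^ e * aeval z G := by
  rw [aeval_def, aeval_def, eval₂_eq, eval₂_eq, Finset.mul_sum]
  refine Finset.sum_congr rfl fun m hm => ?_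
  have h1 : ∑ i ∈ m.support, m i = e := by
    have h2 := hG (mem_support_iff.1 hm)
    rw [Finsupp.weight_apply, Finsupp.sum] at h2
    simpa using h2
  simp only [mul_pow]
  rw [Finset.prod_mul_distrib, Finset.prod_pow_eq_pow_sum, h1]
  ring

/-- the map to the cone over the image -/
noncomputable def psi {r : ℕ} (Q : σ → MvPolynomial (Fin r) K) :
    MvPolynomial σ K →ₐ[K] Polynomial (MvPolynomial (Fin r) K) :=
  aeval fun s => Polynomial.X * Polynomial.C (Q s)

lemma psi_homog {r : ℕ} (Q : σ → MvPolynomial (Fin r) K) {G : MvPolynomial σ K} {e : ℕ}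
    (hG : G.IsHomogeneous e) : psi Q G = Polynomial.C (aeval Q G) * Polynomial.X ^ e := by
  unfold psi
  rw [aeval_smul' hG Polynomial.X fun s => Polynomial.C (Q s), mul_comm]
  congr 1
  exact aeval_algebraMap_apply (Polynomial (MvPolynomial (Fin r) K)) Q G

/-- the ideal of the closure of the image -/
noncomputable def coneIdeal {r : ℕ} (Q : σ → MvPolynomial (Fin r) K) : Ideal (MvPolynomial σ K) :=
  RingHom.ker (psi Q)

lemma mem_cone {r : ℕ} (Q : σ → MvPolynomial (Fin r) K) (G : MvPolynomial σ K) :
    G ∈ coneIdeal Q ↔ ∀ e, aeval Q (homogeneousComponent e G) = 0 := by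
  unfold coneIdeal
  rw [RingHom.mem_ker]
  have h1 : psi Q G = ∑ e ∈ Finset.range (G.totalDegree + 1),
      Polynomial.C (aeval Q (homogeneousComponent e G)) * Polynomial.X ^ e := by
    conv_lhs => rw [← sum_homogeneousComponent G]
    rw [map_sum]
    exact Finset.sum_congr rfl fun e _ => psi_homog Q (homogeneousComponent_isHomogeneous e G)
  constructor
  · intro h e
    by_cases he : e < G.totalDegree + 1
    · have h2 := congrArg (fun p => Polynomial.coeff p e) h1
      simp only [Polynomial.finsetSum_coeff, Polynomial.coeff_C_mul, Polynomial.coeff_X_pow] at h2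
      rw [h, Polynomial.coeff_zero, Finset.sum_eq_single e] at h2
      · rw [if_pos rfl, mul_one] at h2
        exact h2.symm
      · intro b _ hb
        rw [if_neg (Ne.symm hb), mul_zero]
      · intro h3
        exact absurd (Finset.mem_range.2 he) h3
    · rw [homogeneousComponent_eq_zero _ _ (by omega), map_zero]
  · intro h
    rw [h1]
    refine Finset.sum_eq_zero fun e _ => ?_
    rw [h e, map_zero, zero_mul]

lemma cone_prime {r : ℕ} (Q : σ → MvPolynomial (Fin r) K) : (coneIdeal Q).IsPrime :=
  RingHom.ker_isPrime _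

lemma comp_comp (G : MvPolynomial σ K) (e e' : ℕ) :
    homogeneousComponent e' (homogeneousComponent e G) =
      if e' = e then homogeneousComponent e G else 0 := by
  classical
  split_ifs with h
  · subst h
    exact homogeneousComponent_of_mem (homogeneousComponent_mem _ _) |>.trans (if_pos rfl)
  · exact homogeneousComponent_of_mem (homogeneousComponent_mem _ _) |>.trans (if_neg h)

lemma cone_comp {r : ℕ} (Q : σ → MvPolynomial (Fin r) K) :
    ∀ G ∈ coneIdeal Q, ∀ e, homogeneousComponent e G ∈ coneIdeal Q := by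
  intro G hG e
  rw [mem_cone] at hG ⊢
  intro e'
  rw [comp_comp]
  split_ifs
  · exact hG e
  · exact map_zero _

lemma cone_le {r : ℕ} (Q : σ → MvPolynomial (Fin r) K) :
    ∀ G ∈ coneIdeal Q, aeval Q G = 0 := by
  intro G hG
  rw [mem_cone] at hG
  rw [← sum_homogeneousComponent G, map_sum]
  exact Finset.sum_eq_zero fun e _ => hG e

lemma cone_of_homog {r : ℕ} (Q : σ → MvPolynomial (Fin r) K) {G : MvPolynomial σ K}
    (h : ∃ e, G.IsHomogeneous e) (h0 : aeval Q G = 0) : G ∈ coneIdeal Q := by
  obtain ⟨e, he⟩ := h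
  unfold coneIdeal
  rw [RingHom.mem_ker]
  exact (psi_homog Q he).trans (by rw [h0, map_zero, zero_mul])

end

section

variable {K : Type} [Field K] [NumberField K]

/-- the values of a torus map -/
theorem torus_cone {σ : Type} [Fintype σ] {r : ℕ} (P : σ → Lau K r) :
    ∃ Q : σ → MvPolynomial (Fin r) K,
      (∀ (u : Fin r → Kˣ), ∀ G ∈ coneIdeal Q, eval (fun i => evU u (P i)) G = 0) ∧
      ∀ I : Ideal (MvPolynomial σ K), (∀ G ∈ I, ∀ e, homogeneousComponent e G ∈ I) →
        (∀ G ∈ I, aeval P G = 0) → I ≤ coneIdeal Q := by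
  classical
  obtain ⟨N, Q, hQ⟩ := clear_den P
  have key : ∀ (u : Fin r → Kˣ) (G : MvPolynomial σ K) (e : ℕ), G.IsHomogeneous e →
      eval (fun l => (u l : K)) (aeval Q G) =
        ((∏ l, u l ^ N l : Kˣ) : K) ^ e * eval (fun i => evU u (P i)) G := by
    intro u G e he
    rw [eval_aeval_eq]
    have h1 : (fun i => eval (fun l => (u l : K)) (Q i)) =
        fun i => ((∏ l, u l ^ N l : Kˣ) : K) * evU u (P i) := funext fun i => hQ u i
    rw [h1, eval_smul he]
  refine ⟨Q, fun u G hG => ?_, fun I hI hP G hG => ?_⟩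
  · rw [mem_cone] at hG
    rw [← sum_homogeneousComponent G, map_sum]
    refine Finset.sum_eq_zero fun e _ => ?_
    have h1 := key u _ e (homogeneousComponent_isHomogeneous e G)
    rw [hG e, map_zero] at h1
    rcases mul_eq_zero.1 h1.symm with h2 | h2
    · exact absurd h2 (pow_ne_zero _ (Units.ne_zero _))
    · exact h2
  · rw [mem_cone]
    intro e
    refine poly_zero _ fun u => ?_
    rw [key u _ e (homogeneousComponent_isHomogeneous e G), ← evU_aeval, hP _ (hI G hG e),
      map_zero, mul_zero]

end

end Pool.Agent.Run7.h28.ST
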